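import Pool.Agent.Helper51.TDC.LL

/-!
# The global part: interface `GCore`

`G` is an (all edges odd) graph on the vertex set `U`, internally 4-connected, of bipartite index
at least three, without a TOK4. `GCore G U` collects what the minimal counterexample satisfies.
`Bal G κ Y` : `κ` is a proper colouring of the edges meeting `Y`.
-/

set_option autoImplicit false

namespace Pool.Agent.Helper51.GX

open SimpleGraph Pool.Agent.Helper57.TOK Pool.Agent.Helper57.TD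

variable {V : Type*}

/-- `κ` is proper on the edges which meet `Y`. -/
def Bal (G : SimpleGraph V) (κ : V → ZMod 2) (Y : Set V) : Prop :=
  ∀ u v, u ∈ Y → G.Adj u v → κ u ≠ κ v

/-- The obstacle `O3` for the fold of the cubic vertex `y` (`N(y) = {p, q, c}`) at `p, q`: a
balanced set `W` with five neighbours, tight, and one further common neighbour of `p`, `q`. -/
structure O3W (G : SimpleGraph V) (U : Set V) (κ : V → ZMod 2) (W : Set V) (y p q c : V) :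
    Prop where
  sub : W ⊆ U
  bal : Bal G κ W
  five : (Nb G W).ncard = 5
  pN : p ∈ Nb G W
  qN : q ∈ Nb G W
  yN : y ∈ Nb G W
  cW : c ∈ W
  kpq : κ p = κ q
  kpy : κ p = κ y
  nocom : ∀ w ∈ W, ¬ (G.Adj w p ∧ G.Adj w q)
  com : ∃ z, z ≠ y ∧ G.Adj p z ∧ G.Adj q z
  tight : fden G W = beta κ (Nb G W \ {y}) + 1

/-- The interface of the global part. -/
structure GCore (G : SimpleGraph V) (U : Set V) : Prop where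
  edge_mem : ∀ u v, G.Adj u v → u ∈ U
  deg3 : ∀ y ∈ U, 3 ≤ (G.neighborSet y).ncard
  P1 : ∀ Y ⊆ U, 2 ≤ Y.ncard → ∀ κ, Bal G κ Y → 4 ≤ (Nb G Y).ncard
  P2 : ∀ Y ⊆ U, ∀ κ, Bal G κ Y → (Nb G Y).ncard = 4 → fden G Y ≤ beta κ (Nb G Y)
  I4 : ∀ Y ⊆ U, 2 ≤ Y.ncard → (Nb G Y).ncard ≤ 3 → (U \ (Y ∪ Nb G Y)).ncard ≤ 1
  ind3 : ∀ z1 z2 : V, ∀ κ : V → ZMod 2, ¬ ∀ u v, u ∉ ({z1, z2} : Set V) →
    v ∉ ({z1, z2} : Set V) → G.Adj u v → κ u ≠ κ v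
  T3 : ∀ c d, d ∈ U → c ≠ d → (G.neighborSet d).ncard = 3 →
    ¬ G.neighborSet d ⊆ G.neighborSet c
  F1 : ∀ p q x x', G.Adj p q → x ≠ x' → G.Adj p x → G.Adj q x → G.Adj p x' → G.Adj q x' → False
  TYPE1 : ∀ a b z0 z1 z2, a ≠ b → ¬ G.Adj a b → z0 ≠ z1 → z0 ≠ z2 → z1 ≠ z2 →
    G.Adj a z0 → G.Adj a z1 → G.Adj a z2 → G.Adj b z0 → G.Adj b z1 → G.Adj b z2 →
    ∃ D ⊆ U, ∃ κ : V → ZMod 2, Bal G κ D ∧ (Nb G D).ncard ≤ 4 ∧ a ∈ Nb G D ∧ b ∈ Nb G D ∧ κ a = κ b ∧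
      κ z0 ≠ κ a ∧ κ z1 ≠ κ a ∧ κ z2 ≠ κ a ∧
      z0 ∈ D ∪ Nb G D ∧ z1 ∈ D ∪ Nb G D ∧ z2 ∈ D ∪ Nb G D
  L1 : ∀ w1 w2 y a b c e g, ∀ κ0 : V → ZMod 2, Bal G κ0 {w1, w2, y} →
    w1 ∈ U → w2 ∈ U → y ∈ U → ¬ G.Adj a b →
    w1 ≠ w2 → y ≠ w1 → y ≠ w2 →
    a ≠ b → c ≠ e → c ≠ g → c ≠ a → c ≠ b → e ≠ g → a ≠ e → a ≠ g → b ≠ e → b ≠ g →
    G.neighborSet w1 = {a, e, g} → G.neighborSet w2 = {b, e, g} →
    G.neighborSet y = {a, b, c} →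
    ∃ D ⊆ U, ∃ κ : V → ZMod 2, Bal G κ D ∧ y ∈ D ∧ w1 ∈ D ∧ w2 ∈ D ∧ a ∈ Nb G D ∧ b ∈ Nb G D ∧
      (Nb G D).ncard ≤ 4
  FOLD : ∀ y p q c, y ∈ U → p ≠ q → p ≠ c → q ≠ c → ¬ G.Adj p q →
    G.neighborSet y = {p, q, c} →
    (∃ z1 z2, z1 ≠ z2 ∧ z1 ≠ y ∧ z2 ≠ y ∧ G.Adj p z1 ∧ G.Adj q z1 ∧ G.Adj p z2 ∧ G.Adj q z2) ∨
    (∃ A ⊆ U, ∃ κ : V → ZMod 2, Bal G κ A ∧ (Nb G A).ncard = 4 ∧ p ∈ Nb G A ∧ q ∈ Nb G A ∧ κ p = κ q ∧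
      y ∉ A ∧ c ∉ A ∧ (c ∈ Nb G A → κ c ≠ κ p) ∧ ∀ w ∈ A, ¬ (G.Adj w p ∧ G.Adj w q)) ∨
    (∃ A ⊆ U, ∃ κ : V → ZMod 2, Bal G κ A ∧ (Nb G A).ncard = 4 ∧ p ∈ A ∧ q ∈ A ∧ y ∉ A ∧ c ∉ A ∧
      c ∉ Nb G A ∧ ∀ w, w ≠ y → ¬ (G.Adj w p ∧ G.Adj w q)) ∨
    (∃ W κ, O3W G U κ W y p q c)
  TRI : ∀ y c t1 t2 t3, ∀ κ : V → ZMod 2, y ≠ t1 → y ≠ t2 → y ≠ t3 → c ≠ t1 → c ≠ t2 → c ≠ t3 →
    G.Adj t1 t2 → G.Adj t1 t3 → G.Adj t2 t3 → κ t1 = κ t2 → κ t1 = κ t3 →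
    (∀ u v, G.Adj u v → κ u = κ v → s(u, v) = s(y, c) ∨
      (u ∈ ({t1, t2, t3} : Set V) ∧ v ∈ ({t1, t2, t3} : Set V))) → False

/-- An inclusion-minimal balanced four-set which is not in the list. -/
structure GMinX (G : SimpleGraph V) (U : Set V) (κ : V → ZMod 2) (X : Set V) : Prop where
  sub : X ⊆ U
  bal : Bal G κ X
  four : (Nb G X).ncard = 4
  notLL : ¬ IsLL G X
  size : 4 ≤ X.ncard
  min : ∀ A, A ⊆ X → A ≠ X → A.Nonempty → (Nb G A).ncard = 4 → IsLL G A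

lemma Bal.mono {G : SimpleGraph V} {κ : V → ZMod 2} {Y Y' : Set V} (h : Bal G κ Y)
    (hs : Y' ⊆ Y) : Bal G κ Y' := fun u v hu hadj => h u v (hs hu) hadj

/-- Two neighbours of a vertex of `Y` have the same colour. -/
lemma Bal.eq {G : SimpleGraph V} {κ : V → ZMod 2} {Y : Set V} (h : Bal G κ Y) {u v w : V}
    (hu : u ∈ Y) (h1 : G.Adj u v) (h2 : G.Adj u w) : κ v = κ w :=
  eq_of_ne_of_ne (h u v hu h1).symm (h u w hu h2).symm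

/-- In an `O3` obstacle no vertex of `W` is adjacent to the third vertex `c` and to one of the
vertices `p`, `q`. -/
lemma O3W.tri {G : SimpleGraph V} {U : Set V} {κ : V → ZMod 2} {W : Set V} {y p q c : V}
    (hW : O3W G U κ W y p q c) (hyc : G.Adj y c) {u : V} (hu : u ∈ W) (hcu : G.Adj c u)
    (hpq : G.Adj p u ∨ G.Adj q u) : False := by
  have h1 : κ u ≠ κ p := by
    rcases hpq with h | h
    · exact hW.bal u p hu h.symm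
    · rw [hW.kpq]; exact hW.bal u q hu h.symm
  have h2 : κ u ≠ κ c := (hW.bal c u hW.cW hcu).symm
  have h3 : κ c ≠ κ p := by rw [hW.kpy]; exact hW.bal c y hW.cW hyc.symm
  exact h3 (eq_of_ne_of_ne h2.symm h1.symm)

end Pool.Agent.Helper51.GX
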