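import Pool.Agent.Helper51.GX.O3E

/-!
# The global part: there is no cubic vertex
-/

set_option autoImplicit false

namespace Pool.Agent.Helper51.GX

open SimpleGraph Pool.Agent.Helper57.TOK Pool.Agent.Helper57.TD
open Pool.Agent.Helper51.TDC (adj3 ncard3 ncard4 ncard5 two_le_of_mem third_of_ncard3)

variable {V : Type*}

/-- The first exit of a fold is impossible. -/
lemma final_type1 [Finite V] {G : SimpleGraph V} {U : Set V} (h : GCore G U) {a b y z1 z2 : V}
    (hab : a ≠ b) (hnadj : ¬ G.Adj a b) (hyz1 : y ≠ z1) (hyz2 : y ≠ z2) (hzz : z1 ≠ z2)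
    (h1 : G.Adj a y) (h3 : G.Adj a z1) (h4 : G.Adj a z2)
    (h5 : G.Adj b y) (h6 : G.Adj b z1) (h7 : G.Adj b z2) : False := by
  classical
  obtain ⟨D, hDU, κD, bD, hD4, haN, hbN, kab, ky, kz1, kz2, hyD, hz1D, hz2D⟩ :=
    h.TYPE1 a b y z1 z2 hab hnadj hyz1 hyz2 hzz h1 h3 h4 h5 h6 h7
  rcases Nat.lt_or_ge D.ncard 2 with hlt | hge
  · -- one vertex
    have hne : D.Nonempty := by
      obtain ⟨-, u, hu, -⟩ := haN
      exact ⟨u, hu⟩
    have hpos := (Set.ncard_pos (Set.toFinite D)).2 hne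
    obtain ⟨d, rfl⟩ := Set.ncard_eq_one.1 (by omega : D.ncard = 1)
    rw [Nb_singleton] at hD4 haN hbN hyD hz1D hz2D
    have hF5 : ({a, b, y, z1, z2} : Set V).ncard = 5 :=
      ncard5 hab h1.ne h3.ne h4.ne h5.ne h6.ne h7.ne hyz1 hyz2 hzz
    have hFsub : ({a, b, y, z1, z2} : Set V) ⊆ {d} ∪ G.neighborSet d := by
      intro v hv
      simp only [Set.mem_insert_iff, Set.mem_singleton_iff] at hv
      rcases hv with rfl | rfl | rfl | rfl | rfl
      · exact Or.inr haN
      · exact Or.inr hbN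
      · exact hyD
      · exact hz1D
      · exact hz2D
    have hle := Set.ncard_union_le {d} (G.neighborSet d)
    rw [Set.ncard_singleton] at hle
    have hle2 := Set.ncard_le_ncard hFsub (Set.toFinite _)
    have hF : ({a, b, y, z1, z2} : Set V) = {d} ∪ G.neighborSet d :=
      Set.eq_of_subset_of_ncard_le hFsub (by omega) (Set.toFinite _)
    have hd : d ∈ ({a, b, y, z1, z2} : Set V) := by rw [hF]; exact Or.inl rfl
    have conv : ∀ z, z ∈ ({d} : Set V) ∪ G.neighborSet d → z ≠ d → G.Adj d z := by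
      rintro z (hz | hz) hne'
      · exact absurd hz hne'
      · exact hz
    simp only [Set.mem_insert_iff, Set.mem_singleton_iff] at hd
    rcases hd with rfl | rfl | rfl | rfl | rfl
    · exact G.irrefl haN
    · exact G.irrefl hbN
    · exact h.F1 d z1 a b (conv z1 hz1D hyz1.symm) hab h1.symm h3.symm h5.symm h6.symm
    · exact h.F1 d y a b (conv y hyD hyz1) hab h3.symm h1.symm h6.symm h5.symm
    · exact h.F1 d y a b (conv y hyD hyz2) hab h4.symm h1.symm h7.symm h5.symm
  · have hP1 := h.P1 D hDU hge κD bD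
    exact LL_type1 h hDU bD (all_LL h hDU bD (by omega)) hge haN.1 haN (Or.inr hbN) hyD hz1D hz2D
      hab hyz1 hyz2 hzz h1 h3 h4 h5 h6 h7 kab ky kz1 kz2

/-- A balanced set with at least two elements and at most four boundary vertices has no three
vertices of one colour. -/
lemma final_three [Finite V] {G : SimpleGraph V} {U : Set V} (h : GCore G U) {D : Set V}
    {κ : V → ZMod 2} (hD : D ⊆ U) (bD : Bal G κ D) (hD4 : (Nb G D).ncard ≤ 4) {u v w : V}
    (hu : u ∈ D) (hv : v ∈ D) (hw : w ∈ D) (huv : u ≠ v) (huw : u ≠ w) (hvw : v ≠ w)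
    (h1 : κ u = κ v) (h2 : κ u = κ w) : False := by
  have hP1 := h.P1 D hD (two_le_of_mem hu hv huv) κ bD
  exact LL_no_three bD (all_LL h hD bD (by omega)) hu hv hw huv huw hvw h1 h2

/-- Every pair of nonadjacent neighbours of a cubic vertex has the obstacle `O3`. -/
lemma final_pair [Finite V] {G : SimpleGraph V} {U : Set V} (h : GCore G U) {y a b c : V}
    (hy : y ∈ U) (hab : a ≠ b) (hac : a ≠ c) (hbc : b ≠ c) (hnadj : ¬ G.Adj a b)
    (hNy : G.neighborSet y = {a, b, c}) : ∃ W κ, O3W G U κ W y a b c := by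
  classical
  have my := adj3 hNy
  have hya : G.Adj y a := (my a).2 (by tauto)
  have hyb : G.Adj y b := (my b).2 (by tauto)
  have hyc : G.Adj y c := (my c).2 (by tauto)
  rcases h.FOLD y a b c hy hab hac hbc hnadj hNy with
    ⟨z1, z2, hz, h1, h2, h3, h4, h5, h6⟩ | ⟨A, hA, κ, bA, hA4, haA, hbA, kA, hyA, hcA, hcA', hno⟩ |
    ⟨A, hA, κ, bA, hA4, haA, hbA, hyA, hcA, hcA', hno⟩ | hO3
  · exact (final_type1 h hab hnadj h1.symm h2.symm hz hya.symm h3 h5 hyb.symm h4 h6).elim
  · exfalso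
    have hLL := all_LL h hA bA hA4
    have h2 : 2 ≤ A.ncard := by
      have hne : A.Nonempty := by
        obtain ⟨-, u, hu, -⟩ := haA
        exact ⟨u, hu⟩
      have hpos := (Set.ncard_pos (Set.toFinite A)).2 hne
      by_contra hlt
      obtain ⟨d, rfl⟩ := Set.ncard_eq_one.1 (by omega : A.ncard = 1)
      rw [Nb_singleton] at haA hbA
      exact hno d rfl ⟨haA, hbA⟩
    obtain ⟨w1, w2, e, g, c1, c2, c3, c4, c5, c6, c7, c8, c9, c10, c11, c12⟩ :=
      LL_alpha bA hLL h2 hab kA haA hbA hno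
    have m1 := adj3 c4
    have m2 := adj3 c5
    have hw1a : G.Adj w1 a := (m1 a).2 (by tauto)
    have hw1e : G.Adj w1 e := (m1 e).2 (by tauto)
    have hw1g : G.Adj w1 g := (m1 g).2 (by tauto)
    have hw2b : G.Adj w2 b := (m2 b).2 (by tauto)
    have hw2e : G.Adj w2 e := (m2 e).2 (by tauto)
    have hw2g : G.Adj w2 g := (m2 g).2 (by tauto)
    have hcls : ∀ v, v ∈ A ∪ Nb G A → G.Adj w1 v → c ≠ v := by
      rintro v (hv | hv) hadj rfl
      · exact hcA hv
      · exact hcA' hv (bA.eq c1 hadj hw1a)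
    have hce := hcls e c11 hw1e
    have hcg := hcls g c12 hw1g
    have hyw1 : y ≠ w1 := fun hh => hyA (hh ▸ c1)
    have hyw2 : y ≠ w2 := fun hh => hyA (hh ▸ c2)
    have hnot : ∀ v, G.Adj w1 v → v ≠ y := by
      rintro v hv rfl
      rcases (my w1).1 hv.symm with hh | hh | hh
      · exact haA.1 (hh ▸ c1)
      · exact hbA.1 (hh ▸ c1)
      · exact hcA (hh ▸ c1)
    have hnot2 : ∀ v, G.Adj w2 v → v ≠ y := by
      rintro v hv rfl
      rcases (my w2).1 hv.symm with hh | hh | hh
      · exact haA.1 (hh ▸ c2)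
      · exact hbA.1 (hh ▸ c2)
      · exact hcA (hh ▸ c2)
    have hBal : Bal G (fun v => if v ∈ ({w1, w2, y} : Set V) then (0 : ZMod 2) else 1)
        {w1, w2, y} := by
      intro u v hu hadj
      have hv : v ∉ ({w1, w2, y} : Set V) := by
        intro hv
        simp only [Set.mem_insert_iff, Set.mem_singleton_iff] at hu hv
        have haw1 : a ≠ w1 := hw1a.ne.symm
        have haw2 : a ≠ w2 := fun hh => haA.1 (hh ▸ c2)
        have hbw1 : b ≠ w1 := fun hh => hbA.1 (hh ▸ c1)
        have hbw2 : b ≠ w2 := hw2b.ne.symm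
        have hcw1 : c ≠ w1 := fun hh => hcA (hh ▸ c1)
        have hcw2 : c ≠ w2 := fun hh => hcA (hh ▸ c2)
        have hne12 : ∀ v, G.Adj w1 v → v ≠ w2 := by
          rintro v hv' rfl
          rcases (m1 v).1 hv' with hh | hh | hh
          · exact haw2 hh.symm
          · exact hw2e.ne hh
          · exact hw2g.ne hh
        rcases hu with rfl | rfl | rfl
        · rcases hv with rfl | rfl | rfl
          · exact G.irrefl hadj
          · exact hne12 _ hadj rfl
          · exact hnot _ hadj rfl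
        · rcases hv with rfl | rfl | rfl
          · exact hne12 _ hadj.symm rfl
          · exact G.irrefl hadj
          · exact hnot2 _ hadj rfl
        · rcases hv with rfl | rfl | rfl
          · exact hnot _ hadj.symm rfl
          · exact hnot2 _ hadj.symm rfl
          · exact G.irrefl hadj
      simp only [if_pos hu, if_neg hv]
      exact zero_ne_one
    obtain ⟨D, hDU, κD, bD, d1, d2, d3, d4, d5, d6⟩ := h.L1 w1 w2 y a b c e g _ hBal
      (hA c1) (hA c2) hy hnadj c3 hyw1 hyw2 hab hce hcg hac.symm hbc.symm c6 c7 c8 c9 c10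
      c4 c5 hNy
    have hd1 : κD y = κD w1 := eq_of_ne_of_ne (bD y a d1 hya) (bD w1 a d2 hw1a)
    have hd2 : κD y = κD w2 := eq_of_ne_of_ne (bD y b d1 hyb) (bD w2 b d3 hw2b)
    exact final_three h hDU bD d6 d1 d2 d3 hyw1 hyw2 c3 hd1 hd2
  · exfalso
    have hLL := all_LL h hA bA hA4
    have kab : κ a = κ b := eq_of_ne_of_ne (bA a y haA hya.symm) (bA b y hbA hyb.symm)
    obtain ⟨w1, w2, hw, h1, h2, h3, h4⟩ := LL_common bA hLL haA hbA hab kab
    by_cases hw1 : w1 = y
    · exact hno w2 (fun hh => hw (hw1.trans hh.symm)) ⟨h3.symm, h4.symm⟩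
    · exact hno w1 hw1 ⟨h1.symm, h2.symm⟩
  · exact hO3

/-- There is no cubic vertex. -/
theorem GCore.noCubic [Finite V] {G : SimpleGraph V} {U : Set V} (h : GCore G U) {y : V}
    (hy : y ∈ U) : (G.neighborSet y).ncard ≠ 3 :=
  o3_end h (fun _ _ _ _ hy hab hac hbc hnadj hNy => final_pair h hy hab hac hbc hnadj hNy) hy

end Pool.Agent.Helper51.GX
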