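import Pool.Agent.Helper51.GX.LL

/-!
# The global part: the class lemma

`A`, `X` balanced (with `κA`, `κX`) with at most four neighbours each. On the overlap
`(A ∪ N(A)) ∩ (X ∪ N(X))` the sum `κA + κX` splits the vertices into two classes; edges incident
with both `A` and `X` stay in a class. Each class of `QQ G A X` has at most four elements.
-/

set_option autoImplicit false

namespace Pool.Agent.Helper51.GX

open SimpleGraph Pool.Agent.Helper57.TOK Pool.Agent.Helper57.TD Pool.Agent.Helper51.TDC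

variable {V : Type*}

/-- A class of the overlap of the boundaries. -/
def Qk (G : SimpleGraph V) (A X : Set V) (κA κX : V → ZMod 2) (k : ZMod 2) : Set V :=
  {v | v ∈ QQ G A X ∧ κA v + κX v = k}

/-- A class of the intersection. -/
def Ck (A X : Set V) (κA κX : V → ZMod 2) (k : ZMod 2) : Set V :=
  {v | v ∈ A ∩ X ∧ κA v + κX v = k}

lemma mem_QQ_or {G : SimpleGraph V} {A X : Set V} {v : V} (h1 : v ∈ A ∪ Nb G A)
    (h2 : v ∈ X ∪ Nb G X) : v ∈ A ∩ X ∨ v ∈ QQ G A X := by
  rcases h1 with h1 | h1 <;> rcases h2 with h2 | h2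
  · exact Or.inl ⟨h1, h2⟩
  · exact Or.inr (Or.inl (Or.inr ⟨h2, h1⟩))
  · exact Or.inr (Or.inl (Or.inl ⟨h1, h2⟩))
  · exact Or.inr (Or.inr ⟨h1, h2⟩)

lemma mem_union_Nb {G : SimpleGraph V} {Y : Set V} {u v : V} (hu : u ∈ Y) (h : G.Adj u v) :
    v ∈ Y ∪ Nb G Y := by
  by_cases hv : v ∈ Y
  · exact Or.inl hv
  · exact Or.inr ⟨hv, u, hu, h⟩

lemma QQ_comm (G : SimpleGraph V) (A X : Set V) : QQ G A X = QQ G X A := by
  ext v
  simp only [QQ, Set.mem_union, Set.mem_inter_iff]
  tauto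

lemma Qk_comm (G : SimpleGraph V) (A X : Set V) (κA κX : V → ZMod 2) (k : ZMod 2) :
    Qk G A X κA κX k = Qk G X A κX κA k := by
  ext v
  simp only [Qk, Set.mem_ofPred_eq, QQ_comm G A X, add_comm (κA v)]

/-- the two classes are different -/
lemma class_same {a b a' b' : ZMod 2} (h1 : a ≠ a') (h2 : b ≠ b') : a + b = a' + b' := by
  revert a b a' b'; decide

/-- Neighbours of a class of the intersection lie in the same class. -/
lemma Nb_Ck {G : SimpleGraph V} {A X : Set V} {κA κX : V → ZMod 2} (bA : Bal G κA A)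
    (bX : Bal G κX X) (k : ZMod 2) : Nb G (Ck A X κA κX k) ⊆ Qk G A X κA κX k := by
  rintro v ⟨hv, u, ⟨⟨huA, huX⟩, huk⟩, hadj⟩
  have hk : κA v + κX v = k := by
    rw [← huk]; exact class_same (bA u v huA hadj).symm (bX u v huX hadj).symm
  rcases mem_QQ_or (mem_union_Nb huA hadj) (mem_union_Nb huX hadj) with h | h
  · exact absurd ⟨h, hk⟩ hv
  · exact ⟨h, hk⟩

/-- The neighbours of `Ck` in terms of sizes. -/
theorem QQ_sum [Finite V] (G : SimpleGraph V) (A X : Set V) :
    (QQ G A X).ncard + (Nb G (A ∪ X)).ncard ≤ (Nb G A).ncard + (Nb G X).ncard := by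
  classical
  set PA := Nb G A ∩ X with hPA
  set PB := Nb G X ∩ A with hPB
  set T1 := Nb G A ∩ Nb G X with hT1
  set RA := (Nb G A \ X) \ Nb G X with hRA
  set RX := (Nb G X \ A) \ Nb G A with hRX
  have e1 : Nb G A = PA ∪ T1 ∪ RA := by
    ext v
    simp only [hPA, hT1, hRA, Set.mem_union, Set.mem_inter_iff, Set.mem_sdiff]
    tauto
  have e2 : Nb G X = PB ∪ T1 ∪ RX := by
    ext v
    simp only [hPB, hT1, hRX, Set.mem_union, Set.mem_inter_iff, Set.mem_sdiff]
    tauto
  have hXX : ∀ v, v ∈ X → v ∉ Nb G X := fun v hv hv' => hv'.1 hv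
  have hAA : ∀ v, v ∈ A → v ∉ Nb G A := fun v hv hv' => hv'.1 hv
  have c1 : (Nb G A).ncard = PA.ncard + T1.ncard + RA.ncard := by
    rw [e1, Set.ncard_union_eq _ (Set.toFinite _) (Set.toFinite _),
      Set.ncard_union_eq _ (Set.toFinite _) (Set.toFinite _)]
    · rw [Set.disjoint_left]; rintro v ⟨-, hv⟩ ⟨-, hv'⟩; exact hXX v hv hv'
    · rw [Set.disjoint_left]; rintro v (⟨-, hv⟩ | ⟨-, hv⟩) ⟨⟨-, hv'⟩, hv''⟩
      · exact hv' hv
      · exact hv'' hv
  have c2 : (Nb G X).ncard = PB.ncard + T1.ncard + RX.ncard := by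
    rw [e2, Set.ncard_union_eq _ (Set.toFinite _) (Set.toFinite _),
      Set.ncard_union_eq _ (Set.toFinite _) (Set.toFinite _)]
    · rw [Set.disjoint_left]; rintro v ⟨-, hv⟩ ⟨hv', -⟩; exact hAA v hv hv'
    · rw [Set.disjoint_left]; rintro v (⟨-, hv⟩ | ⟨hv, -⟩) ⟨⟨-, hv'⟩, hv''⟩
      · exact hv' hv
      · exact hv'' hv
  have c3 : (Nb G (A ∪ X)).ncard ≤ T1.ncard + RA.ncard + RX.ncard := by
    have hsub : Nb G (A ∪ X) ⊆ T1 ∪ RA ∪ RX := by
      rintro v ⟨h1, u, hu, h3⟩
      have hvA : v ∉ A := fun hh => h1 (Or.inl hh)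
      have hvX : v ∉ X := fun hh => h1 (Or.inr hh)
      have : v ∈ Nb G A ∨ v ∈ Nb G X := by
        rcases hu with hu | hu
        · exact Or.inl ⟨hvA, u, hu, h3⟩
        · exact Or.inr ⟨hvX, u, hu, h3⟩
      simp only [hT1, hRA, hRX, Set.mem_union, Set.mem_inter_iff, Set.mem_sdiff]
      tauto
    calc (Nb G (A ∪ X)).ncard ≤ (T1 ∪ RA ∪ RX).ncard := Set.ncard_le_ncard hsub (Set.toFinite _)
      _ ≤ (T1 ∪ RA).ncard + RX.ncard := Set.ncard_union_le _ _
      _ ≤ T1.ncard + RA.ncard + RX.ncard := by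
        have := Set.ncard_union_le T1 RA
        omega
  have c4 : (QQ G A X).ncard ≤ PA.ncard + PB.ncard + T1.ncard := by
    show (PA ∪ PB ∪ T1).ncard ≤ PA.ncard + PB.ncard + T1.ncard
    have h1 := Set.ncard_union_le (PA ∪ PB) T1
    have h3 := Set.ncard_union_le PA PB
    omega
  omega

lemma exists_two_cover [Finite V] [Nonempty V] {D : Set V} (h : D.ncard ≤ 2) :
    ∃ z1 z2, D ⊆ ({z1, z2} : Set V) := by
  rcases Nat.lt_or_ge D.ncard 1 with h1 | h1
  · obtain ⟨z⟩ := ‹Nonempty V›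
    refine ⟨z, z, ?_⟩
    have : D = ∅ := by rw [← Set.ncard_eq_zero (Set.toFinite _)]; omega
    rw [this]; exact Set.empty_subset _
  · rcases Nat.lt_or_ge D.ncard 2 with h2 | h2
    · obtain ⟨z, rfl⟩ := Set.ncard_eq_one.1 (by omega : D.ncard = 1)
      exact ⟨z, z, by simp⟩
    · obtain ⟨z1, z2, -, rfl⟩ := Set.ncard_eq_two.1 (by omega : D.ncard = 2)
      exact ⟨z1, z2, subset_rfl⟩

/-- If deleting the vertices of `D` leaves a properly coloured graph, `D` has at least three
elements. -/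
lemma three_le_of_bal [Finite V] [Nonempty V] {G : SimpleGraph V} {U : Set V} (h : GCore G U)
    {D : Set V} {κ : V → ZMod 2}
    (hκ : ∀ u v, u ∉ D → v ∉ D → G.Adj u v → κ u ≠ κ v) : 3 ≤ D.ncard := by
  by_contra hlt
  obtain ⟨z1, z2, hz⟩ := exists_two_cover (D := D) (by omega)
  exact h.ind3 z1 z2 κ (fun u v hu hv hadj =>
    hκ u v (fun hh => hu (hz hh)) (fun hh => hv (hz hh)) hadj)

lemma add_left_class {a b k : ZMod 2} (h : a + b = k) : a = b + k := by
  revert a b k; decide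

lemma ne_add_one (a : ZMod 2) : a ≠ a + 1 := by
  revert a; decide

lemma add_ne_add {a b k : ZMod 2} (h : a ≠ b) : a + k ≠ b + k := by
  revert a b k; decide

lemma ne_class {a k : ZMod 2} (h : a ≠ k) : a = k + 1 := by
  revert a k; decide

private lemma cls_aux [Finite V] {G : SimpleGraph V} {U : Set V} (h : GCore G U)
    {A X : Set V} {κA κX : V → ZMod 2} (hA : A ⊆ U) (hX : X ⊆ U) (bA : Bal G κA A)
    (bX : Bal G κX X) (h2 : 2 ≤ (A ∪ X).ncard) (hA4 : (Nb G A).ncard ≤ 4)
    (hX4 : (Nb G X).ncard ≤ 4) (k : ZMod 2) (hk : 5 ≤ (Qk G A X κA κX k).ncard)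
    (hle : (Qk G A X κA κX (k + 1) ∩ X).ncard ≤ (Qk G A X κA κX (k + 1) ∩ A).ncard) : False := by
  classical
  have : Nonempty V := by
    have : (A ∪ X).Nonempty := by rw [← Set.ncard_pos (Set.toFinite _)]; omega
    exact ⟨this.some⟩
  set Q' := Qk G A X κA κX (k + 1) with hQ'
  set B := Nb G (A ∪ X) with hB
  set T' := Q' ∩ (Nb G A ∩ Nb G X) with hT'
  have hsum := QQ_sum G A X
  rw [← hB] at hsum
  -- the classes are disjoint
  have c1 : (Qk G A X κA κX k).ncard + Q'.ncard ≤ (QQ G A X).ncard := by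
    rw [← Set.ncard_union_eq _ (Set.toFinite _) (Set.toFinite _)]
    · apply Set.ncard_le_ncard _ (Set.toFinite _)
      rintro v (hv | hv)
      · exact hv.1
      · exact hv.1
    · rw [Set.disjoint_left]
      rintro v ⟨-, h1⟩ ⟨-, h3⟩
      rw [h1] at h3
      exact ne_add_one k h3
  have c2 : (Q' ∩ X).ncard + (Q' ∩ A).ncard + T'.ncard ≤ Q'.ncard := by
    have hAX : ∀ v ∈ Q', v ∈ X → v ∉ A := by
      rintro v ⟨hv, -⟩ hvX hvA
      rcases hv with (hv | hv) | hv
      · exact hv.1.1 hvA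
      · exact hv.1.1 hvX
      · exact hv.1.1 hvA
    rw [← Set.ncard_union_eq _ (Set.toFinite _) (Set.toFinite _),
      ← Set.ncard_union_eq _ (Set.toFinite _) (Set.toFinite _)]
    · apply Set.ncard_le_ncard _ (Set.toFinite _)
      rintro v ((hv | hv) | hv) <;> exact hv.1
    · rw [Set.disjoint_left]
      rintro v (hv | hv) hv'
      · exact hv'.2.2.1 hv.2
      · exact hv'.2.1.1 hv.2
    · rw [Set.disjoint_left]
      rintro v hv hv'
      exact hAX v hv.1 hv.2 hv'.2
  have hm3 : B.ncard ≤ 3 := by omega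
  have hR := h.I4 (A ∪ X) (Set.union_subset hA hX) h2 hm3
  rw [← hB] at hR
  have hTB : T' ⊆ B := by
    rintro v ⟨-, hv1, hv2⟩
    obtain ⟨hvA, u, hu, hadj⟩ := hv1
    refine ⟨?_, u, Or.inl hu, hadj⟩
    rintro (hh | hh)
    · exact hvA hh
    · exact hv2.1 hh
  -- `n` is the boundary vertex which is kept (if there is one)
  obtain ⟨Del, n, hD1, hD2, hD3, hDc⟩ : ∃ (Del : Set V) (n : V), Q' ∩ X ⊆ Del ∧ T' ⊆ Del ∧
      (∀ v ∈ B, v ∉ Del → v = n) ∧ Del.ncard ≤ 2 := by
    by_cases hex : ∃ n ∈ B, n ∉ T'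
    · obtain ⟨n, hnB, hnT⟩ := hex
      refine ⟨(Q' ∩ X) ∪ (B \ {n}), n, Set.subset_union_left, ?_, ?_, ?_⟩
      · intro v hv
        refine Or.inr ⟨hTB hv, ?_⟩
        rintro hh
        rw [Set.mem_singleton_iff] at hh
        exact hnT (hh ▸ hv)
      · intro v hv hvD
        by_contra hne
        exact hvD (Or.inr ⟨hv, hne⟩)
      · have h3 := Set.ncard_union_le (Q' ∩ X) (B \ {n})
        have h4 := Set.ncard_sdiff_singleton_add_one hnB (Set.toFinite _)
        omega
    · push Not at hex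
      obtain ⟨n⟩ := ‹Nonempty V›
      refine ⟨(Q' ∩ X) ∪ B, n, Set.subset_union_left, hTB.trans Set.subset_union_right,
        fun v hv hvD => absurd (Or.inr hv) hvD, ?_⟩
      have h3 := Set.ncard_union_le (Q' ∩ X) B
      have h4 := Set.ncard_le_ncard (show B ⊆ T' from hex) (Set.toFinite _)
      omega
  -- the colouring
  let κ0 : V → ZMod 2 := fun v => if v ∈ A ∪ Nb G A then κA v else κX v + k
  let κ : V → ZMod 2 := fun v => if v ∈ A ∪ X ∪ B then κ0 v else κ0 n + 1
  have inAX : ∀ v, v ∈ A ∪ Nb G A → v ∈ A ∪ X ∪ B := by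
    rintro v (hv | ⟨hv, u, hu, hadj⟩)
    · exact Or.inl (Or.inl hv)
    · by_cases hvX : v ∈ X
      · exact Or.inl (Or.inr hvX)
      · refine Or.inr ⟨?_, u, Or.inl hu, hadj⟩
        rintro (hh | hh)
        · exact hv hh
        · exact hvX hh
  have inAX' : ∀ v, v ∈ X ∪ Nb G X → v ∈ A ∪ X ∪ B := by
    rintro v (hv | ⟨hv, u, hu, hadj⟩)
    · exact Or.inl (Or.inr hv)
    · by_cases hvA : v ∈ A
      · exact Or.inl (Or.inl hvA)
      · refine Or.inr ⟨?_, u, Or.inr hu, hadj⟩
        rintro (hh | hh)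
        · exact hvA hh
        · exact hv hh
  have kA : ∀ v, v ∈ A ∪ Nb G A → κ v = κA v := by
    intro v hv
    show (if v ∈ A ∪ X ∪ B then κ0 v else κ0 n + 1) = _
    rw [if_pos (inAX v hv)]
    show (if v ∈ A ∪ Nb G A then κA v else κX v + k) = _
    rw [if_pos hv]
  have kX : ∀ v, v ∈ X ∪ Nb G X → v ∉ A → v ∉ Del → κ v = κX v + k := by
    intro v hv hvA hvD
    by_cases hvN : v ∈ Nb G A
    · rw [kA v (Or.inr hvN)]
      apply add_left_class
      by_contra hne
      have hcl := ne_class hne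
      have hvQ : v ∈ QQ G A X := by
        rcases mem_QQ_or (Or.inr hvN) hv with hh | hh
        · exact absurd hh.1 hvA
        · exact hh
      rcases hv with hv | hv
      · exact hvD (hD1 ⟨⟨hvQ, hcl⟩, hv⟩)
      · exact hvD (hD2 ⟨⟨hvQ, hcl⟩, hvN, hv⟩)
    · show (if v ∈ A ∪ X ∪ B then κ0 v else κ0 n + 1) = _
      rw [if_pos (inAX' v hv)]
      show (if v ∈ A ∪ Nb G A then κA v else κX v + k) = _
      rw [if_neg]
      rintro (hh | hh)
      · exact hvA hh
      · exact hvN hh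
  have side : ∀ u v, u ∉ Del → v ∉ Del → G.Adj u v → u ∈ A ∪ X → κ u ≠ κ v := by
    intro u v hu hv hadj huAX
    by_cases huA : u ∈ A
    · rw [kA u (Or.inl huA), kA v (mem_union_Nb huA hadj)]
      exact bA u v huA hadj
    · have huX : u ∈ X := by
        rcases huAX with hh | hh
        · exact absurd hh huA
        · exact hh
      by_cases hvA : v ∈ A
      · rw [kA v (Or.inl hvA), kA u (mem_union_Nb hvA hadj.symm)]
        exact (bA v u hvA hadj.symm).symm
      · rw [kX u (Or.inl huX) huA hu, kX v (mem_union_Nb huX hadj) hvA hv]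
        exact add_ne_add (bX u v huX hadj)
  have h3 := three_le_of_bal h (D := Del) (κ := κ) (by
    intro u v hu hv hadj
    by_cases huAX : u ∈ A ∪ X
    · exact side u v hu hv hadj huAX
    by_cases hvAX : v ∈ A ∪ X
    · exact (side v u hv hu hadj.symm hvAX).symm
    -- both in `B` or the rest
    have huU := h.edge_mem u v hadj
    have hvU := h.edge_mem v u hadj.symm
    by_cases huB : u ∈ B
    · have hun := hD3 u huB hu
      by_cases hvB : v ∈ B
      · have hvn := hD3 v hvB hv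
        exact absurd (hun.trans hvn.symm) hadj.ne
      · have e1 : κ u = κ0 n := by
          show (if u ∈ A ∪ X ∪ B then κ0 u else κ0 n + 1) = _
          rw [if_pos (show u ∈ A ∪ X ∪ B from Or.inr huB), hun]
        have e2 : κ v = κ0 n + 1 := by
          show (if v ∈ A ∪ X ∪ B then κ0 v else κ0 n + 1) = _
          rw [if_neg]
          rintro (hh | hh)
          · exact hvAX hh
          · exact hvB hh
        rw [e1, e2]
        exact ne_add_one _
    · by_cases hvB : v ∈ B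
      · have hvn := hD3 v hvB hv
        have e1 : κ v = κ0 n := by
          show (if v ∈ A ∪ X ∪ B then κ0 v else κ0 n + 1) = _
          rw [if_pos (show v ∈ A ∪ X ∪ B from Or.inr hvB), hvn]
        have e2 : κ u = κ0 n + 1 := by
          show (if u ∈ A ∪ X ∪ B then κ0 u else κ0 n + 1) = _
          rw [if_neg]
          rintro (hh | hh)
          · exact huAX hh
          · exact huB hh
        rw [e1, e2]
        exact (ne_add_one _).symm
      · exfalso
        have h4 := (Set.ncard_le_one (Set.toFinite _)).1 hR u ⟨huU, fun hh => by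
          rcases hh with hh | hh
          · exact huAX hh
          · exact huB hh⟩ v ⟨hvU, fun hh => by
          rcases hh with hh | hh
          · exact hvAX hh
          · exact hvB hh⟩
        exact hadj.ne h4)
  omega

/-- The class lemma. -/
theorem class_le [Finite V] {G : SimpleGraph V} {U : Set V} (h : GCore G U)
    {A X : Set V} {κA κX : V → ZMod 2} (hA : A ⊆ U) (hX : X ⊆ U) (bA : Bal G κA A)
    (bX : Bal G κX X) (h2 : 2 ≤ (A ∪ X).ncard) (hA4 : (Nb G A).ncard ≤ 4)
    (hX4 : (Nb G X).ncard ≤ 4) (k : ZMod 2) : (Qk G A X κA κX k).ncard ≤ 4 := by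
  by_contra hlt
  push Not at hlt
  rcases le_total (Qk G A X κA κX (k + 1) ∩ X).ncard (Qk G A X κA κX (k + 1) ∩ A).ncard with
    hle | hle
  · exact cls_aux h hA hX bA bX h2 hA4 hX4 k hlt hle
  · rw [Set.union_comm] at h2
    rw [Qk_comm] at hlt
    rw [Qk_comm] at hle
    exact cls_aux h hX hA bX bA h2 hX4 hA4 k hlt hle

end Pool.Agent.Helper51.GX
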