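import Pool.Agent.Helper51.GX.Exits
import Pool.Agent.Helper51.TDC.Count

/-!
# The global part: the count in a minimal non-list set
-/

set_option autoImplicit false

namespace Pool.Agent.Helper51.GX

open SimpleGraph Pool.Agent.Helper57.TOK Pool.Agent.Helper57.TD
open Pool.Agent.Helper51.TDC (adj3 ncard3 ncard4 ncard5 two_le_of_mem Star Cub LL_cubic2)

variable {V : Type*}

open Classical in
private lemma count_inter [Fintype V] (G : SimpleGraph V) (v : V) (A : Set V) :
    (G.neighborSet v ∩ A).ncard = ∑ n ∈ A.toFinset, if G.Adj v n then 1 else 0 := by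
  rw [Finset.sum_boole, Set.ncard_eq_toFinset_card']
  push_cast
  congr 1
  ext n
  simp [and_comm]

/-- Twice `f(X)` as a sum over the vertices of `X`. -/
private lemma count_two_fden [Fintype V] (G : SimpleGraph V) (X : Finset V) :
    2 * fden G (X : Set V) = ∑ v ∈ X, (((G.neighborSet v).ncard : ℤ) +
      ((G.neighborSet v \ (X : Set V)).ncard : ℤ) - 4) := by
  classical
  induction X using Finset.induction_on with
  | empty => simp
  | insert y Y hy ih =>
    have hy' : y ∉ (Y : Set V) := by simpa using hy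
    rw [Finset.coe_insert, fden_insert G hy', Finset.sum_insert hy]
    have h1 : ∀ v ∈ Y, (((G.neighborSet v).ncard : ℤ) +
        ((G.neighborSet v \ (insert y (Y : Set V))).ncard : ℤ) - 4) =
        (((G.neighborSet v).ncard : ℤ) + ((G.neighborSet v \ (Y : Set V)).ncard : ℤ) - 4) -
          (if G.Adj y v then 1 else 0) := by
      intro v hv
      by_cases h : G.Adj y v
      · have e : G.neighborSet v \ (Y : Set V) =
            insert y (G.neighborSet v \ (insert y (Y : Set V))) := by
          ext w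
          simp only [Set.mem_sdiff, SimpleGraph.mem_neighborSet, Set.mem_insert_iff]
          constructor
          · rintro ⟨h2, h3⟩
            by_cases h4 : w = y
            · exact Or.inl h4
            · exact Or.inr ⟨h2, fun h5 => h5.elim h4 h3⟩
          · rintro (rfl | ⟨h2, h3⟩)
            · exact ⟨h.symm, hy'⟩
            · exact ⟨h2, fun h4 => h3 (Or.inr h4)⟩
        rw [e, Set.ncard_insert_of_notMem (fun h2 => h2.2 (Set.mem_insert _ _)) (Set.toFinite _),
          if_pos h]
        push_cast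
        ring
      · have e : G.neighborSet v \ (insert y (Y : Set V)) = G.neighborSet v \ (Y : Set V) := by
          ext w
          simp only [Set.mem_sdiff, SimpleGraph.mem_neighborSet, Set.mem_insert_iff]
          constructor
          · rintro ⟨h2, h3⟩
            exact ⟨h2, fun h4 => h3 (Or.inr h4)⟩
          · rintro ⟨h2, h3⟩
            refine ⟨h2, ?_⟩
            rintro (rfl | h4)
            · exact h h2.symm
            · exact h3 h4
        rw [e, if_neg h]
        ring
    rw [Finset.sum_congr rfl h1, Finset.sum_sub_distrib, ← ih]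
    have h2 : G.neighborSet y \ (insert y (Y : Set V)) = G.neighborSet y \ (Y : Set V) := by
      ext w
      simp only [Set.mem_sdiff, SimpleGraph.mem_neighborSet, Set.mem_insert_iff]
      constructor
      · rintro ⟨h2, h3⟩
        exact ⟨h2, fun h4 => h3 (Or.inr h4)⟩
      · rintro ⟨h2, h3⟩
        refine ⟨h2, ?_⟩
        rintro (rfl | h4)
        · exact h2.ne rfl
        · exact h3 h4
    have h3 : (∑ v ∈ Y, if G.Adj y v then (1 : ℤ) else 0) =
        ((G.neighborSet y ∩ (Y : Set V)).ncard : ℤ) := by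
      rw [count_inter G y (Y : Set V)]
      push_cast
      simp
    have h4 := Set.ncard_inter_add_ncard_sdiff_eq_ncard (G.neighborSet y) (Y : Set V)
      (Set.toFinite _)
    rw [h2, h3, ← h4]
    push_cast
    ring

/-- Edges between `X` and its boundary, counted twice. -/
private lemma count_double [Fintype V] (G : SimpleGraph V) (X : Set V) [Fintype X]
    [Fintype (Nb G X)] :
    ∑ v ∈ X.toFinset, (G.neighborSet v \ X).ncard =
      ∑ n ∈ (Nb G X).toFinset, (G.neighborSet n ∩ X).ncard := by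
  classical
  have h1 : ∀ v ∈ X.toFinset, (G.neighborSet v \ X).ncard =
      ∑ n ∈ (Nb G X).toFinset, if G.Adj v n then 1 else 0 := by
    intro v hv
    have hv' : v ∈ X := by simpa using hv
    have e : G.neighborSet v \ X = G.neighborSet v ∩ Nb G X := by
      ext w
      constructor
      · rintro ⟨h2, h3⟩
        exact ⟨h2, h3, v, hv', h2⟩
      · rintro ⟨h2, h3⟩
        exact ⟨h2, h3.1⟩
    rw [e, count_inter G v (Nb G X)]
    congr 1
    ext
    simp
  have h2 : ∀ n ∈ (Nb G X).toFinset, (G.neighborSet n ∩ X).ncard =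
      ∑ v ∈ X.toFinset, if G.Adj v n then 1 else 0 := by
    intro n _
    rw [count_inter G n X]
    have e : (Finset.univ.filter fun x => x ∈ X) = X.toFinset := by
      ext; simp
    refine Finset.sum_congr (by ext; simp) (fun v _ => ?_)
    rw [SimpleGraph.adj_comm]
  rw [Finset.sum_congr rfl h1, Finset.sum_congr rfl h2, Finset.sum_comm]

/-- Every boundary vertex has at least two neighbours in `X`. -/
theorem two_nb [Finite V] {G : SimpleGraph V} {U : Set V} (h : GCore G U) {X : Set V}
    {κX : V → ZMod 2} (hX : GMinX G U κX X) (hs : Star G X) {n : V} (hn : n ∈ Nb G X) :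
    2 ≤ (G.neighborSet n ∩ X).ncard := by
  by_contra hlt
  push Not at hlt
  obtain ⟨hnX, v, hv, hadj⟩ := hn
  have hvm : v ∈ G.neighborSet n ∩ X := ⟨hadj.symm, hv⟩
  have h1 : ∀ w ∈ X, G.Adj w n → w = v := by
    intro w hw hwn
    have h2 : (G.neighborSet n ∩ X).ncard ≤ 1 := by omega
    exact (Set.ncard_le_one (Set.toFinite _)).1 h2 w ⟨hwn.symm, hw⟩ v hvm
  have hsub : X \ {v} ⊆ X := Set.sdiff_subset
  have hNb : Nb G (X \ {v}) ⊆ insert v (Nb G X \ {n}) := by
    rintro w ⟨h2, u, ⟨hu, huv⟩, h3⟩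
    by_cases hw : w ∈ X
    · left
      by_contra h4
      exact h2 ⟨hw, h4⟩
    · right
      refine ⟨⟨hw, u, hu, h3⟩, ?_⟩
      intro h4
      rw [Set.mem_singleton_iff] at h4
      subst h4
      exact huv (h1 u hu h3)
  have hc1 : (X \ {v}).ncard + 1 = X.ncard := Set.ncard_sdiff_singleton_add_one hv (Set.toFinite _)
  have hsize := hX.size
  have hP := h.P1 (X \ {v}) (hsub.trans hX.sub) (by omega) κX (hX.bal.mono hsub)
  have hc2 : (Nb G X \ {n}).ncard + 1 = (Nb G X).ncard :=
    Set.ncard_sdiff_singleton_add_one ⟨hnX, v, hv, hadj⟩ (Set.toFinite _)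
  have hc3 := Set.ncard_le_ncard hNb (Set.toFinite _)
  have hc4 := Set.ncard_insert_le v (Nb G X \ {n})
  have hfour := hX.four
  have hne : X \ {v} ≠ X := by
    intro h2
    have : v ∈ X \ {v} := by rw [h2]; exact hv
    exact this.2 rfl
  have hnon : (X \ {v}).Nonempty := by
    rw [← Set.ncard_pos (Set.toFinite _)]
    omega
  have hLL := hX.min (X \ {v}) hsub hne hnon (by omega)
  obtain ⟨d, hd, hd3, u, hu, w, hw, huw, hdu, hdw⟩ := LL_cubic2 hLL (by omega)
  exact huw (hs d hd.1 hd3 u hu.1 w hw.1 hdu hdw)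

private lemma count_out [Finite V] {G : SimpleGraph V} {X : Set V} (hs : Star G X) {v : V}
    (hv : v ∈ X) (h3 : (G.neighborSet v).ncard = 3) : 2 ≤ (G.neighborSet v \ X).ncard := by
  have h1 := Set.ncard_inter_add_ncard_sdiff_eq_ncard (G.neighborSet v) X (Set.toFinite _)
  have h2 : (G.neighborSet v ∩ X).ncard ≤ 1 := by
    rw [Set.ncard_le_one (Set.toFinite _)]
    intro a ha b hb
    exact hs v hv h3 a ha.2 b hb.2 ha.1 hb.1
  omega

/-- The result of the count. -/
theorem layer_count [Finite V] {G : SimpleGraph V} {U : Set V} (h : GCore G U) {X : Set V}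
    {κX : V → ZMod 2} (hX : GMinX G U κX X) (hs : Star G X) :
    fden G X = 2 ∧ (Cub G X).ncard = 4 ∧
    (∀ v ∈ Cub G X, (G.neighborSet v ∩ Nb G X).ncard = 2 ∧ (G.neighborSet v ∩ X).ncard = 1) ∧
    (∀ v ∈ X \ Cub G X, (G.neighborSet v).ncard = 4 ∧ G.neighborSet v ⊆ X) ∧
    (∀ n ∈ Nb G X, (G.neighborSet n ∩ X).ncard = 2) := by
  classical
  have hf : fden G X ≤ 2 := by
    have hP2 := h.P2 X hX.sub κX hX.bal hX.four
    have hb := beta_le κX (Nb G X)
    rw [hX.four] at hb
    push_cast at hb
    linarith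
  have := Fintype.ofFinite V
  set A : Finset V := X.toFinset with hA
  have hAX : (A : Set V) = X := by simp [hA]
  have hmem : ∀ v, v ∈ A ↔ v ∈ X := fun v => by simp [hA]
  have e1 := count_two_fden G A
  rw [hAX] at e1
  have e2 := count_double G X
  rw [← hA] at e2
  have hN4 : (Nb G X).toFinset.card = 4 := by
    rw [← Set.ncard_eq_toFinset_card']
    exact hX.four
  have e3 : ∑ n ∈ (Nb G X).toFinset, 2 ≤ ∑ n ∈ (Nb G X).toFinset, (G.neighborSet n ∩ X).ncard :=
    Finset.sum_le_sum fun n hn => two_nb h hX hs (by simpa using hn)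
  rw [Finset.sum_const, hN4] at e3
  -- the two lower bounds
  let K : Finset V := A.filter fun v => (G.neighborSet v).ncard = 3
  have hKcard : (Cub G X).ncard = K.card := by
    rw [← Set.ncard_coe_finset]
    congr 1
    ext v
    simp [K, Cub, hA]
  have hg : ∀ v ∈ A, (if (G.neighborSet v).ncard = 3 then (1 : ℤ) else 0) ≤
      ((G.neighborSet v).ncard : ℤ) + ((G.neighborSet v \ X).ncard : ℤ) - 4 := by
    intro v hv
    have hv' := (hmem v).1 hv
    have hd := h.deg3 v (hX.sub hv')
    by_cases h3 : (G.neighborSet v).ncard = 3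
    · have := count_out hs hv' h3
      rw [if_pos h3]
      omega
    · rw [if_neg h3]
      omega
  have hg2 : ∀ v ∈ A, ((G.neighborSet v \ X).ncard : ℤ) -
      (if (G.neighborSet v).ncard = 3 then (1 : ℤ) else 0) ≤
      ((G.neighborSet v).ncard : ℤ) + ((G.neighborSet v \ X).ncard : ℤ) - 4 := by
    intro v hv
    have hv' := (hmem v).1 hv
    have hd := h.deg3 v (hX.sub hv')
    by_cases h3 : (G.neighborSet v).ncard = 3
    · rw [if_pos h3]
      omega
    · rw [if_neg h3]
      omega
  have s1 := Finset.sum_le_sum hg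
  have s2 := Finset.sum_le_sum hg2
  have hKsum : (∑ v ∈ A, (if (G.neighborSet v).ncard = 3 then (1 : ℤ) else 0)) = (K.card : ℤ) := by
    rw [Finset.sum_boole]
  rw [hKsum, ← e1] at s1
  rw [Finset.sum_sub_distrib, hKsum, ← e1] at s2
  have e4 : (∑ v ∈ A, ((G.neighborSet v \ X).ncard : ℤ)) =
      ((∑ v ∈ A, (G.neighborSet v \ X).ncard : ℕ) : ℤ) := by push_cast; rfl
  have e5 : (8 : ℤ) ≤ ∑ v ∈ A, ((G.neighborSet v \ X).ncard : ℤ) := by
    rw [e4, e2]
    have : (8 : ℕ) ≤ ∑ n ∈ (Nb G X).toFinset, (G.neighborSet n ∩ X).ncard := by simpa using e3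
    exact_mod_cast this
  have hf2 : fden G X = 2 := by omega
  have hK4 : (K.card : ℤ) = 4 := by omega
  have hout8 : (∑ v ∈ A, ((G.neighborSet v \ X).ncard : ℤ)) = 8 := by omega
  -- equalities
  have heq1 : ∀ v ∈ A, (if (G.neighborSet v).ncard = 3 then (1 : ℤ) else 0) =
      ((G.neighborSet v).ncard : ℤ) + ((G.neighborSet v \ X).ncard : ℤ) - 4 := by
    rw [← Finset.sum_eq_sum_iff_of_le hg, hKsum, ← e1]
    omega
  have heq2 : ∀ n ∈ (Nb G X).toFinset, 2 = (G.neighborSet n ∩ X).ncard := by
    rw [← Finset.sum_eq_sum_iff_of_le fun n hn => two_nb h hX hs (by simpa using hn),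
      Finset.sum_const, hN4, ← e2]
    have : ((∑ v ∈ A, (G.neighborSet v \ X).ncard : ℕ) : ℤ) = 8 := by rw [← e4]; exact hout8
    have : (∑ v ∈ A, (G.neighborSet v \ X).ncard : ℕ) = 8 := by exact_mod_cast this
    rw [this]
    rfl
  refine ⟨hf2, ?_, ?_, ?_, ?_⟩
  · rw [hKcard]
    exact_mod_cast hK4
  · rintro v ⟨hv, h3⟩
    have h1 := heq1 v ((hmem v).2 hv)
    rw [if_pos h3, h3] at h1
    have h2 := Set.ncard_inter_add_ncard_sdiff_eq_ncard (G.neighborSet v) X (Set.toFinite _)
    have e : G.neighborSet v \ X = G.neighborSet v ∩ Nb G X := by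
      ext w
      constructor
      · rintro ⟨h2, h3⟩
        exact ⟨h2, h3, v, hv, h2⟩
      · rintro ⟨h2, h3⟩
        exact ⟨h2, h3.1⟩
    rw [← e]
    push_cast at h1
    constructor <;> omega
  · rintro v ⟨hv, h3⟩
    have h3' : (G.neighborSet v).ncard ≠ 3 := fun h4 => h3 ⟨hv, h4⟩
    have h1 := heq1 v ((hmem v).2 hv)
    rw [if_neg h3'] at h1
    have hd := h.deg3 v (hX.sub hv)
    have h4 : (G.neighborSet v \ X).ncard = 0 := by omega
    refine ⟨by omega, ?_⟩
    rw [Set.ncard_eq_zero (Set.toFinite _)] at h4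
    exact Set.sdiff_eq_empty.1 h4
  · intro n hn
    exact (heq2 n (by simpa using hn)).symm

end Pool.Agent.Helper51.GX
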