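import Pool.Agent.Helper51.GX.Cls
import Pool.Agent.Helper51.TDC.Exits

/-!
# The global part: the exits of a fold inside a minimal non-list set
-/

set_option autoImplicit false

namespace Pool.Agent.Helper51.GX

open SimpleGraph Pool.Agent.Helper57.TOK Pool.Agent.Helper57.TD
open Pool.Agent.Helper51.TDC (adj3 ncard3 ncard4 ncard5 two_le_of_mem Omega)

variable {V : Type*}

lemma gtwo_union [Finite V] {G : SimpleGraph V} {U X : Set V} {κ : V → ZMod 2}
    (hX : GMinX G U κ X) (A : Set V) : 2 ≤ (A ∪ X).ncard := by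
  have h1 := hX.size
  have h2 := Set.ncard_le_ncard (Set.subset_union_right : X ⊆ A ∪ X) (Set.toFinite _)
  omega

lemma Ck_sub {A X : Set V} {κA κX : V → ZMod 2} {k : ZMod 2} : Ck A X κA κX k ⊆ X :=
  fun _ hv => hv.1.2

/-- A class of the intersection of a four-set with `X`, if it has at least two elements and is
not `X`, is in the list. -/
lemma class_LL [Finite V] {G : SimpleGraph V} {U : Set V} (h : GCore G U) {X : Set V}
    {κX : V → ZMod 2} (hX : GMinX G U κX X) {A : Set V} {κA : V → ZMod 2} (hA : A ⊆ U)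
    (bA : Bal G κA A) (hA4 : (Nb G A).ncard ≤ 4) {k : ZMod 2}
    (h2 : 2 ≤ (Ck A X κA κX k).ncard) {v : V} (hv : v ∈ X) (hvA : v ∉ A) :
    IsLL G (Ck A X κA κX k) ∧ Nb G (Ck A X κA κX k) = Qk G A X κA κX k := by
  have h3 := class_le h hA hX.sub bA hX.bal (gtwo_union hX A) hA4 hX.four.le k
  have h4 := h.P1 (Ck A X κA κX k) (Ck_sub.trans hX.sub) h2 κX (hX.bal.mono Ck_sub)
  have h5 := Nb_Ck bA hX.bal (X := X) k
  have h6 := Set.ncard_le_ncard h5 (Set.toFinite _)
  refine ⟨hX.min _ Ck_sub ?_ ?_ (by omega), ?_⟩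
  · intro hh
    rw [← hh] at hv
    exact hvA hv.1.1
  · rw [← Set.ncard_pos (Set.toFinite _)]; omega
  · exact Set.eq_of_subset_of_ncard_le h5 (by omega) (Set.toFinite _)

/-- membership in the class -/
lemma mem_class {G : SimpleGraph V} {A X : Set V} {κA κX : V → ZMod 2} {k : ZMod 2} {v : V}
    (h1 : v ∈ A ∪ Nb G A) (h2 : v ∈ X ∪ Nb G X) (hk : κA v + κX v = k) :
    v ∈ Ck A X κA κX k ∨ v ∈ Qk G A X κA κX k := by
  rcases mem_QQ_or h1 h2 with h | h
  · exact Or.inl ⟨h, hk⟩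
  · exact Or.inr ⟨h, hk⟩

lemma mem_class_Nb {G : SimpleGraph V} {A X : Set V} {κA κX : V → ZMod 2} {k : ZMod 2} {v : V}
    (h1 : v ∈ Nb G A) (h2 : v ∈ X ∪ Nb G X) (hk : κA v + κX v = k) :
    v ∈ Qk G A X κA κX k := by
  rcases mem_class (Or.inr h1) h2 hk with h | h
  · exact absurd h.1.1 h1.1
  · exact h

/-- Exit 1 (two further common neighbours) is impossible. -/
theorem no_type1 [Finite V] {G : SimpleGraph V} {U : Set V} (h : GCore G U) {X : Set V}
    {κX : V → ZMod 2} (hX : GMinX G U κX X) {a b y z1 z2 : V} (ha : a ∈ X)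
    (hb : b ∈ X ∪ Nb G X) (hkX : κX a = κX b) (hab : a ≠ b) (hyz1 : y ≠ z1) (hyz2 : y ≠ z2)
    (hzz : z1 ≠ z2)
    (h1 : G.Adj a y) (h3 : G.Adj a z1) (h4 : G.Adj a z2)
    (h5 : G.Adj b y) (h6 : G.Adj b z1) (h7 : G.Adj b z2) : False := by
  classical
  have hnadj : ¬ G.Adj a b := fun hh => hX.bal a b ha hh hkX
  obtain ⟨D, hDU, κD, bD, hD4, haN, hbN, kab, ky, kz1, kz2, hyD, hz1D, hz2D⟩ :=
    h.TYPE1 a b y z1 z2 hab hnadj hyz1 hyz2 hzz h1 h3 h4 h5 h6 h7
  set k : ZMod 2 := κD a + κX a with hk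
  have hQ := class_le h hDU hX.sub bD hX.bal (gtwo_union hX D) hD4 hX.four.le k
  have xy := hX.bal a y ha h1
  have xz1 := hX.bal a z1 ha h3
  have xz2 := hX.bal a z2 ha h4
  have cb : κD b + κX b = k := by rw [hk, kab, hkX]
  have cy : κD y + κX y = k := class_same ky xy.symm
  have cz1 : κD z1 + κX z1 = k := class_same kz1 xz1.symm
  have cz2 : κD z2 + κX z2 = k := class_same kz2 xz2.symm
  have qa : a ∈ Qk G D X κD κX k := mem_class_Nb haN (Or.inl ha) hk.symm
  have qb : b ∈ Qk G D X κD κX k := mem_class_Nb hbN hb cb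
  have qy := mem_class hyD (mem_union_Nb ha h1) cy
  have qz1 := mem_class hz1D (mem_union_Nb ha h3) cz1
  have qz2 := mem_class hz2D (mem_union_Nb ha h4) cz2
  by_cases hE2 : 2 ≤ (Ck D X κD κX k).ncard
  · obtain ⟨hLL, hNb⟩ := class_LL h hX hDU bD hD4 hE2 ha haN.1
    have conv : ∀ v, v ∈ Ck D X κD κX k ∨ v ∈ Qk G D X κD κX k →
        v ∈ (Ck D X κD κX k) ∪ Nb G (Ck D X κD κX k) := by
      intro v hv
      rw [hNb]
      exact hv
    exact LL_type1 h (Ck_sub.trans hX.sub) (hX.bal.mono Ck_sub) hLL hE2 (fun hh => haN.1 hh.1.1)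
      (hNb ▸ qa) (conv b (Or.inr qb)) (conv y qy) (conv z1 qz1) (conv z2 qz2) hab hyz1 hyz2 hzz
      h1 h3 h4 h5 h6 h7 hkX xy.symm xz1.symm xz2.symm
  · -- at most one element
    have hay : a ≠ y := h1.ne
    have haz1 : a ≠ z1 := h3.ne
    have haz2 : a ≠ z2 := h4.ne
    have hby : b ≠ y := h5.ne
    have hbz1 : b ≠ z1 := h6.ne
    have hbz2 : b ≠ z2 := h7.ne
    have hF5 : ({a, b, y, z1, z2} : Set V).ncard = 5 :=
      ncard5 hab hay haz1 haz2 hby hbz1 hbz2 hyz1 hyz2 hzz
    have hFsub : ({a, b, y, z1, z2} : Set V) ⊆ (Ck D X κD κX k) ∪ Qk G D X κD κX k := by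
      intro v hv
      simp only [Set.mem_insert_iff, Set.mem_singleton_iff] at hv
      rcases hv with rfl | rfl | rfl | rfl | rfl
      · exact Or.inr qa
      · exact Or.inr qb
      · exact qy
      · exact qz1
      · exact qz2
    have hle := Set.ncard_union_le (Ck D X κD κX k) (Qk G D X κD κX k)
    have hle2 := Set.ncard_le_ncard hFsub (Set.toFinite _)
    have hF : ({a, b, y, z1, z2} : Set V) = (Ck D X κD κX k) ∪ Qk G D X κD κX k :=
      Set.eq_of_subset_of_ncard_le hFsub (by omega) (Set.toFinite _)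
    have hE1 : (Ck D X κD κX k).ncard = 1 := by omega
    obtain ⟨e, he⟩ := Set.ncard_eq_one.1 hE1
    have heD : e ∈ Ck D X κD κX k := by rw [he]; rfl
    have hNe : G.neighborSet e ⊆ {a, b, y, z1, z2} := by
      rw [hF, ← Nb_singleton, ← he]
      exact (Nb_Ck bD hX.bal k).trans Set.subset_union_right
    have heF : e ∈ ({a, b, y, z1, z2} : Set V) := by rw [hF]; exact Or.inl heD
    have heX : e ∈ X := heD.1.2
    have hdeg := h.deg3 e (hX.sub heX)
    simp only [Set.mem_insert_iff, Set.mem_singleton_iff] at heF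
    have kyz1 : κX y = κX z1 := eq_of_ne_of_ne xy.symm xz1.symm
    have kyz2 : κX y = κX z2 := eq_of_ne_of_ne xy.symm xz2.symm
    have small : κX e = κX y → False := by
      intro hke
      have : G.neighborSet e ⊆ {a, b} := by
        intro v hv
        have hv' := hNe hv
        have hkv : κX e ≠ κX v := hX.bal e v heX hv
        simp only [Set.mem_insert_iff, Set.mem_singleton_iff] at hv' ⊢
        rcases hv' with rfl | rfl | rfl | rfl | rfl
        · exact Or.inl rfl
        · exact Or.inr rfl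
        · exact absurd hke hkv
        · exact absurd (hke.trans kyz1) hkv
        · exact absurd (hke.trans kyz2) hkv
      have h8 := Set.ncard_le_ncard this (Set.toFinite _)
      rw [Set.ncard_pair hab] at h8
      omega
    rcases heF with rfl | rfl | rfl | rfl | rfl
    · exact haN.1 heD.1.1
    · exact hbN.1 heD.1.1
    · exact small rfl
    · exact small kyz1.symm
    · exact small kyz2.symm

/-- Exit `γ` is impossible. -/
theorem no_gamma [Finite V] {G : SimpleGraph V} {U : Set V} (h : GCore G U) {X : Set V}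
    {κX : V → ZMod 2} (hX : GMinX G U κX X) {a b y : V} (ha : a ∈ X) (hb : b ∈ X)
    (hy : y ∈ X) (hab : a ≠ b) (hya : G.Adj y a) (hyb : G.Adj y b) {A : Set V}
    {κA : V → ZMod 2} (hA : A ⊆ U) (bA : Bal G κA A)
    (hA4 : (Nb G A).ncard = 4) (haA : a ∈ A) (hbA : b ∈ A) (hyA : y ∉ A)
    (hno : ∀ w, w ≠ y → ¬ (G.Adj w a ∧ G.Adj w b)) : False := by
  have kX : κX a = κX b := hX.bal.eq hy hya hyb
  have kA : κA a = κA b := eq_of_ne_of_ne (bA a y haA hya.symm) (bA b y hbA hyb.symm)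
  set k : ZMod 2 := κA a + κX a with hk
  have ca : a ∈ Ck A X κA κX k := ⟨⟨haA, ha⟩, hk.symm⟩
  have cb : b ∈ Ck A X κA κX k := ⟨⟨hbA, hb⟩, by rw [hk, kA, kX]⟩
  have hC2 : 2 ≤ (Ck A X κA κX k).ncard := two_le_of_mem ca cb hab
  obtain ⟨hLL, -⟩ := class_LL h hX hA bA hA4.le hC2 hy hyA
  obtain ⟨w1, w2, hw, h1, h2, h3, h4⟩ := LL_common (hX.bal.mono Ck_sub) hLL ca cb hab kX
  by_cases hw1 : w1 = y
  · exact hno w2 (fun hh => hw (hw1.trans hh.symm)) ⟨h3.symm, h4.symm⟩
  · exact hno w1 hw1 ⟨h1.symm, h2.symm⟩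

/-- Exit `α` with at least two common vertices in the class is impossible. -/
theorem no_alpha_big [Finite V] {G : SimpleGraph V} {U : Set V} (h : GCore G U) {X : Set V}
    {κX : V → ZMod 2} (hX : GMinX G U κX X) {a b c y : V} (ha : a ∈ X ∪ Nb G X)
    (hb : b ∈ X) (hy : y ∈ X) (hab : a ≠ b) (hac : a ≠ c) (hbc : b ≠ c)
    (hNy : G.neighborSet y = {a, b, c}) {A : Set V} {κA : V → ZMod 2} (hA : A ⊆ U)
    (bA : Bal G κA A) (hA4 : (Nb G A).ncard = 4) (haA : a ∈ Nb G A) (hbA : b ∈ Nb G A)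
    (kA : κA a = κA b) (hyA : y ∉ A) (hcA : c ∉ A)
    (hcA' : c ∈ Nb G A → κA c ≠ κA a) (hno : ∀ w ∈ A, ¬ (G.Adj w a ∧ G.Adj w b))
    (h2 : 2 ≤ (Ck A X κA κX (κA a + κX a)).ncard) : False := by
  have my := adj3 hNy
  have hya : G.Adj y a := (my a).2 (by tauto)
  have hyb : G.Adj y b := (my b).2 (by tauto)
  have hyc : G.Adj y c := (my c).2 (by tauto)
  have kX : κX a = κX b := hX.bal.eq hy hya hyb
  have kXc : κX a = κX c := hX.bal.eq hy hya hyc
  have hnadj : ¬ G.Adj a b := fun hh => hX.bal b a hb hh.symm kX.symm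
  set k : ZMod 2 := κA a + κX a with hk
  obtain ⟨hLL, hNb⟩ := class_LL h hX hA bA hA4.le h2 hb hbA.1
  obtain ⟨w1, w2, e, g, c1, c2, c3, c4, c5, c6, c7, c8, c9, c10, c11, c12⟩ :=
    LL_alpha (hX.bal.mono Ck_sub) hLL h2 hab kX
      (by rw [hNb]; exact mem_class_Nb haA ha hk.symm)
      (by rw [hNb]; exact mem_class_Nb hbA (Or.inl hb) (by rw [hk, kA, kX]))
      (fun w hw => hno w hw.1.1)
  have hcls : ∀ v, v ∈ (Ck A X κA κX k) ∪ Nb G (Ck A X κA κX k) → c ≠ v := by
    rintro v hv rfl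
    have hvA : c ∈ A ∪ Nb G A := by
      rcases hv with hv | ⟨-, u, hu, hadj⟩
      · exact Or.inl hv.1.1
      · exact mem_union_Nb hu.1.1 hadj
    have hvk : κA c + κX c = k := by
      rcases hv with hv | hv
      · exact hv.2
      · exact (Nb_Ck bA hX.bal k hv).2
    rcases hvA with hh | hh
    · exact hcA hh
    · have h3 := hcA' hh
      rw [hk, ← kXc] at hvk
      exact h3 (add_right_cancel hvk)
  have hce : c ≠ e := hcls e c11
  have hcg : c ≠ g := hcls g c12
  have hyw1 : y ≠ w1 := fun hh => hyA (hh ▸ c1.1.1)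
  have hyw2 : y ≠ w2 := fun hh => hyA (hh ▸ c2.1.1)
  have hW : ({w1, w2, y} : Set V) ⊆ X := by
    intro v hv
    simp only [Set.mem_insert_iff, Set.mem_singleton_iff] at hv
    rcases hv with rfl | rfl | rfl
    · exact c1.1.2
    · exact c2.1.2
    · exact hy
  obtain ⟨D, hDU, κD, bD, d1, d2, d3, d4, d5, d6⟩ := h.L1 w1 w2 y a b c e g κX (hX.bal.mono hW)
    (hX.sub c1.1.2) (hX.sub c2.1.2) (hX.sub hy) hnadj c3 hyw1 hyw2 hab hce hcg hac.symm hbc.symm
    c6 c7 c8 c9 c10 c4 c5 hNy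
  have hw1a : G.Adj w1 a := (adj3 c4 a).2 (by tauto)
  have hw2b : G.Adj w2 b := (adj3 c5 b).2 (by tauto)
  have hk1 : κX y = κX w1 :=
    eq_of_ne_of_ne (hX.bal y a hy hya) (hX.bal w1 a c1.1.2 hw1a)
  have hk2 : κX y = κX w2 :=
    eq_of_ne_of_ne (hX.bal y b hy hyb) (hX.bal w2 b c2.1.2 hw2b)
  have hd1 : κD y = κD w1 := eq_of_ne_of_ne (bD y a d1 hya) (bD w1 a d2 hw1a)
  have hd2 : κD y = κD w2 := eq_of_ne_of_ne (bD y b d1 hyb) (bD w2 b d3 hw2b)
  have m1 : y ∈ Ck D X κD κX (κD y + κX y) := ⟨⟨d1, hy⟩, rfl⟩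
  have m2 : w1 ∈ Ck D X κD κX (κD y + κX y) := ⟨⟨d2, c1.1.2⟩, by rw [hd1, hk1]⟩
  have m3 : w2 ∈ Ck D X κD κX (κD y + κX y) := ⟨⟨d3, c2.1.2⟩, by rw [hd2, hk2]⟩
  obtain ⟨hLL', -⟩ := class_LL h hX hDU bD d6 (two_le_of_mem m1 m2 hyw1) hb d5.1
  exact LL_no_three (hX.bal.mono Ck_sub) hLL' m1 m2 m3 hyw1 hyw2 c3 hk1 hk2

/-- Exit `α` with exactly one common vertex in the class is impossible. -/
theorem no_alpha_one [Finite V] {G : SimpleGraph V} {U : Set V} (h : GCore G U) {X : Set V}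
    {κX : V → ZMod 2} (hX : GMinX G U κX X) {a b : V} (ha : a ∈ X)
    (hb : b ∈ X) (hab : a ≠ b) (hk : κX a = κX b) {A : Set V} {κA : V → ZMod 2} (hA : A ⊆ U)
    (bA : Bal G κA A) (hA4 : (Nb G A).ncard = 4) (haA : a ∈ Nb G A) (hbA : b ∈ Nb G A)
    (kA : κA a = κA b)
    (hno : ∀ w ∈ A, ¬ (G.Adj w a ∧ G.Adj w b))
    (h1 : (Ck A X κA κX (κA a + κX a)).ncard = 1) : False := by
  classical
  set k : ZMod 2 := κA a + κX a with hkk
  obtain ⟨c0, hc0⟩ := Set.ncard_eq_one.1 h1
  have hcm : c0 ∈ Ck A X κA κX k := by rw [hc0]; rfl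
  have hQ := class_le h hA hX.sub bA hX.bal (gtwo_union hX A) hA4.le hX.four.le k
  have cb : κA b + κX b = k := by rw [hkk, kA, hk]
  have qa : a ∈ Qk G A X κA κX k := mem_class_Nb haA (Or.inl ha) hkk.symm
  have qb : b ∈ Qk G A X κA κX k := mem_class_Nb hbA (Or.inl hb) cb
  have hN : G.neighborSet c0 ⊆ Qk G A X κA κX k := by
    rw [← Nb_singleton, ← hc0]; exact Nb_Ck bA hX.bal k
  have hdeg := h.deg3 c0 (hA hcm.1.1)
  have main : ∀ u v, u ∈ Qk G A X κA κX k → v ∈ Qk G A X κA κX k → u ≠ v →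
      u ∉ G.neighborSet c0 → v ∉ G.neighborSet c0 → False := by
    intro u v hu hv huv hu' hv'
    have hsub : G.neighborSet c0 ∪ {u, v} ⊆ Qk G A X κA κX k := by
      rintro x (hx | hx)
      · exact hN hx
      · simp only [Set.mem_insert_iff, Set.mem_singleton_iff] at hx
        rcases hx with rfl | rfl
        · exact hu
        · exact hv
    have hle := Set.ncard_le_ncard hsub (Set.toFinite _)
    have hdisj : Disjoint (G.neighborSet c0) {u, v} := by
      rw [Set.disjoint_left]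
      intro x hx hx'
      simp only [Set.mem_insert_iff, Set.mem_singleton_iff] at hx'
      rcases hx' with rfl | rfl
      · exact hu' hx
      · exact hv' hx
    rw [Set.ncard_union_eq hdisj (Set.toFinite _) (Set.toFinite _), Set.ncard_pair huv] at hle
    omega
  have side : ∀ u v, v ∈ X → κX u = κX v → κA v + κX v = k → v ∈ Nb G A →
      (∀ w ∈ A, ¬ (G.Adj w u ∧ G.Adj w v)) → G.Adj c0 u → v ∈ Qk G A X κA κX k → False := by
    intro u v hv huv cv hvA hno' hc hvQ
    obtain ⟨-, w, hwA, hwv⟩ := hvA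
    have hwc : w ≠ c0 := by
      rintro rfl
      exact hno' w hwA ⟨hc, hwv⟩
    have cw : κA w + κX w = k := by
      rw [← cv]; exact class_same (bA w v hwA hwv) (hX.bal v w hv hwv.symm).symm
    have hwQ : w ∈ Qk G A X κA κX k := by
      rcases mem_class (Or.inl hwA) (mem_union_Nb hv hwv.symm) cw with hh | hh
      · rw [hc0, Set.mem_singleton_iff] at hh
        exact absurd hh hwc
      · exact hh
    have hcv : ¬ G.Adj c0 v := fun hh => hno' c0 hcm.1.1 ⟨hc, hh⟩
    have hcw : ¬ G.Adj c0 w := by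
      intro hh
      have e1 := hX.bal.eq hcm.1.2 hc hh
      exact hX.bal v w hv hwv.symm (huv.symm.trans e1)
    exact main v w hvQ hwQ hwv.ne.symm hcv hcw
  by_cases hca : G.Adj c0 a
  · exact side a b hb hk cb hbA hno hca qb
  · by_cases hcb : G.Adj c0 b
    · exact side b a ha hk.symm hkk.symm haA (fun w hw hh => hno w hw ⟨hh.2, hh.1⟩) hcb qa
    · exact main a b qa qb hab hca hcb

/-- Exit `α` with no common vertex in the class. -/
theorem alpha_zero [Finite V] {G : SimpleGraph V} {U : Set V} (h : GCore G U) {X : Set V}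
    {κX : V → ZMod 2} (hX : GMinX G U κX X) {a b c y : V} (ha : a ∈ X)
    (hb : b ∈ X) (hy : y ∈ X) (hab : a ≠ b) (hac : a ≠ c) (hbc : b ≠ c)
    (hNy : G.neighborSet y = {a, b, c}) {A : Set V} {κA : V → ZMod 2} (hA : A ⊆ U)
    (bA : Bal G κA A)
    (hA4 : (Nb G A).ncard = 4) (haA : a ∈ Nb G A) (hbA : b ∈ Nb G A) (kA : κA a = κA b)
    (hno : ∀ w ∈ A, ¬ (G.Adj w a ∧ G.Adj w b))
    (h0 : Ck A X κA κX (κA a + κX a) = ∅) : ∃ p q r s, Omega G X y a b c p q r s := by
  classical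
  have my := adj3 hNy
  have kX : κX a = κX b := hX.bal.eq hy ((my a).2 (by tauto)) ((my b).2 (by tauto))
  set k : ZMod 2 := κA a + κX a with hkk
  have hnC : ∀ v, v ∈ A → κA v + κX v = k → v ∉ X := by
    intro v hv hk hv'
    have : v ∈ Ck A X κA κX k := ⟨⟨hv, hv'⟩, hk⟩
    rw [h0] at this
    exact this
  have hQ := class_le h hA hX.sub bA hX.bal (gtwo_union hX A) hA4.le hX.four.le k
  have cb : κA b + κX b = k := by rw [hkk, kA, kX]
  have qa : a ∈ Qk G A X κA κX k := mem_class_Nb haA (Or.inl ha) hkk.symm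
  have qb : b ∈ Qk G A X κA κX k := mem_class_Nb hbA (Or.inl hb) cb
  obtain ⟨haA', p, hpA, hpa⟩ := id haA
  obtain ⟨hbA', q, hqA, hqb⟩ := id hbA
  have cp : κA p + κX p = k := by
    rw [hkk]; exact class_same (bA p a hpA hpa) (hX.bal a p ha hpa.symm).symm
  have cq : κA q + κX q = k := by
    rw [← cb]; exact class_same (bA q b hqA hqb) (hX.bal b q hb hqb.symm).symm
  have hpX := hnC p hpA cp
  have hqX := hnC q hqA cq
  have hpN : p ∈ Nb G X := by
    rcases mem_union_Nb ha hpa.symm with hh | hh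
    · exact absurd hh hpX
    · exact hh
  have hqN : q ∈ Nb G X := by
    rcases mem_union_Nb hb hqb.symm with hh | hh
    · exact absurd hh hqX
    · exact hh
  have hpq : p ≠ q := by
    rintro rfl
    exact hno p hpA ⟨hpa, hqb⟩
  have qp : p ∈ Qk G A X κA κX k := ⟨Or.inl (Or.inr ⟨hpN, hpA⟩), cp⟩
  have qq : q ∈ Qk G A X κA κX k := ⟨Or.inl (Or.inr ⟨hqN, hqA⟩), cq⟩
  have hap : a ≠ p := fun hh => haA' (hh ▸ hpA)
  have haq : a ≠ q := fun hh => haA' (hh ▸ hqA)
  have hbp : b ≠ p := fun hh => hbA' (hh ▸ hpA)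
  have hbq : b ≠ q := fun hh => hbA' (hh ▸ hqA)
  have hF4 : ({a, b, p, q} : Set V).ncard = 4 := ncard4 hab hap haq hbp hbq hpq
  have hFQ : ({a, b, p, q} : Set V) = Qk G A X κA κX k := by
    refine Set.eq_of_subset_of_ncard_le ?_ (by omega) (Set.toFinite _)
    intro v hv
    simp only [Set.mem_insert_iff, Set.mem_singleton_iff] at hv
    rcases hv with rfl | rfl | rfl | rfl
    · exact qa
    · exact qb
    · exact qp
    · exact qq
  have memQ : ∀ v, v ∈ Qk G A X κA κX k → v = a ∨ v = b ∨ v = p ∨ v = q := by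
    intro v hv
    rw [← hFQ] at hv
    simpa only [Set.mem_insert_iff, Set.mem_singleton_iff] using hv
  -- neighbours of `p`, `q` in `X` are `a` or `b`
  have nbA : ∀ u ∈ A, κA u + κX u = k → ∀ x ∈ X, G.Adj u x → x = a ∨ x = b := by
    intro u hu cu x hx hadj
    have cx : κA x + κX x = k := by
      rw [← cu]; exact class_same (bA u x hu hadj).symm (hX.bal x u hx hadj.symm)
    rcases mem_class (mem_union_Nb hu hadj) (Or.inl hx) cx with hh | hh
    · rw [h0] at hh
      exact absurd hh (Set.notMem_empty _)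
    · rcases memQ x hh with hh2 | hh2 | hh2 | hh2
      · exact Or.inl hh2
      · exact Or.inr hh2
      · exact absurd (hh2 ▸ hx) hpX
      · exact absurd (hh2 ▸ hx) hqX
  have padj : ∀ x ∈ X, G.Adj p x ↔ x = a := by
    intro x hx
    constructor
    · intro hadj
      rcases nbA p hpA cp x hx hadj with hh | hh
      · exact hh
      · exact absurd ⟨hpa, hh ▸ hadj⟩ (hno p hpA)
    · rintro rfl; exact hpa
  have qadj : ∀ x ∈ X, G.Adj q x ↔ x = b := by
    intro x hx
    constructor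
    · intro hadj
      rcases nbA q hqA cq x hx hadj with hh | hh
      · exact absurd ⟨hh ▸ hadj, hqb⟩ (hno q hqA)
      · exact hh
    · rintro rfl; exact hqb
  -- the other two boundary vertices
  have hrs : ∃ r s, r ≠ s ∧ Nb G X \ {p, q} = {r, s} := by
    have h1 : ({p, q} : Set V) ⊆ Nb G X := by
      intro v hv
      simp only [Set.mem_insert_iff, Set.mem_singleton_iff] at hv
      rcases hv with rfl | rfl
      · exact hpN
      · exact hqN
    have h2 := Set.ncard_sdiff_add_ncard_of_subset h1 (Set.toFinite _)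
    rw [hX.four, Set.ncard_pair hpq] at h2
    have h3 : (Nb G X \ {p, q}).ncard = 2 := by omega
    exact Set.ncard_eq_two.1 h3
  obtain ⟨r, s, hrs, hrs'⟩ := hrs
  have hr : r ∈ Nb G X \ {p, q} := by rw [hrs']; simp
  have hs : s ∈ Nb G X \ {p, q} := by rw [hrs']; simp
  have hrp : p ≠ r := fun hh => hr.2 (by rw [← hh]; simp)
  have hrq : q ≠ r := fun hh => hr.2 (by rw [← hh]; simp)
  have hsp : p ≠ s := fun hh => hs.2 (by rw [← hh]; simp)
  have hsq : q ≠ s := fun hh => hs.2 (by rw [← hh]; simp)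
  have NX : Nb G X = {p, q, r, s} := by
    ext v
    simp only [Set.mem_insert_iff, Set.mem_singleton_iff]
    constructor
    · intro hv
      by_cases hvp : v = p
      · exact Or.inl hvp
      by_cases hvq : v = q
      · exact Or.inr (Or.inl hvq)
      have : v ∈ Nb G X \ {p, q} := ⟨hv, by simp [hvp, hvq]⟩
      rw [hrs'] at this
      simp only [Set.mem_insert_iff, Set.mem_singleton_iff] at this
      exact Or.inr (Or.inr this)
    · rintro (rfl | rfl | rfl | rfl)
      · exact hpN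
      · exact hqN
      · exact hr.1
      · exact hs.1
  have hX1 : 2 ≤ (X \ {a, b}).ncard := by
    have h1 : ({a, b} : Set V) ⊆ X := by
      intro v hv
      simp only [Set.mem_insert_iff, Set.mem_singleton_iff] at hv
      rcases hv with rfl | rfl
      · exact ha
      · exact hb
    have h2 := Set.ncard_sdiff_add_ncard_of_subset h1 (Set.toFinite _)
    rw [Set.ncard_pair hab] at h2
    have := hX.size
    omega
  have har : a ≠ r := fun hh => hr.1.1 (hh ▸ ha)
  have has : a ≠ s := fun hh => hs.1.1 (hh ▸ ha)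
  have hbr : b ≠ r := fun hh => hr.1.1 (hh ▸ hb)
  have hbs : b ≠ s := fun hh => hs.1.1 (hh ▸ hb)
  have NX1 : Nb G (X \ {a, b}) = {a, b, r, s} := by
    have hsub : Nb G (X \ {a, b}) ⊆ {a, b, r, s} := by
      rintro v ⟨hv, u, hu, hadj⟩
      simp only [Set.mem_insert_iff, Set.mem_singleton_iff]
      by_cases hvX : v ∈ X
      · by_contra hcon
        push Not at hcon
        apply hv
        refine ⟨hvX, ?_⟩
        simp only [Set.mem_insert_iff, Set.mem_singleton_iff]
        tauto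
      · have hvN : v ∈ Nb G X := ⟨hvX, u, hu.1, hadj⟩
        rw [NX] at hvN
        simp only [Set.mem_insert_iff, Set.mem_singleton_iff] at hvN
        rcases hvN with rfl | rfl | rfl | rfl
        · exfalso
          have := (padj u hu.1).1 hadj.symm
          exact hu.2 (by rw [this]; simp)
        · exfalso
          have := (qadj u hu.1).1 hadj.symm
          exact hu.2 (by rw [this]; simp)
        · tauto
        · tauto
    refine Set.eq_of_subset_of_ncard_le hsub ?_ (Set.toFinite _)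
    rw [ncard4 hab har has hbr hbs hrs]
    exact h.P1 _ (Set.sdiff_subset.trans hX.sub) hX1 κX (hX.bal.mono Set.sdiff_subset)
  exact ⟨p, q, r, s, hy, ha, hb, hab, hac, hbc, hNy, NX, hpq, hrp, hsp, hrq, hsq, hrs, padj, qadj,
    NX1⟩

end Pool.Agent.Helper51.GX
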