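import Pool.Agent.Helper51.GX.Defs

/-!
# The global part: facts on the members of the list `IsLL`, with local colourings
-/

set_option autoImplicit false

namespace Pool.Agent.Helper51.GX

open SimpleGraph Pool.Agent.Helper57.TOK Pool.Agent.Helper57.TD Pool.Agent.Helper51.TDC

variable {V : Type*}

/-- Two different vertices of one colour in a list set have two common neighbours. -/
theorem LL_common {Z : SimpleGraph V} {κ : V → ZMod 2} {E : Set V} (hp : Bal Z κ E)
    (hE : IsLL Z E) {a b : V} (ha : a ∈ E) (hb : b ∈ E) (hab : a ≠ b) (hk : κ a = κ b) :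
    ∃ w1 w2, w1 ≠ w2 ∧ Z.Adj a w1 ∧ Z.Adj b w1 ∧ Z.Adj a w2 ∧ Z.Adj b w2 := by
  rcases hE with ⟨x, rfl⟩ | ⟨w1, w2, a', b', e, g, h⟩ | ⟨x1, x2, p, q, r, s, h⟩ |
    ⟨w, y1, y2, n1, n2, n3, n4, h⟩ | ⟨x1, x2, y1, y2, p, q, r, s, h⟩
  · rw [Set.mem_singleton_iff] at ha hb
    exact absurd (ha.trans hb.symm) hab
  · have h1 := adj3 h.n1
    have h2 := adj3 h.n2
    have heg := h.eg
    rw [h.eq, Set.mem_insert_iff, Set.mem_singleton_iff] at ha hb
    refine ⟨e, g, heg, ?_, ?_, ?_, ?_⟩ <;> rcases ha with rfl | rfl <;> rcases hb with rfl | rfl <;>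
      first | exact absurd rfl hab | (rw [h1]; tauto) | (rw [h2]; tauto)
  · have h1 := adj3 h.n1
    rw [h.eq, Set.mem_insert_iff, Set.mem_singleton_iff] at ha hb
    have h3 : κ x1 ≠ κ x2 := hp _ _ (by rw [h.eq]; simp) ((h1 x2).2 (Or.inl rfl))
    rcases ha with rfl | rfl <;> rcases hb with rfl | rfl
    · exact absurd rfl hab
    · exact absurd hk h3
    · exact absurd hk.symm h3
    · exact absurd rfl hab
  · have h0 := adj3 h.nw
    have h1 := adj3 h.ny1
    have h2 := adj3 h.ny2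
    rw [h.eq, Set.mem_insert_iff, Set.mem_insert_iff, Set.mem_singleton_iff] at ha hb
    have h3 : κ w ≠ κ y1 := hp _ _ (by rw [h.eq]; simp) ((h0 y1).2 (by tauto))
    have h4 : κ w ≠ κ y2 := hp _ _ (by rw [h.eq]; simp) ((h0 y2).2 (by tauto))
    have ha' : a = y1 ∨ a = y2 := by
      rcases ha with rfl | ha
      · rcases hb with rfl | rfl | rfl
        · exact absurd rfl hab
        · exact absurd hk h3
        · exact absurd hk h4
      · exact ha
    have hb' : b = y1 ∨ b = y2 := by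
      rcases hb with rfl | hb
      · rcases ha with rfl | rfl | rfl
        · exact absurd rfl hab
        · exact absurd hk.symm h3
        · exact absurd hk.symm h4
      · exact hb
    refine ⟨w, n3, h.wn3, ?_, ?_, ?_, ?_⟩ <;> rcases ha' with rfl | rfl <;> rcases hb' with rfl | rfl <;>
      first | exact absurd rfl hab | (rw [h1]; tauto) | (rw [h2]; tauto)
  · have h1 := adj3 h.nx1
    have h2 := adj3 h.nx2
    have h3 := adj3 h.ny1
    have h4 := adj3 h.ny2
    rw [h.eq] at ha hb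
    simp only [Set.mem_insert_iff, Set.mem_singleton_iff] at ha hb
    have e1 : κ x1 ≠ κ y1 := hp _ _ (by rw [h.eq]; simp) ((h1 y1).2 (by tauto))
    have e2 : κ x1 ≠ κ y2 := hp _ _ (by rw [h.eq]; simp) ((h1 y2).2 (by tauto))
    have e3 : κ x2 ≠ κ y1 := hp _ _ (by rw [h.eq]; simp) ((h2 y1).2 (by tauto))
    have e4 : κ x2 ≠ κ y2 := hp _ _ (by rw [h.eq]; simp) ((h2 y2).2 (by tauto))
    have hcase : (a = x1 ∧ b = x2) ∨ (a = x2 ∧ b = x1) ∨ (a = y1 ∧ b = y2) ∨ (a = y2 ∧ b = y1) := by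
      rcases ha with rfl | rfl | rfl | rfl <;> rcases hb with rfl | rfl | rfl | rfl <;>
        first | exact absurd rfl hab | (exact absurd hk (by assumption)) |
          (exact absurd hk.symm (by assumption)) | simp
    rcases hcase with ⟨rfl, rfl⟩ | ⟨rfl, rfl⟩ | ⟨rfl, rfl⟩ | ⟨rfl, rfl⟩
    · exact ⟨y1, y2, h.yy, (h1 _).2 (by tauto), (h2 _).2 (by tauto), (h1 _).2 (by tauto),
        (h2 _).2 (by tauto)⟩
    · exact ⟨y1, y2, h.yy, (h2 _).2 (by tauto), (h1 _).2 (by tauto), (h2 _).2 (by tauto),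
        (h1 _).2 (by tauto)⟩
    · exact ⟨x1, x2, h.xx, (h3 _).2 (by tauto), (h4 _).2 (by tauto), (h3 _).2 (by tauto),
        (h4 _).2 (by tauto)⟩
    · exact ⟨x1, x2, h.xx, (h4 _).2 (by tauto), (h3 _).2 (by tauto), (h4 _).2 (by tauto),
        (h3 _).2 (by tauto)⟩

/-- A list set has at most two vertices of one colour. -/
theorem LL_no_three {Z : SimpleGraph V} {κ : V → ZMod 2} {E : Set V} (hp : Bal Z κ E)
    (hE : IsLL Z E) {u v w : V} (hu : u ∈ E) (hv : v ∈ E) (hw : w ∈ E) (huv : u ≠ v)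
    (huw : u ≠ w) (hvw : v ≠ w) (h1 : κ u = κ v) (h2 : κ u = κ w) : False := by
  have hk3 : κ v = κ w := h1.symm.trans h2
  rcases hE with ⟨x, rfl⟩ | ⟨w1, w2, a', b', e, g, h⟩ | ⟨x1, x2, p, q, r, s, h⟩ |
    ⟨w', y1, y2, n1, n2, n3, n4, h⟩ | ⟨x1, x2, y1, y2, p, q, r, s, h⟩
  · rw [Set.mem_singleton_iff] at hu hv
    exact absurd (hu.trans hv.symm) huv
  · rw [h.eq, Set.mem_insert_iff, Set.mem_singleton_iff] at hu hv hw
    rcases hu with rfl | rfl <;> rcases hv with rfl | rfl <;> rcases hw with rfl | rfl <;>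
      first | exact huv rfl | exact huw rfl | exact hvw rfl
  · rw [h.eq, Set.mem_insert_iff, Set.mem_singleton_iff] at hu hv hw
    rcases hu with rfl | rfl <;> rcases hv with rfl | rfl <;> rcases hw with rfl | rfl <;>
      first | exact huv rfl | exact huw rfl | exact hvw rfl
  · have h0 := adj3 h.nw
    have e1 : κ w' ≠ κ y1 := hp _ _ (by rw [h.eq]; simp) ((h0 y1).2 (by tauto))
    have e2 : κ w' ≠ κ y2 := hp _ _ (by rw [h.eq]; simp) ((h0 y2).2 (by tauto))
    have e1' := e1.symm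
    have e2' := e2.symm
    rw [h.eq] at hu hv hw
    simp only [Set.mem_insert_iff, Set.mem_singleton_iff] at hu hv hw
    rcases hu with rfl | rfl | rfl <;> rcases hv with rfl | rfl | rfl <;>
      rcases hw with rfl | rfl | rfl <;>
      first | exact huv rfl | exact huw rfl | exact hvw rfl | contradiction
  · have h1' := adj3 h.nx1
    have h2' := adj3 h.nx2
    have e1 : κ x1 ≠ κ y1 := hp _ _ (by rw [h.eq]; simp) ((h1' y1).2 (by tauto))
    have e2 : κ x1 ≠ κ y2 := hp _ _ (by rw [h.eq]; simp) ((h1' y2).2 (by tauto))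
    have e3 : κ x2 ≠ κ y1 := hp _ _ (by rw [h.eq]; simp) ((h2' y1).2 (by tauto))
    have e4 : κ x2 ≠ κ y2 := hp _ _ (by rw [h.eq]; simp) ((h2' y2).2 (by tauto))
    have e1' := e1.symm
    have e2' := e2.symm
    have e3' := e3.symm
    have e4' := e4.symm
    rw [h.eq] at hu hv hw
    simp only [Set.mem_insert_iff, Set.mem_singleton_iff] at hu hv hw
    rcases hu with rfl | rfl | rfl | rfl <;> rcases hv with rfl | rfl | rfl | rfl <;>
      rcases hw with rfl | rfl | rfl | rfl <;>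
      first | exact huv rfl | exact huw rfl | exact hvw rfl | contradiction

/-- Three common neighbours of `a` and a cubic vertex `d` contradict `T3`. -/
lemma type1_aux [Finite V] {G : SimpleGraph V} {U : Set V} (h : GCore G U) {a d : V}
    (hd : d ∈ U) (had : a ≠ d) (hc : (G.neighborSet d).ncard = 3)
    {y z1 z2 : V} (hyz1 : y ≠ z1) (hyz2 : y ≠ z2) (hzz : z1 ≠ z2)
    (h1 : G.Adj a y) (h3 : G.Adj a z1) (h4 : G.Adj a z2)
    (h5 : G.Adj d y) (h6 : G.Adj d z1) (h7 : G.Adj d z2) : False := by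
  apply h.T3 a d hd had hc
  have hsub : ({y, z1, z2} : Set V) ⊆ G.neighborSet d := by
    intro v hv
    simp only [Set.mem_insert_iff, Set.mem_singleton_iff] at hv
    rcases hv with rfl | rfl | rfl <;> assumption
  have : ({y, z1, z2} : Set V) = G.neighborSet d :=
    Set.eq_of_subset_of_ncard_le hsub (by rw [hc, ncard3 hyz1 hyz2 hzz]) (Set.toFinite _)
  rw [← this]
  intro v hv
  simp only [Set.mem_insert_iff, Set.mem_singleton_iff] at hv
  rcases hv with rfl | rfl | rfl <;> assumption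

/-- The situation of a `TYPE1` exit is impossible in a list set. -/
theorem LL_type1 [Finite V] {G : SimpleGraph V} {κ : V → ZMod 2} {U : Set V}
    (h : GCore G U) {E : Set V} (hES : E ⊆ U) (hB : Bal G κ E) (hE : IsLL G E)
    (h2 : 2 ≤ E.ncard)
    {a b y z1 z2 : V} (haE : a ∉ E) (ha : a ∈ Nb G E) (hb : b ∈ E ∪ Nb G E)
    (hy : y ∈ E ∪ Nb G E) (hz1 : z1 ∈ E ∪ Nb G E) (hz2 : z2 ∈ E ∪ Nb G E) (hab : a ≠ b)
    (hyz1 : y ≠ z1) (hyz2 : y ≠ z2) (hzz : z1 ≠ z2)
    (h1 : G.Adj a y) (h3 : G.Adj a z1) (h4 : G.Adj a z2)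
    (h5 : G.Adj b y) (h6 : G.Adj b z1) (h7 : G.Adj b z2)
    (hkab : κ a = κ b) (hky : κ y ≠ κ a) (hkz1 : κ z1 ≠ κ a) (hkz2 : κ z2 ≠ κ a) : False := by
  have hcub := LL_all_cubic hE h2
  by_cases hbE : b ∈ E
  · exact type1_aux h (hES hbE) hab (hcub b hbE) hyz1 hyz2 hzz h1 h3 h4 h5 h6 h7
  have hb' : b ∈ Nb G E := by
    rcases hb with hb | hb
    · exact absurd hb hbE
    · exact hb
  -- it is enough to find `d ∈ E` adjacent to all
  have key : ∀ d ∈ E, (∀ z, κ z ≠ κ a → z ∈ E ∪ Nb G E → G.Adj d z) → False := by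
    intro d hd hall
    exact type1_aux h (hES hd) (fun hh : a = d => haE (by rw [hh]; exact hd)) (hcub d hd)
      hyz1 hyz2 hzz h1 h3 h4 (hall y hky hy) (hall z1 hkz1 hz1) (hall z2 hkz2 hz2)
  rcases hE with ⟨x, rfl⟩ | ⟨w1, w2, a', b', e, g, hL⟩ | ⟨x1, x2, p, q, r, s, hL⟩ |
    ⟨w', y1, y2, n1, n2, n3, n4, hL⟩ | ⟨x1, x2, y1, y2, p, q, r, s, hL⟩
  · rw [Set.ncard_singleton] at h2; omega
  · -- L1
    have m1 := adj3 hL.n1
    have m2 := adj3 hL.n2
    have w1E : w1 ∈ E := by rw [hL.eq]; simp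
    have w2E : w2 ∈ E := by rw [hL.eq]; simp
    have hw : κ w1 = κ w2 :=
      eq_of_ne_of_ne (hB w1 e w1E ((m1 e).2 (by tauto))) (hB w2 e w2E ((m2 e).2 (by tauto)))
    have ha1 : κ a ≠ κ w1 := by
      obtain ⟨-, u, hu, hadj⟩ := ha
      have hne := (hB u a hu hadj).symm
      rw [hL.eq, Set.mem_insert_iff, Set.mem_singleton_iff] at hu
      rcases hu with rfl | rfl
      · exact hne
      · rw [hw]; exact hne
    have hz : ∀ z, κ z ≠ κ a → z ∈ E ∪ Nb G E → z = w1 ∨ z = w2 := by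
      intro z hz hzE
      rcases hzE with hzE | ⟨-, u, hu, hadj⟩
      · rw [hL.eq, Set.mem_insert_iff, Set.mem_singleton_iff] at hzE
        exact hzE
      · exfalso
        have hne := (hB u z hu hadj).symm
        have e2 : κ z ≠ κ w1 := by
          rw [hL.eq, Set.mem_insert_iff, Set.mem_singleton_iff] at hu
          rcases hu with rfl | rfl
          · exact hne
          · rw [hw]; exact hne
        exact ha1 (eq_of_ne_of_ne hz.symm e2.symm)
    rcases hz y hky hy with rfl | rfl <;> rcases hz z1 hkz1 hz1 with rfl | rfl <;>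
      rcases hz z2 hkz2 hz2 with rfl | rfl <;>
      first | exact hyz1 rfl | exact hyz2 rfl | exact hzz rfl
  · -- H
    have m1 := adj3 hL.n1
    have m2 := adj3 hL.n2
    have h12 : G.Adj x1 x2 := (m1 x2).2 (by tauto)
    have x1E : x1 ∈ E := by rw [hL.eq]; simp
    have x2E : x2 ∈ E := by rw [hL.eq]; simp
    have hx := hB x1 x2 x1E h12
    obtain ⟨-, u, hu, hadj⟩ := ha
    have hne := hB u a hu hadj
    have hu' : u = x1 ∨ u = x2 := by
      rw [hL.eq, Set.mem_insert_iff, Set.mem_singleton_iff] at hu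
      exact hu
    rcases hu' with rfl | rfl
    · -- a ~ x1, use x2
      apply key x2 x2E
      intro z e1 hzE
      have e3 : κ z = κ u := eq_of_ne_of_ne e1 hne
      rcases hzE with hzE | ⟨-, v, hv, hadj'⟩
      · rw [hL.eq, Set.mem_insert_iff, Set.mem_singleton_iff] at hzE
        rcases hzE with rfl | rfl
        · exact h12.symm
        · exact absurd e3.symm hx
      · have hne' := hB v z hv hadj'
        rw [hL.eq, Set.mem_insert_iff, Set.mem_singleton_iff] at hv
        rcases hv with rfl | rfl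
        · exact absurd e3.symm hne'
        · exact hadj'
    · apply key x1 x1E
      intro z e1 hzE
      have e3 : κ z = κ u := eq_of_ne_of_ne e1 hne
      rcases hzE with hzE | ⟨-, v, hv, hadj'⟩
      · rw [hL.eq, Set.mem_insert_iff, Set.mem_singleton_iff] at hzE
        rcases hzE with rfl | rfl
        · exact absurd e3 hx
        · exact h12
      · have hne' := hB v z hv hadj'
        rw [hL.eq, Set.mem_insert_iff, Set.mem_singleton_iff] at hv
        rcases hv with rfl | rfl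
        · exact hadj'
        · exact absurd e3.symm hne'
  · -- X3
    have m0 := adj3 hL.nw
    have m1 := adj3 hL.ny1
    have m2 := adj3 hL.ny2
    have wE : w' ∈ E := by rw [hL.eq]; simp
    have k1 : κ w' ≠ κ y1 := hB w' y1 wE ((m0 y1).2 (by tauto))
    have k2 : κ w' ≠ κ y2 := hB w' y2 wE ((m0 y2).2 (by tauto))
    by_cases haw : G.Adj w' a
    · -- a = n4; b ∈ {y1, y2, n4}
      have e1 := hB w' a wE haw
      have e1b : κ w' ≠ κ b := hkab ▸ e1
      obtain ⟨-, v, hv, hadj⟩ := hb'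
      have hne := hB v b hv hadj
      have hbw : G.Adj w' b := by
        rw [hL.eq, Set.mem_insert_iff, Set.mem_insert_iff, Set.mem_singleton_iff] at hv
        rcases hv with rfl | rfl | rfl
        · exact hadj
        · exact absurd (eq_of_ne_of_ne k1.symm e1b.symm) hne
        · exact absurd (eq_of_ne_of_ne k2.symm e1b.symm) hne
      rw [m0] at haw hbw
      have ha4 : a = n4 := by
        rcases haw with rfl | rfl | rfl
        · exact absurd (by rw [hL.eq]; simp) haE
        · exact absurd (by rw [hL.eq]; simp) haE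
        · rfl
      have hb4 : b = n4 := by
        rcases hbw with rfl | rfl | rfl
        · exact absurd (by rw [hL.eq]; simp) hbE
        · exact absurd (by rw [hL.eq]; simp) hbE
        · rfl
      exact hab (ha4.trans hb4.symm)
    · apply key w' wE
      obtain ⟨-, v, hv, hadj⟩ := ha
      have hne := (hB v a hv hadj).symm
      have hkaw : κ a = κ w' := by
        rw [hL.eq, Set.mem_insert_iff, Set.mem_insert_iff, Set.mem_singleton_iff] at hv
        rcases hv with rfl | rfl | rfl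
        · exact absurd hadj haw
        · exact eq_of_ne_of_ne hne k1
        · exact eq_of_ne_of_ne hne k2
      intro z hz hzE
      have e1 : κ z ≠ κ w' := hkaw ▸ hz
      rcases hzE with hzE | ⟨-, v, hv, hadj'⟩
      · rw [hL.eq, Set.mem_insert_iff, Set.mem_insert_iff, Set.mem_singleton_iff] at hzE
        rcases hzE with rfl | rfl | rfl
        · exact absurd rfl e1
        · exact (m0 _).2 (by tauto)
        · exact (m0 _).2 (by tauto)
      · have hne' := hB v z hv hadj'
        rw [hL.eq, Set.mem_insert_iff, Set.mem_insert_iff, Set.mem_singleton_iff] at hv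
        rcases hv with rfl | rfl | rfl
        · exact hadj'
        · exact absurd (eq_of_ne_of_ne k1.symm e1) hne'
        · exact absurd (eq_of_ne_of_ne k2.symm e1) hne'
  · -- Sq
    have m1 := adj3 hL.nx1
    have m2 := adj3 hL.nx2
    have m3 := adj3 hL.ny1
    have m4 := adj3 hL.ny2
    have memE : ∀ v, v ∈ E ↔ v = x1 ∨ v = x2 ∨ v = y1 ∨ v = y2 := by
      intro v; rw [hL.eq]; simp
    have x1E : x1 ∈ E := (memE _).2 (by tauto)
    have x2E : x2 ∈ E := (memE _).2 (by tauto)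
    have y1E : y1 ∈ E := (memE _).2 (by tauto)
    have y2E : y2 ∈ E := (memE _).2 (by tauto)
    have k11 : κ x1 ≠ κ y1 := hB _ _ x1E ((m1 y1).2 (by tauto))
    have k12 : κ x1 ≠ κ y2 := hB _ _ x1E ((m1 y2).2 (by tauto))
    have k21 : κ x2 ≠ κ y1 := hB _ _ x2E ((m2 y1).2 (by tauto))
    have kx : κ x1 = κ x2 := eq_of_ne_of_ne k11 k21
    have ky : κ y1 = κ y2 := eq_of_ne_of_ne k11.symm k12.symm
    have hzout : ∀ z, κ z ≠ κ a → z ∈ E ∪ Nb G E → z ∈ E ∨ G.Adj x1 z ∨ G.Adj x2 z ∨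
        G.Adj y1 z ∨ G.Adj y2 z := by
      intro z hz hzE
      rcases hzE with hzE | ⟨-, v, hv, hadj'⟩
      · exact Or.inl hzE
      · rcases (memE v).1 hv with rfl | rfl | rfl | rfl <;> tauto
    -- a vertex outside `E` has at most one neighbour in `{x1, x2}` and at most one in `{y1, y2}`
    -- colour of `a`
    have hkx : κ a = κ x1 ∨ κ a = κ y1 := by
      by_cases hh : κ a = κ x1
      · exact Or.inl hh
      · exact Or.inr (eq_of_ne_of_ne hh k11.symm)
    -- if `z = x1`, then `a, b` are both adjacent to `x1`: `a = b = p`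
    have ox : ∀ v, v ∉ E → G.Adj x1 v → v = p := by
      intro v hv hadj
      rcases (m1 v).1 hadj with rfl | rfl | rfl
      · exact absurd y1E hv
      · exact absurd y2E hv
      · rfl
    have ox2 : ∀ v, v ∉ E → G.Adj x2 v → v = q := by
      intro v hv hadj
      rcases (m2 v).1 hadj with rfl | rfl | rfl
      · exact absurd y1E hv
      · exact absurd y2E hv
      · rfl
    have oy : ∀ v, v ∉ E → G.Adj y1 v → v = r := by
      intro v hv hadj
      rcases (m3 v).1 hadj with rfl | rfl | rfl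
      · exact absurd x1E hv
      · exact absurd x2E hv
      · rfl
    have oy2 : ∀ v, v ∉ E → G.Adj y2 v → v = s := by
      intro v hv hadj
      rcases (m4 v).1 hadj with rfl | rfl | rfl
      · exact absurd x1E hv
      · exact absurd x2E hv
      · rfl
    have hnot : ∀ z, G.Adj a z → G.Adj b z → z ∉ E := by
      intro z ha' hb'' hz
      rcases (memE z).1 hz with rfl | rfl | rfl | rfl
      · exact hab ((ox a haE ha'.symm).trans (ox b hbE hb''.symm).symm)
      · exact hab ((ox2 a haE ha'.symm).trans (ox2 b hbE hb''.symm).symm)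
      · exact hab ((oy a haE ha'.symm).trans (oy b hbE hb''.symm).symm)
      · exact hab ((oy2 a haE ha'.symm).trans (oy2 b hbE hb''.symm).symm)
    rcases hkx with hkx | hkx
    · -- then z is adjacent to an x, so z ∈ {p, q}
      have hz : ∀ z, G.Adj a z → G.Adj b z → κ z ≠ κ a → z ∈ E ∪ Nb G E → z = p ∨ z = q := by
        intro z ha' hb'' hkz hzE
        have hzn := hnot z ha' hb''
        have e1 : κ z ≠ κ x1 := hkx ▸ hkz
        have e2 : κ z = κ y1 := eq_of_ne_of_ne e1 k11.symm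
        rcases hzout z hkz hzE with hc | hc | hc | hc | hc
        · exact absurd hc hzn
        · exact Or.inl (ox z hzn hc)
        · exact Or.inr (ox2 z hzn hc)
        · exact absurd e2.symm (hB _ _ y1E hc)
        · exact absurd (ky.symm.trans e2.symm) (hB _ _ y2E hc)
      rcases hz y h1 h5 hky hy with rfl | rfl <;> rcases hz z1 h3 h6 hkz1 hz1 with rfl | rfl <;>
        rcases hz z2 h4 h7 hkz2 hz2 with rfl | rfl <;>
        first | exact hyz1 rfl | exact hyz2 rfl | exact hzz rfl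
    · have hz : ∀ z, G.Adj a z → G.Adj b z → κ z ≠ κ a → z ∈ E ∪ Nb G E → z = r ∨ z = s := by
        intro z ha' hb'' hkz hzE
        have hzn := hnot z ha' hb''
        have e1 : κ z ≠ κ y1 := hkx ▸ hkz
        have e2 : κ z = κ x1 := eq_of_ne_of_ne e1 k11
        rcases hzout z hkz hzE with hc | hc | hc | hc | hc
        · exact absurd hc hzn
        · exact absurd e2.symm (hB _ _ x1E hc)
        · exact absurd (kx.symm.trans e2.symm) (hB _ _ x2E hc)
        · exact Or.inl (oy z hzn hc)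
        · exact Or.inr (oy2 z hzn hc)
      rcases hz y h1 h5 hky hy with rfl | rfl <;> rcases hz z1 h3 h6 hkz1 hz1 with rfl | rfl <;>
        rcases hz z2 h4 h7 hkz2 hz2 with rfl | rfl <;>
        first | exact hyz1 rfl | exact hyz2 rfl | exact hzz rfl

/-- Two boundary vertices of one colour without a common neighbour in a list set `E` come from an
L1 pair in `E`. -/
theorem LL_alpha [Finite V] {Z : SimpleGraph V} {κ : V → ZMod 2} {E : Set V}
    (hB : Bal Z κ E) (hE : IsLL Z E) (h2 : 2 ≤ E.ncard) {a b : V} (hab : a ≠ b)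
    (hk : κ a = κ b) (ha : a ∈ Nb Z E) (hb : b ∈ Nb Z E)
    (hno : ∀ w ∈ E, ¬ (Z.Adj w a ∧ Z.Adj w b)) :
    ∃ w1 w2 e g, w1 ∈ E ∧ w2 ∈ E ∧ w1 ≠ w2 ∧ Z.neighborSet w1 = {a, e, g} ∧
      Z.neighborSet w2 = {b, e, g} ∧ e ≠ g ∧ a ≠ e ∧ a ≠ g ∧ b ≠ e ∧ b ≠ g ∧
      e ∈ E ∪ Nb Z E ∧ g ∈ E ∪ Nb Z E := by
  -- the last two conditions are automatic
  suffices hs : ∃ w1 w2 e g, w1 ∈ E ∧ w2 ∈ E ∧ w1 ≠ w2 ∧ Z.neighborSet w1 = {a, e, g} ∧
      Z.neighborSet w2 = {b, e, g} ∧ e ≠ g ∧ a ≠ e ∧ a ≠ g ∧ b ≠ e ∧ b ≠ g by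
    obtain ⟨w1, w2, e, g, c1, c2, c3, c4, c5, c6, c7, c8, c9, c10⟩ := hs
    refine ⟨w1, w2, e, g, c1, c2, c3, c4, c5, c6, c7, c8, c9, c10, ?_, ?_⟩
    · rcases mem_or_Nb c1 ((adj3 c4 e).2 (by tauto)) with hh | hh
      · exact Or.inl hh
      · exact Or.inr hh
    · rcases mem_or_Nb c1 ((adj3 c4 g).2 (by tauto)) with hh | hh
      · exact Or.inl hh
      · exact Or.inr hh
  obtain ⟨haE, u, hu, hua⟩ := ha
  obtain ⟨hbE, v, hv, hvb⟩ := hb
  have huv : u ≠ v := fun hh => hno u hu ⟨hua, hh ▸ hvb⟩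
  have hkuv : κ u = κ v :=
    eq_of_ne_of_ne (hB u a hu hua) (hk ▸ hB v b hv hvb)
  have hua' : ¬ Z.Adj u b := fun hh => hno u hu ⟨hua, hh⟩
  have hva' : ¬ Z.Adj v a := fun hh => hno v hv ⟨hh, hvb⟩
  rcases hE with ⟨x, rfl⟩ | ⟨w1, w2, a', b', e, g, hL⟩ | ⟨x1, x2, p, q, r, s, hL⟩ |
    ⟨w', y1, y2, n1, n2, n3, n4, hL⟩ | ⟨x1, x2, y1, y2, p, q, r, s, hL⟩
  · rw [Set.ncard_singleton] at h2; omega
  · have m1 := adj3 hL.n1
    have m2 := adj3 hL.n2
    rw [hL.eq, Set.mem_insert_iff, Set.mem_singleton_iff] at hu hv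
    have hcase : (u = w1 ∧ v = w2) ∨ (u = w2 ∧ v = w1) := by
      rcases hu with rfl | rfl <;> rcases hv with rfl | rfl
      · exact absurd rfl huv
      · exact Or.inl ⟨rfl, rfl⟩
      · exact Or.inr ⟨rfl, rfl⟩
      · exact absurd rfl huv
    rcases hcase with ⟨rfl, rfl⟩ | ⟨rfl, rfl⟩
    · rw [m1] at hua
      rw [m2] at hvb
      rw [m1] at hua'
      rw [m2] at hva'
      have ea : a = a' := by tauto
      have eb : b = b' := by tauto
      subst ea; subst eb
      exact ⟨u, v, e, g, by rw [hL.eq]; simp, by rw [hL.eq]; simp, huv, hL.n1, hL.n2, hL.eg,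
        hL.ae, hL.ag, hL.be, hL.bg⟩
    · rw [m2] at hua
      rw [m1] at hvb
      rw [m2] at hua'
      rw [m1] at hva'
      have ea : a = b' := by tauto
      have eb : b = a' := by tauto
      subst ea; subst eb
      exact ⟨u, v, e, g, by rw [hL.eq]; simp, by rw [hL.eq]; simp, huv, hL.n2, hL.n1, hL.eg,
        hL.be, hL.bg, hL.ae, hL.ag⟩
  · have m1 := adj3 hL.n1
    have hx : κ x1 ≠ κ x2 := hB _ _ (by rw [hL.eq]; simp) ((m1 x2).2 (by tauto))
    rw [hL.eq, Set.mem_insert_iff, Set.mem_singleton_iff] at hu hv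
    exfalso
    rcases hu with rfl | rfl <;> rcases hv with rfl | rfl
    · exact huv rfl
    · exact hx hkuv
    · exact hx hkuv.symm
    · exact huv rfl
  · have m0 := adj3 hL.nw
    have m1 := adj3 hL.ny1
    have m2 := adj3 hL.ny2
    have k1 : κ w' ≠ κ y1 := hB _ _ (by rw [hL.eq]; simp) ((m0 y1).2 (by tauto))
    have k2 : κ w' ≠ κ y2 := hB _ _ (by rw [hL.eq]; simp) ((m0 y2).2 (by tauto))
    have wE : w' ∈ E := by rw [hL.eq]; simp
    rw [hL.eq, Set.mem_insert_iff, Set.mem_insert_iff, Set.mem_singleton_iff] at hu hv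
    have hcase : (u = y1 ∧ v = y2) ∨ (u = y2 ∧ v = y1) := by
      rcases hu with rfl | rfl | rfl <;> rcases hv with rfl | rfl | rfl <;>
        first | exact absurd rfl huv | exact absurd hkuv k1 | exact absurd hkuv k2 |
          exact absurd hkuv.symm k1 | exact absurd hkuv.symm k2 | simp
    rcases hcase with ⟨rfl, rfl⟩ | ⟨rfl, rfl⟩
    · rw [m1] at hua
      rw [m2] at hvb
      rw [m1] at hua'
      rw [m2] at hva'
      have ea : a = n1 := by tauto
      have eb : b = n2 := by tauto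
      subst ea; subst eb
      refine ⟨u, v, w', n3, by rw [hL.eq]; simp, by rw [hL.eq]; simp, huv, ?_, ?_, hL.wn3,
        hL.wn1.symm, hL.n13, hL.wn2.symm, hL.n23⟩
      · rw [hL.ny1, perm3']
      · rw [hL.ny2, perm3']
    · rw [m2] at hua
      rw [m1] at hvb
      rw [m2] at hua'
      rw [m1] at hva'
      have ea : a = n2 := by tauto
      have eb : b = n1 := by tauto
      subst ea; subst eb
      refine ⟨u, v, w', n3, by rw [hL.eq]; simp, by rw [hL.eq]; simp, huv, ?_, ?_, hL.wn3,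
        hL.wn2.symm, hL.n23, hL.wn1.symm, hL.n13⟩
      · rw [hL.ny2, perm3']
      · rw [hL.ny1, perm3']
  · have m1 := adj3 hL.nx1
    have m2 := adj3 hL.nx2
    have m3 := adj3 hL.ny1
    have m4 := adj3 hL.ny2
    have k11 : κ x1 ≠ κ y1 := hB _ _ (by rw [hL.eq]; simp) ((m1 y1).2 (by tauto))
    have k12 : κ x1 ≠ κ y2 := hB _ _ (by rw [hL.eq]; simp) ((m1 y2).2 (by tauto))
    have k21 : κ x2 ≠ κ y1 := hB _ _ (by rw [hL.eq]; simp) ((m2 y1).2 (by tauto))
    have k22 : κ x2 ≠ κ y2 := hB _ _ (by rw [hL.eq]; simp) ((m2 y2).2 (by tauto))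
    have memE : ∀ v, v ∈ E ↔ v = x1 ∨ v = x2 ∨ v = y1 ∨ v = y2 := by
      intro v; rw [hL.eq]; simp
    have x1E : x1 ∈ E := (memE _).2 (by tauto)
    have x2E : x2 ∈ E := (memE _).2 (by tauto)
    have y1E : y1 ∈ E := (memE _).2 (by tauto)
    have y2E : y2 ∈ E := (memE _).2 (by tauto)
    have ox : ∀ v, v ∉ E → Z.Adj x1 v → v = p := by
      intro v hv hadj
      rcases (m1 v).1 hadj with rfl | rfl | rfl
      · exact absurd y1E hv
      · exact absurd y2E hv
      · rfl
    have ox2 : ∀ v, v ∉ E → Z.Adj x2 v → v = q := by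
      intro v hv hadj
      rcases (m2 v).1 hadj with rfl | rfl | rfl
      · exact absurd y1E hv
      · exact absurd y2E hv
      · rfl
    have oy : ∀ v, v ∉ E → Z.Adj y1 v → v = r := by
      intro v hv hadj
      rcases (m3 v).1 hadj with rfl | rfl | rfl
      · exact absurd x1E hv
      · exact absurd x2E hv
      · rfl
    have oy2 : ∀ v, v ∉ E → Z.Adj y2 v → v = s := by
      intro v hv hadj
      rcases (m4 v).1 hadj with rfl | rfl | rfl
      · exact absurd x1E hv
      · exact absurd x2E hv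
      · rfl
    have hu' := (memE u).1 hu
    have hv' := (memE v).1 hv
    have hcase : (u = x1 ∧ v = x2) ∨ (u = x2 ∧ v = x1) ∨ (u = y1 ∧ v = y2) ∨
        (u = y2 ∧ v = y1) := by
      rcases hu' with rfl | rfl | rfl | rfl <;> rcases hv' with rfl | rfl | rfl | rfl <;>
        first | exact absurd rfl huv | exact absurd hkuv (by assumption) |
          exact absurd hkuv.symm (by assumption) | simp
    rcases hcase with ⟨rfl, rfl⟩ | ⟨rfl, rfl⟩ | ⟨rfl, rfl⟩ | ⟨rfl, rfl⟩
    · have ea := ox a haE hua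
      have eb := ox2 b hbE hvb
      subst ea; subst eb
      refine ⟨u, v, y1, y2, hu, hv, huv, ?_, ?_, hL.yy, hL.py1, hL.py2, hL.qy1, hL.qy2⟩
      · rw [hL.nx1, perm3]
      · rw [hL.nx2, perm3]
    · have ea := ox2 a haE hua
      have eb := ox b hbE hvb
      subst ea; subst eb
      refine ⟨u, v, y1, y2, hu, hv, huv, ?_, ?_, hL.yy, hL.qy1, hL.qy2, hL.py1, hL.py2⟩
      · rw [hL.nx2, perm3]
      · rw [hL.nx1, perm3]
    · have ea := oy a haE hua
      have eb := oy2 b hbE hvb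
      subst ea; subst eb
      refine ⟨u, v, x1, x2, hu, hv, huv, ?_, ?_, hL.xx, hL.rx1, hL.rx2, hL.sx1, hL.sx2⟩
      · rw [hL.ny1, perm3]
      · rw [hL.ny2, perm3]
    · have ea := oy2 a haE hua
      have eb := oy b hbE hvb
      subst ea; subst eb
      refine ⟨u, v, x1, x2, hu, hv, huv, ?_, ?_, hL.xx, hL.sx1, hL.sx2, hL.rx1, hL.rx2⟩
      · rw [hL.ny2, perm3]
      · rw [hL.ny1, perm3]

end Pool.Agent.Helper51.GX
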