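import Pool.Agent.Helper51.GX.Count
import Pool.Agent.Helper51.TDC.Layer

/-!
# The global part: the layer `L5`
-/

set_option autoImplicit false

namespace Pool.Agent.Helper51.GX

open SimpleGraph Pool.Agent.Helper57.TOK Pool.Agent.Helper57.TD
open Pool.Agent.Helper51.TDC (adj3 ncard3 ncard4 ncard5 two_le_of_mem Star Cub IsL5 LL_cubic)

variable {V : Type*}

private lemma layer_pair {P : V → Prop} {A : Set V} (h2 : {v | v ∈ A ∧ P v}.ncard = 2) {a : V}
    (ha : a ∈ A) (hPa : P a) : ∃ b ∈ A, b ≠ a ∧ ∀ v ∈ A, (P v ↔ v = a ∨ v = b) := by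
  obtain ⟨x, y, hxy, hs⟩ := Set.ncard_eq_two.1 h2
  have hiff : ∀ v, (v ∈ A ∧ P v) ↔ (v = x ∨ v = y) := fun v => by
    have := Set.ext_iff.1 hs v
    simpa using this
  rcases (hiff a).1 ⟨ha, hPa⟩ with rfl | rfl
  · refine ⟨y, ((hiff y).2 (Or.inr rfl)).1, hxy.symm, fun v hv => ?_⟩
    exact ⟨fun h => (hiff v).1 ⟨hv, h⟩, fun h => ((hiff v).2 h).2⟩
  · refine ⟨x, ((hiff x).2 (Or.inl rfl)).1, hxy, fun v hv => ?_⟩
    exact ⟨fun h => ((hiff v).1 ⟨hv, h⟩).symm, fun h => ((hiff v).2 h.symm).2⟩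

private lemma layer_four {a b c d : V} (hab : a ≠ b) (hac : a ≠ c) (had : a ≠ d) (hbc : b ≠ c)
    (hbd : b ≠ d) (hcd : c ≠ d) : ({a, b, c, d} : Set V).ncard = 4 := by
  rw [Set.ncard_insert_of_notMem (by simp [hab, hac, had]) (Set.toFinite _),
    Set.ncard_insert_of_notMem (by simp [hbc, hbd]) (Set.toFinite _), Set.ncard_pair hcd]

private lemma layer_three {a b c : V} (hab : a ≠ b) (hac : a ≠ c) (hbc : b ≠ c) :
    ({a, b, c} : Set V).ncard = 3 := by
  rw [Set.ncard_insert_of_notMem (by simp [hab, hac]) (Set.toFinite _), Set.ncard_pair hbc]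

private lemma layer_eq_four [Finite V] {A : Set V} (hA : A.ncard = 4) {a b c d : V} (ha : a ∈ A)
    (hb : b ∈ A) (hc : c ∈ A) (hd : d ∈ A) (hab : a ≠ b) (hac : a ≠ c) (had : a ≠ d) (hbc : b ≠ c)
    (hbd : b ≠ d) (hcd : c ≠ d) : A = {a, b, c, d} := by
  refine (Set.eq_of_subset_of_ncard_le ?_ ?_ (Set.toFinite _)).symm
  · intro v hv
    simp only [Set.mem_insert_iff, Set.mem_singleton_iff] at hv
    rcases hv with rfl | rfl | rfl | rfl <;> assumption
  · rw [hA, layer_four hab hac had hbc hbd hcd]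

/-- The 8-cycle. -/
private lemma layer_cycle [Finite V] {Z : SimpleGraph V} {K N : Set V} (hK4 : K.ncard = 4)
    (hN4 : N.ncard = 4)
    (hk : ∀ k ∈ K, {v | v ∈ N ∧ Z.Adj k v}.ncard = 2)
    (hn : ∀ n ∈ N, {v | v ∈ K ∧ Z.Adj v n}.ncard = 2)
    (hd : ∀ k ∈ K, ∀ k' ∈ K, k ≠ k' → ¬ ∀ n ∈ N, (Z.Adj k n ↔ Z.Adj k' n)) :
    ∃ k1 k2 k3 k4 n1 n2 n3 n4, K = {k1, k2, k3, k4} ∧ N = {n1, n2, n3, n4} ∧
      k1 ≠ k2 ∧ k1 ≠ k3 ∧ k1 ≠ k4 ∧ k2 ≠ k3 ∧ k2 ≠ k4 ∧ k3 ≠ k4 ∧
      n1 ≠ n2 ∧ n1 ≠ n3 ∧ n1 ≠ n4 ∧ n2 ≠ n3 ∧ n2 ≠ n4 ∧ n3 ≠ n4 ∧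
      (∀ n ∈ N, (Z.Adj k1 n ↔ n = n1 ∨ n = n2)) ∧ (∀ n ∈ N, (Z.Adj k2 n ↔ n = n2 ∨ n = n3)) ∧
      (∀ n ∈ N, (Z.Adj k3 n ↔ n = n3 ∨ n = n4)) ∧ (∀ n ∈ N, (Z.Adj k4 n ↔ n = n4 ∨ n = n1)) := by
  obtain ⟨k1, hk1⟩ : K.Nonempty := by
    rw [← Set.ncard_pos (Set.toFinite _), hK4]; norm_num
  obtain ⟨n2, hn2, e12⟩ : {v | v ∈ N ∧ Z.Adj k1 v}.Nonempty := by
    rw [← Set.ncard_pos (Set.toFinite _), hk k1 hk1]; norm_num
  obtain ⟨n1, hn1, n12, a1⟩ := layer_pair (hk k1 hk1) hn2 e12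
  obtain ⟨k2, hk2, k21, b2⟩ := layer_pair (P := fun v => Z.Adj v n2) (hn n2 hn2) hk1 e12
  have e22 : Z.Adj k2 n2 := (b2 k2 hk2).2 (Or.inr rfl)
  obtain ⟨n3, hn3, n32, a2⟩ := layer_pair (hk k2 hk2) hn2 e22
  have e23 : Z.Adj k2 n3 := (a2 n3 hn3).2 (Or.inr rfl)
  have n31 : n3 ≠ n1 := by
    rintro rfl
    exact hd k2 hk2 k1 hk1 k21 fun n hn' => (a2 n hn').trans (a1 n hn').symm
  obtain ⟨k3, hk3, k32, b3⟩ := layer_pair (P := fun v => Z.Adj v n3) (hn n3 hn3) hk2 e23
  have e33 : Z.Adj k3 n3 := (b3 k3 hk3).2 (Or.inr rfl)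
  have k31 : k3 ≠ k1 := by
    rintro rfl
    rcases (a1 n3 hn3).1 e33 with h | h
    · exact n32 h
    · exact n31 h
  obtain ⟨n4, hn4, n43, a3⟩ := layer_pair (hk k3 hk3) hn3 e33
  have e34 : Z.Adj k3 n4 := (a3 n4 hn4).2 (Or.inr rfl)
  have n42 : n4 ≠ n2 := by
    rintro rfl
    rcases (b2 k3 hk3).1 e34 with h | h
    · exact k31 h
    · exact k32 h
  have e11 : Z.Adj k1 n1 := (a1 n1 hn1).2 (Or.inr rfl)
  have n41 : n4 ≠ n1 := by
    intro h41
    rw [h41] at e34
    obtain ⟨k, hkK, hk'⟩ : ∃ k ∈ K, k ∉ ({k1, k2, k3} : Set V) := by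
      by_contra hcon
      push Not at hcon
      have h1 := Set.ncard_le_ncard (show K ⊆ {k1, k2, k3} from hcon) (Set.toFinite _)
      rw [hK4, layer_three k21.symm k31.symm k32.symm] at h1
      omega
    simp only [Set.mem_insert_iff, Set.mem_singleton_iff, not_or] at hk'
    obtain ⟨hka, hkb, hkc⟩ := hk'
    obtain ⟨v, hv, w, hw, hvw⟩ : ∃ v, (v ∈ N ∧ Z.Adj k v) ∧ ∃ w, (w ∈ N ∧ Z.Adj k w) ∧ v ≠ w := by
      obtain ⟨x, y, hxy, hs⟩ := Set.ncard_eq_two.1 (hk k hkK)
      have hx : x ∈ {v | v ∈ N ∧ Z.Adj k v} := by rw [hs]; simp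
      have hy : y ∈ {v | v ∈ N ∧ Z.Adj k v} := by rw [hs]; simp
      exact ⟨x, hx, y, hy, hxy⟩
    obtain ⟨c, hc, hc1, b1⟩ := layer_pair (P := fun v => Z.Adj v n1) (hn n1 hn1) hk1 e11
    have hck3 : c = k3 := by
      rcases (b1 k3 hk3).1 e34 with h | h
      · exact absurd h k31
      · exact h.symm
    have key : ∀ v ∈ N, Z.Adj k v → v ≠ n1 ∧ v ≠ n2 ∧ v ≠ n3 := by
      intro v hv hav
      refine ⟨?_, ?_, ?_⟩
      · rintro rfl
        rcases (b1 k hkK).1 hav with h | h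
        · exact hka h
        · exact hkc (h.trans hck3)
      · rintro rfl
        rcases (b2 k hkK).1 hav with h | h
        · exact hka h
        · exact hkb h
      · rintro rfl
        rcases (b3 k hkK).1 hav with h | h
        · exact hkb h
        · exact hkc h
    have h1 := key v hv.1 hv.2
    have h2 := key w hw.1 hw.2
    have h3 : ({n1, n2, n3, v} : Set V) = N := (layer_eq_four hN4 hn1 hn2 hn3 hv.1 n12
      n31.symm h1.1.symm n32.symm h1.2.1.symm h1.2.2.symm).symm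
    have h4 : w ∈ ({n1, n2, n3, v} : Set V) := by rw [h3]; exact hw.1
    simp only [Set.mem_insert_iff, Set.mem_singleton_iff] at h4
    rcases h4 with h4 | h4 | h4 | h4
    · exact h2.1 h4
    · exact h2.2.1 h4
    · exact h2.2.2 h4
    · exact hvw h4.symm
  obtain ⟨k4, hk4, k43, b4⟩ := layer_pair (P := fun v => Z.Adj v n4) (hn n4 hn4) hk3 e34
  have e44 : Z.Adj k4 n4 := (b4 k4 hk4).2 (Or.inr rfl)
  have k41 : k4 ≠ k1 := by
    rintro rfl
    rcases (a1 n4 hn4).1 e44 with h | h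
    · exact n42 h
    · exact n41 h
  have k42 : k4 ≠ k2 := by
    rintro rfl
    rcases (a2 n4 hn4).1 e44 with h | h
    · exact n42 h
    · exact n43 h
  obtain ⟨m, hm, hm4, a4⟩ := layer_pair (hk k4 hk4) hn4 e44
  have e4m : Z.Adj k4 m := (a4 m hm).2 (Or.inr rfl)
  have hNeq : N = {n1, n2, n3, n4} := layer_eq_four hN4 hn1 hn2 hn3 hn4 n12 n31.symm
    n41.symm n32.symm n42.symm n43.symm
  have hm1 : m = n1 := by
    have h1 : m ∈ ({n1, n2, n3, n4} : Set V) := by rw [← hNeq]; exact hm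
    simp only [Set.mem_insert_iff, Set.mem_singleton_iff] at h1
    rcases h1 with h1 | h1 | h1 | h1
    · exact h1
    · rw [h1] at e4m
      rcases (b2 k4 hk4).1 e4m with h | h
      · exact absurd h k41
      · exact absurd h k42
    · rw [h1] at e4m
      rcases (b3 k4 hk4).1 e4m with h | h
      · exact absurd h k42
      · exact absurd h k43
    · exact absurd h1 hm4
  refine ⟨k1, k2, k3, k4, n1, n2, n3, n4, layer_eq_four hK4 hk1 hk2 hk3 hk4 k21.symm k31.symm
    k41.symm k32.symm k42.symm k43.symm, hNeq, k21.symm, k31.symm, k41.symm, k32.symm, k42.symm,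
    k43.symm, n12, n31.symm, n41.symm, n32.symm, n42.symm, n43.symm, ?_, a2, a3, ?_⟩
  · intro n hn'
    rw [a1 n hn', or_comm]
  · intro n hn'
    rw [a4 n hn', hm1]

/-- A minimal non-list set is a layer `L5`. -/
theorem exists_L5 [Finite V] {G : SimpleGraph V} {U : Set V} (h : GCore G U) {X : Set V}
    {κX : V → ZMod 2} (hX : GMinX G U κX X) (hs : Star G X) :
    ∃ z k1 k2 k3 k4 n1 n2 n3 n4, IsL5 G X z k1 k2 k3 k4 n1 n2 n3 n4 := by
  have hf0 := h.P2 X hX.sub κX hX.bal hX.four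
  obtain ⟨hf, hK4, hK, hR, hN⟩ := layer_count h hX hs
  have hmono : Mono κX (Nb G X) := by
    by_contra hm
    rw [hf, beta_of_not_mono hm, hX.four] at hf0
    norm_num at hf0
  set K := Cub G X with hKdef
  have hKX : K ⊆ X := fun v hv => hv.1
  have hKne : K.Nonempty := by
    rw [← Set.ncard_pos (Set.toFinite _), hK4]; norm_num
  -- no edges inside `K`
  have hKK : ∀ u ∈ K, ∀ v ∈ K, ¬ G.Adj u v := by
    intro u hu v hv huv
    obtain ⟨a, ha⟩ : (G.neighborSet u ∩ Nb G X).Nonempty := by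
      rw [← Set.ncard_pos (Set.toFinite _), (hK u hu).1]; norm_num
    obtain ⟨b, hb'⟩ : (G.neighborSet v ∩ Nb G X).Nonempty := by
      rw [← Set.ncard_pos (Set.toFinite _), (hK v hv).1]; norm_num
    have h1 : κX u ≠ κX a := hX.bal u a (hKX hu) ha.1
    have h2 : κX v ≠ κX b := hX.bal v b (hKX hv) hb'.1
    have h3 : κX a = κX b := hmono a ha.2 b hb'.2
    exact hX.bal u v (hKX hu) huv (eq_of_ne_of_ne h1 (h3 ▸ h2))
  have hRne : (X \ K).Nonempty := by
    obtain ⟨k, hk⟩ := hKne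
    obtain ⟨u, hu⟩ : (G.neighborSet k ∩ X).Nonempty := by
      rw [← Set.ncard_pos (Set.toFinite _), (hK k hk).2]; norm_num
    exact ⟨u, hu.2, fun huK => hKK k hk u huK hu.1⟩
  have hNbR : Nb G (X \ K) ⊆ K := by
    rintro v ⟨hv1, u, hu, huv⟩
    have hvX : v ∈ X := (hR u hu).2 huv
    by_contra hvK
    exact hv1 ⟨hvX, hvK⟩
  have hR1 : (X \ K).ncard = 1 := by
    have hpos : 0 < (X \ K).ncard := (Set.ncard_pos (Set.toFinite _)).2 hRne
    by_contra hne1
    have h2 : 2 ≤ (X \ K).ncard := by omega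
    have h3 := h.P1 (X \ K) (Set.sdiff_subset.trans hX.sub) h2 κX (hX.bal.mono Set.sdiff_subset)
    have h4 := Set.ncard_le_ncard hNbR (Set.toFinite _)
    have h5 : IsLL G (X \ K) := by
      refine hX.min _ Set.sdiff_subset ?_ hRne (by omega)
      intro heq
      obtain ⟨k, hk⟩ := hKne
      have : k ∈ X \ K := by rw [heq]; exact hKX hk
      exact this.2 hk
    obtain ⟨d, hd, hd3⟩ := LL_cubic h5 h2
    exact hd.2 ⟨hd.1, hd3⟩
  obtain ⟨z, hz⟩ := Set.ncard_eq_one.1 hR1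
  have hzR : z ∈ X \ K := by rw [hz]; rfl
  have hzX : z ∈ X := hzR.1
  have hXz : ∀ v, v ∈ X ↔ v = z ∨ v ∈ K := by
    intro v
    constructor
    · intro hv
      by_cases hvK : v ∈ K
      · exact Or.inr hvK
      · have : v ∈ X \ K := ⟨hv, hvK⟩
        rw [hz] at this
        exact Or.inl this
    · rintro (rfl | hv)
      · exact hzX
      · exact hKX hv
  have hNz : G.neighborSet z = K := by
    have hsub : G.neighborSet z ⊆ K := by
      intro v hv
      rcases (hXz v).1 ((hR z hzR).2 hv) with h1 | h1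
      · rw [h1] at hv
        exact absurd rfl hv.ne
      · exact h1
    refine Set.eq_of_subset_of_ncard_le hsub ?_ (Set.toFinite _)
    rw [hK4, (hR z hzR).1]
  have hzk : ∀ k ∈ K, G.Adj k z := by
    intro k hk
    have : k ∈ G.neighborSet z := by rw [hNz]; exact hk
    exact this.symm
  have hkX : ∀ k ∈ K, ∀ v ∈ X, G.Adj k v → v = z := by
    intro k hk v hv hkv
    rcases (hXz v).1 hv with h1 | h1
    · exact h1
    · exact absurd hkv (hKK k hk v h1)
  have hzN : z ∉ Nb G X := fun hh => hh.1 hzX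
  -- the neighbourhoods of the elements of `K`
  have hNk : ∀ k ∈ K, ∀ a b, a ∈ Nb G X → b ∈ Nb G X →
      (∀ n ∈ Nb G X, (G.Adj k n ↔ n = a ∨ n = b)) → G.neighborSet k = {z, a, b} := by
    intro k hk a b ha hb' hab
    ext v
    simp only [Set.mem_insert_iff, Set.mem_singleton_iff, SimpleGraph.mem_neighborSet]
    constructor
    · intro hv
      rcases mem_or_Nb (hKX hk) hv with h1 | h1
      · exact Or.inl (hkX k hk v h1 hv)
      · exact Or.inr ((hab v h1).1 hv)
    · rintro (rfl | h1 | h1)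
      · exact hzk k hk
      · rw [h1]; exact (hab a ha).2 (Or.inl rfl)
      · rw [h1]; exact (hab b hb').2 (Or.inr rfl)
  obtain ⟨k1, k2, k3, k4, n1, n2, n3, n4, hKeq, hNeq, k12, k13, k14, k23, k24, k34, n12, n13, n14,
    n23, n24, n34, a1, a2, a3, a4⟩ := layer_cycle (Z := G) hK4 hX.four (by
      intro k hk
      rw [← (hK k hk).1]
      congr 1
      ext v
      exact and_comm) (by
      intro n hn
      rw [← hN n hn]
      congr 1
      ext v
      simp only [Set.mem_ofPred_eq, Set.mem_inter_iff, SimpleGraph.mem_neighborSet]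
      constructor
      · rintro ⟨h1, h2⟩
        exact ⟨h2.symm, hKX h1⟩
      · rintro ⟨h1, h2⟩
        refine ⟨?_, h1.symm⟩
        rcases (hXz v).1 h2 with h3 | h3
        · exfalso
          rw [h3] at h1
          have : n ∈ G.neighborSet z := h1.symm
          rw [hNz] at this
          exact hn.1 (hKX this)
        · exact h3) (by
      intro k hk k' hk' hkk hall
      refine h.T3 k' k (hX.sub (hKX hk)) hkk.symm hk.2 ?_
      intro v hv
      rcases mem_or_Nb (hKX hk) hv with h1 | h1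
      · rw [hkX k hk v h1 hv]
        exact hzk k' hk'
      · exact (hall v h1).1 hv)
  have mK : ∀ v, v ∈ K ↔ v = k1 ∨ v = k2 ∨ v = k3 ∨ v = k4 := by
    intro v; rw [hKeq]; simp
  have mN : ∀ v, v ∈ Nb G X ↔ v = n1 ∨ v = n2 ∨ v = n3 ∨ v = n4 := by
    intro v; rw [hNeq]; simp
  have q1 : n1 ∈ Nb G X := (mN n1).2 (by simp)
  have q2 : n2 ∈ Nb G X := (mN n2).2 (by simp)
  have q3 : n3 ∈ Nb G X := (mN n3).2 (by simp)
  have q4 : n4 ∈ Nb G X := (mN n4).2 (by simp)
  refine ⟨z, k1, k2, k3, k4, n1, n2, n3, n4, ?_, by rw [hNz, hKeq],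
    hNk k1 ((mK k1).2 (by simp)) n1 n2 q1 q2 a1, hNk k2 ((mK k2).2 (by simp)) n2 n3 q2 q3 a2,
    hNk k3 ((mK k3).2 (by simp)) n3 n4 q3 q4 a3, hNk k4 ((mK k4).2 (by simp)) n4 n1 q4 q1 a4,
    hNeq, k12, k13, k14, k23, k24, k34, n12, n13, n14, n23, n24, n34⟩
  ext v
  rw [hXz v, mK v]
  simp

/-- The layer `L5` is impossible. -/
theorem L5_false [Finite V] {G : SimpleGraph V} {U : Set V} (h : GCore G U) {X : Set V}
    {κX : V → ZMod 2} (hX : GMinX G U κX X) {z k1 k2 k3 k4 n1 n2 n3 n4 : V}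
    (hL : IsL5 G X z k1 k2 k3 k4 n1 n2 n3 n4) : False := by
  have mX : ∀ v, v ∈ X ↔ v = z ∨ v = k1 ∨ v = k2 ∨ v = k3 ∨ v = k4 := by
    intro v; rw [hL.eq]; simp
  have mN : ∀ v, v ∈ Nb G X ↔ v = n1 ∨ v = n2 ∨ v = n3 ∨ v = n4 := by
    intro v; rw [hL.NX]; simp
  have az : ∀ v, G.Adj z v ↔ v = k1 ∨ v = k2 ∨ v = k3 ∨ v = k4 := by
    intro v; rw [← SimpleGraph.mem_neighborSet, hL.Nz]; simp
  have ak1 : ∀ v, G.Adj k1 v ↔ v = z ∨ v = n1 ∨ v = n2 := by
    intro v; rw [← SimpleGraph.mem_neighborSet, hL.Nk1]; simp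
  have ak2 : ∀ v, G.Adj k2 v ↔ v = z ∨ v = n2 ∨ v = n3 := by
    intro v; rw [← SimpleGraph.mem_neighborSet, hL.Nk2]; simp
  have ak3 : ∀ v, G.Adj k3 v ↔ v = z ∨ v = n3 ∨ v = n4 := by
    intro v; rw [← SimpleGraph.mem_neighborSet, hL.Nk3]; simp
  have ak4 : ∀ v, G.Adj k4 v ↔ v = z ∨ v = n4 ∨ v = n1 := by
    intro v; rw [← SimpleGraph.mem_neighborSet, hL.Nk4]; simp
  have xz : z ∈ X := (mX z).2 (by simp)
  have x1 : k1 ∈ X := (mX k1).2 (by simp)
  have x2 : k2 ∈ X := (mX k2).2 (by simp)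
  have x3 : k3 ∈ X := (mX k3).2 (by simp)
  have x4 : k4 ∈ X := (mX k4).2 (by simp)
  have q1 : n1 ∈ Nb G X := (mN n1).2 (by simp)
  have q2 : n2 ∈ Nb G X := (mN n2).2 (by simp)
  have q3 : n3 ∈ Nb G X := (mN n3).2 (by simp)
  have q4 : n4 ∈ Nb G X := (mN n4).2 (by simp)
  have hXN : ∀ u v, u ∈ X → v ∈ Nb G X → u ≠ v := by
    rintro u v hu hv rfl
    exact hv.1 hu
  have zk1 : z ≠ k1 := ((az k1).2 (by simp)).ne
  have zk2 : z ≠ k2 := ((az k2).2 (by simp)).ne
  have zk3 : z ≠ k3 := ((az k3).2 (by simp)).ne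
  have zk4 : z ≠ k4 := ((az k4).2 (by simp)).ne
  have e1z : G.Adj k1 z := (ak1 z).2 (by simp)
  have e11 : G.Adj k1 n1 := (ak1 n1).2 (by simp)
  have e12 : G.Adj k1 n2 := (ak1 n2).2 (by simp)
  have e2z : G.Adj k2 z := (ak2 z).2 (by simp)
  have e22 : G.Adj k2 n2 := (ak2 n2).2 (by simp)
  have e23 : G.Adj k2 n3 := (ak2 n3).2 (by simp)
  have e3z : G.Adj k3 z := (ak3 z).2 (by simp)
  have e33 : G.Adj k3 n3 := (ak3 n3).2 (by simp)
  have e34 : G.Adj k3 n4 := (ak3 n4).2 (by simp)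
  have e4z : G.Adj k4 z := (ak4 z).2 (by simp)
  have e44 : G.Adj k4 n4 := (ak4 n4).2 (by simp)
  have e41 : G.Adj k4 n1 := (ak4 n1).2 (by simp)
  have hN4 : (Nb G X).ncard = 4 := hX.four
  -- not adjacent
  have m21 : ¬ G.Adj n1 k2 := by
    intro hh
    rcases (ak2 n1).1 hh.symm with h1 | h1 | h1
    · exact hXN z n1 xz q1 h1.symm
    · exact hL.n12 h1
    · exact hL.n13 h1
  have m31 : ¬ G.Adj n1 k3 := by
    intro hh
    rcases (ak3 n1).1 hh.symm with h1 | h1 | h1
    · exact hXN z n1 xz q1 h1.symm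
    · exact hL.n13 h1
    · exact hL.n14 h1
  have mz1 : ¬ G.Adj n1 z := by
    intro hh
    rcases (az n1).1 hh.symm with h1 | h1 | h1 | h1
    · exact hXN k1 n1 x1 q1 h1.symm
    · exact hXN k2 n1 x2 q1 h1.symm
    · exact hXN k3 n1 x3 q1 h1.symm
    · exact hXN k4 n1 x4 q1 h1.symm
  have hNy : G.neighborSet k1 = {n1, z, n2} := by
    rw [hL.Nk1, Set.insert_comm]
  rcases h.FOLD k1 n1 z n2 (hX.sub x1) (hXN z n1 xz q1).symm hL.n12 (hXN z n2 xz q2) mz1 hNy with
    ⟨z1, z2, h12, h1, h2, e1, e2, e3, e4⟩ |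
    ⟨A, hAU, κ, bA, hA4, hpA, hqA, kA, hyA, hcA, hcA', hno⟩ |
    ⟨A, hAU, κ, bA, hA4, hpA, hqA, hyA, hcA, hcA', hno⟩ | ⟨W, κ, hW⟩
  · exfalso
    have key : ∀ v, v ≠ k1 → G.Adj n1 v → G.Adj z v → v = k4 := by
      intro v hv1 hv2 hv3
      rcases (az v).1 hv3 with h3 | h3 | h3 | h3
      · exact absurd h3 hv1
      · rw [h3] at hv2; exact absurd hv2 m21
      · rw [h3] at hv2; exact absurd hv2 m31
      · exact h3
    exact h12 ((key z1 h1 e1 e2).trans (key z2 h2 e3 e4).symm)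
  · have k4A : k4 ∉ A := fun hh => hno k4 hh ⟨e41, e4z⟩
    have k2A : k2 ∉ A := by
      intro hh
      exact hcA' ⟨hcA, k2, hh, e22⟩ ((bA.eq hh e22 e2z).trans kA.symm)
    have k3A : k3 ∈ A := by
      obtain ⟨-, u, hu, huz⟩ := hqA
      rcases (az u).1 huz.symm with h1 | h1 | h1 | h1
      · rw [h1] at hu; exact absurd hu hyA
      · rw [h1] at hu; exact absurd hu k2A
      · rw [h1] at hu; exact hu
      · rw [h1] at hu; exact absurd hu k4A
    -- the class
    set k : ZMod 2 := κ z + κX z with hk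
    have hQ := class_le h hAU hX.sub bA hX.bal (gtwo_union hX A) hA4.le hX.four.le k
    have cz : κ z + κX z = k := hk.symm
    have c1 : κ n1 + κX n1 = k := by rw [hk, kA, hX.bal.eq x1 e11 e1z]
    have c3 : κ n3 + κX n3 = k := by rw [hk, bA.eq k3A e33 e3z, hX.bal.eq x3 e33 e3z]
    have c4 : κ n4 + κX n4 = k := by rw [hk, bA.eq k3A e34 e3z, hX.bal.eq x3 e34 e3z]
    have notC : ∀ v, v ∈ Nb G X → v ∉ Ck A X κ κX k := fun v hv hh => hv.1 hh.1.2
    have Qz : z ∈ Qk G A X κ κX k := mem_class_Nb hqA (Or.inl xz) cz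
    have Q1 : n1 ∈ Qk G A X κ κX k := mem_class_Nb hpA (Or.inr q1) c1
    have Q3 : n3 ∈ Qk G A X κ κX k :=
      (mem_class (mem_union_Nb k3A e33) (Or.inr q3) c3).resolve_left (notC n3 q3)
    have Q4 : n4 ∈ Qk G A X κ κX k :=
      (mem_class (mem_union_Nb k3A e34) (Or.inr q4) c4).resolve_left (notC n4 q4)
    have zn1 := hXN z n1 xz q1
    have zn3 := hXN z n3 xz q3
    have zn4 := hXN z n4 xz q4
    have hQeq : Qk G A X κ κX k = {z, n1, n3, n4} := by
      refine (Set.eq_of_subset_of_ncard_le ?_ ?_ (Set.toFinite _)).symm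
      · intro v hv
        simp only [Set.mem_insert_iff, Set.mem_singleton_iff] at hv
        rcases hv with rfl | rfl | rfl | rfl <;> assumption
      · rw [layer_four zn1 zn3 zn4 hL.n13 hL.n14 hL.n34]
        exact hQ
    have notQ : ∀ k', k' ∈ X → k' ≠ z → k' ∉ Qk G A X κ κX k := by
      intro k' hk' hkz hkQ
      rw [hQeq] at hkQ
      simp only [Set.mem_insert_iff, Set.mem_singleton_iff] at hkQ
      rcases hkQ with h1 | h1 | h1 | h1
      · exact hkz h1
      · exact hXN k' n1 hk' q1 h1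
      · exact hXN k' n3 hk' q3 h1
      · exact hXN k' n4 hk' q4 h1
    have n3A : n3 ∉ A := by
      intro hh
      refine notQ k2 x2 zk2.symm (mem_class_Nb ⟨k2A, n3, hh, e23.symm⟩ (Or.inl x2) ?_)
      rw [← c3]
      exact class_same (bA n3 k2 hh e23.symm).symm (hX.bal k2 n3 x2 e23)
    have n4A : n4 ∉ A := by
      intro hh
      refine notQ k4 x4 zk4.symm (mem_class_Nb ⟨k4A, n4, hh, e44.symm⟩ (Or.inl x4) ?_)
      rw [← c4]
      exact class_same (bA n4 k4 hh e44.symm).symm (hX.bal k4 n4 x4 e44)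
    have n3A' : n3 ∈ Nb G A := ⟨n3A, k3, k3A, e33⟩
    have n4A' : n4 ∈ Nb G A := ⟨n4A, k3, k3A, e34⟩
    have hNA : Nb G A = {z, n1, n3, n4} :=
      layer_eq_four hA4 hqA hpA n3A' n4A' zn1 zn3 zn4 hL.n13 hL.n14 hL.n34
    obtain ⟨-, s, hsA, hs1⟩ := id hpA
    have hsk3 : s ≠ k3 := by
      rintro rfl
      exact m31 hs1.symm
    have hsX : s ∉ X := by
      intro hh
      rcases (mX s).1 hh with h1 | h1 | h1 | h1 | h1
      · rw [h1] at hsA; exact hqA.1 hsA
      · rw [h1] at hsA; exact hyA hsA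
      · rw [h1] at hsA; exact k2A hsA
      · exact hsk3 h1
      · rw [h1] at hsA; exact k4A hsA
    have hNA' : Nb G (A \ {k3}) ⊆ {n1, n3, n4} := by
      rintro v ⟨hv1, u, ⟨huA, hu3⟩, huv⟩
      rw [Set.mem_singleton_iff] at hu3
      by_cases hvA : v ∈ A
      · exfalso
        have hv3 : v = k3 := by
          by_contra hne
          exact hv1 ⟨hvA, fun hh => hne (Set.mem_singleton_iff.1 hh)⟩
        rw [hv3] at huv
        rcases (ak3 u).1 huv.symm with h2 | h2 | h2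
        · rw [h2] at huA; exact hqA.1 huA
        · rw [h2] at huA; exact n3A huA
        · rw [h2] at huA; exact n4A huA
      · have h1 : v ∈ Nb G A := ⟨hvA, u, huA, huv⟩
        rw [hNA] at h1
        rcases h1 with h1 | h1
        · exfalso
          rw [h1] at huv
          rcases (az u).1 huv.symm with h2 | h2 | h2 | h2
          · rw [h2] at huA; exact hyA huA
          · rw [h2] at huA; exact k2A huA
          · exact hu3 h2
          · rw [h2] at huA; exact k4A huA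
        · exact h1
    have hA'1 : A \ {k3} = {s} := by
      have hsA' : s ∈ A \ {k3} := ⟨hsA, hsk3⟩
      have hle : (A \ {k3}).ncard ≤ 1 := by
        by_contra hcon
        have h2 := h.P1 (A \ {k3}) (Set.sdiff_subset.trans hAU) (by omega) κ
          (bA.mono Set.sdiff_subset)
        have h3 := Set.ncard_le_ncard hNA' (Set.toFinite _)
        rw [layer_three hL.n13 hL.n14 hL.n34] at h3
        omega
      refine (Set.eq_of_subset_of_ncard_le (Set.singleton_subset_iff.2 hsA') ?_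
        (Set.toFinite _)).symm
      rw [Set.ncard_singleton]
      exact hle
    have hNs : G.neighborSet s = {n1, n3, n4} := by
      rw [hA'1, Nb_singleton] at hNA'
      refine Set.eq_of_subset_of_ncard_le hNA' ?_ (Set.toFinite _)
      rw [layer_three hL.n13 hL.n14 hL.n34]
      exact h.deg3 s (hAU hsA)
    have sn1 : n1 ≠ s := fun hh => hpA.1 (hh ▸ hsA)
    have sn2 : n2 ≠ s := fun hh => hcA (hh ▸ hsA)
    have sn3 : n3 ≠ s := fun hh => n3A (hh ▸ hsA)
    have sn4 : n4 ≠ s := fun hh => n4A (hh ▸ hsA)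
    have as' : ∀ v, G.Adj s v ↔ v = n1 ∨ v = n3 ∨ v = n4 := by
      intro v; rw [← SimpleGraph.mem_neighborSet, hNs]; simp
    have hYU : insert s X ⊆ U := Set.insert_subset (hAU hsA) hX.sub
    have hNY : Nb G (insert s X) = Nb G X := by
      ext v
      constructor
      · rintro ⟨hv1, u, hu, huv⟩
        have hvX : v ∉ X := fun hh => hv1 (Or.inr hh)
        rcases hu with hu | hu
        · rw [hu] at huv
          rcases (as' v).1 huv with rfl | rfl | rfl
          · exact q1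
          · exact q3
          · exact q4
        · exact ⟨hvX, u, hu, huv⟩
      · intro hv
        have hvs : v ≠ s := by
          rcases (mN v).1 hv with rfl | rfl | rfl | rfl <;> assumption
        obtain ⟨hvX, u, hu, huv⟩ := hv
        exact ⟨fun hh => hh.elim hvs hvX, u, Or.inr hu, huv⟩
    -- the colouring of `insert s X`
    classical
    let κ' : V → ZMod 2 := fun v => if v = s then κX k1 else κX v
    have ks : κ' s = κX k1 := if_pos rfl
    have kv : ∀ v, v ≠ s → κ' v = κX v := fun v hv => if_neg hv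
    have k13' : κX n1 = κX n3 := by
      rw [hX.bal.eq x1 e11 e1z, hX.bal.eq x3 e33 e3z]
    have k14' : κX n1 = κX n4 := by
      rw [hX.bal.eq x1 e11 e1z, hX.bal.eq x3 e34 e3z]
    have hk1 : κX k1 ≠ κX n1 := hX.bal k1 n1 x1 e11
    have bY : Bal G κ' (insert s X) := by
      intro u v hu huv
      rcases hu with hu | hu
      · rw [hu, ks]
        rw [hu] at huv
        rcases (as' v).1 huv with hv | hv | hv
        · rw [hv, kv n1 sn1]; exact hk1
        · rw [hv, kv n3 sn3, ← k13']; exact hk1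
        · rw [hv, kv n4 sn4, ← k14']; exact hk1
      · have hus : u ≠ s := fun hh => hsX (hh ▸ hu)
        have hvs : v ≠ s := by
          intro hh
          rw [hh] at huv
          rcases (as' u).1 huv.symm with hv | hv | hv
          · exact hXN u n1 hu q1 hv
          · exact hXN u n3 hu q3 hv
          · exact hXN u n4 hu q4 hv
        rw [kv u hus, kv v hvs]
        exact hX.bal u v hu huv
    have hP2 := h.P2 (insert s X) hYU κ' bY (by rw [hNY, hN4])
    have hb := beta_le κ' (Nb G (insert s X))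
    rw [hNY, hN4] at hb
    rw [hNY] at hP2
    have hfX : fden G X = 2 := by
      have s4 : fden G ({k4} : Set V) = 1 := by
        have h1 := fden_insert G (Set.notMem_empty k4)
        rw [LawfulSingleton.insert_empty_eq, fden_empty, Set.sdiff_empty, hL.Nk4,
          layer_three (hXN z n4 xz q4) (hXN z n1 xz q1) hL.n14.symm] at h1
        rw [h1]; norm_num
      have s3 : fden G ({k3, k4} : Set V) = 2 := by
        rw [fden_insert G (by simp [hL.k34]), s4]
        have h1 : G.neighborSet k3 \ {k4} = G.neighborSet k3 := by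
          rw [sdiff_eq_left, Set.disjoint_singleton_right, SimpleGraph.mem_neighborSet, ak3]
          push Not
          exact ⟨zk4.symm, hXN k4 n3 x4 q3, hXN k4 n4 x4 q4⟩
        rw [h1, hL.Nk3, layer_three (hXN z n3 xz q3) (hXN z n4 xz q4) hL.n34]
        norm_num
      have s2 : fden G ({k2, k3, k4} : Set V) = 3 := by
        rw [fden_insert G (by simp [hL.k23, hL.k24]), s3]
        have h1 : G.neighborSet k2 \ {k3, k4} = G.neighborSet k2 := by
          rw [sdiff_eq_left, Set.disjoint_left]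
          intro v hv hv'
          simp only [Set.mem_insert_iff, Set.mem_singleton_iff] at hv'
          rcases (ak2 v).1 hv with h2 | h2 | h2 <;> rcases hv' with h3 | h3
          · exact zk3 (h2.symm.trans h3)
          · exact zk4 (h2.symm.trans h3)
          · exact hXN k3 n2 x3 q2 (h3.symm.trans h2)
          · exact hXN k4 n2 x4 q2 (h3.symm.trans h2)
          · exact hXN k3 n3 x3 q3 (h3.symm.trans h2)
          · exact hXN k4 n3 x4 q3 (h3.symm.trans h2)
        rw [h1, hL.Nk2, layer_three (hXN z n2 xz q2) (hXN z n3 xz q3) hL.n23]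
        norm_num
      have s1 : fden G ({k1, k2, k3, k4} : Set V) = 4 := by
        rw [fden_insert G (by simp [hL.k12, hL.k13, hL.k14]), s2]
        have h1 : G.neighborSet k1 \ {k2, k3, k4} = G.neighborSet k1 := by
          rw [sdiff_eq_left, Set.disjoint_left]
          intro v hv hv'
          simp only [Set.mem_insert_iff, Set.mem_singleton_iff] at hv'
          rcases (ak1 v).1 hv with h2 | h2 | h2 <;> rcases hv' with h3 | h3 | h3
          · exact zk2 (h2.symm.trans h3)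
          · exact zk3 (h2.symm.trans h3)
          · exact zk4 (h2.symm.trans h3)
          · exact hXN k2 n1 x2 q1 (h3.symm.trans h2)
          · exact hXN k3 n1 x3 q1 (h3.symm.trans h2)
          · exact hXN k4 n1 x4 q1 (h3.symm.trans h2)
          · exact hXN k2 n2 x2 q2 (h3.symm.trans h2)
          · exact hXN k3 n2 x3 q2 (h3.symm.trans h2)
          · exact hXN k4 n2 x4 q2 (h3.symm.trans h2)
        rw [h1, hL.Nk1, layer_three (hXN z n1 xz q1) (hXN z n2 xz q2) hL.n12]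
        norm_num
      have h0 : X = insert z ({k1, k2, k3, k4} : Set V) := hL.eq
      rw [h0, fden_insert G (by simp [zk1, zk2, zk3, zk4]), s1, hL.Nz, Set.sdiff_self]
      simp
    have hfY : fden G (insert s X) = 3 := by
      rw [fden_insert G hsX, hfX]
      have h1 : G.neighborSet s \ X = G.neighborSet s := by
        rw [sdiff_eq_left, Set.disjoint_left]
        intro v hv hvX
        rw [hNs] at hv
        simp only [Set.mem_insert_iff, Set.mem_singleton_iff] at hv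
        rcases hv with h2 | h2 | h2
        · exact hXN v n1 hvX q1 h2
        · exact hXN v n3 hvX q3 h2
        · exact hXN v n4 hvX q4 h2
      rw [h1, hNs, layer_three hL.n13 hL.n14 hL.n34]
      norm_num
    rw [hfY] at hP2
    push_cast at hb
    linarith
  · exact hno k4 hL.k14.symm ⟨e41, e4z⟩
  · -- the obstacle `O3`
    have k2W : k2 ∉ W := fun hh => hW.tri e12 hh e22.symm (Or.inr e2z.symm)
    have k4W : k4 ∉ W := fun hh => hW.nocom k4 hh ⟨e41, e4z⟩
    have k3W : k3 ∈ W := by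
      obtain ⟨-, u, hu, huz⟩ := hW.qN
      rcases (az u).1 huz.symm with h1 | h1 | h1 | h1
      · rw [h1] at hu; exact absurd hu hW.yN.1
      · rw [h1] at hu; exact absurd hu k2W
      · rw [h1] at hu; exact hu
      · rw [h1] at hu; exact absurd hu k4W
    have k2N : k2 ∈ Nb G W := ⟨k2W, n2, hW.cW, e22.symm⟩
    have n3W : n3 ∉ W := by
      intro hh
      have a1 : κ k2 ≠ κ n3 := (hW.bal n3 k2 hh e23.symm).symm
      have a2 : κ n3 = κ z := hW.bal.eq k3W e33 e3z
      have a3 : κ k2 ≠ κ n2 := (hW.bal n2 k2 hW.cW e22.symm).symm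
      have a4 : κ z ≠ κ n2 := by
        rw [← hW.kpq, hW.kpy]
        exact (hW.bal n2 k1 hW.cW e12.symm).symm
      exact a1 ((eq_of_ne_of_ne a3 a4).trans a2.symm)
    have n3N : n3 ∈ Nb G W := ⟨n3W, k3, k3W, e33⟩
    have six : ∀ v, v ∈ Nb G W → v ≠ n1 → v ≠ z → v ≠ k1 → v ≠ k2 → v ≠ n3 → False := by
      intro v hv hv1 hv2 hv3 hv4 hv5
      have hsub : ({v, n1, z, k1, k2, n3} : Set V) ⊆ Nb G W := by
        intro w hw
        simp only [Set.mem_insert_iff, Set.mem_singleton_iff] at hw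
        rcases hw with rfl | rfl | rfl | rfl | rfl | rfl
        · exact hv
        · exact hW.pN
        · exact hW.qN
        · exact hW.yN
        · exact k2N
        · exact n3N
      have h1 := Set.ncard_le_ncard hsub (Set.toFinite _)
      rw [hW.five, Set.ncard_insert_of_notMem (by simp [hv1, hv2, hv3, hv4, hv5]) (Set.toFinite _),
        ncard5 (hXN z n1 xz q1).symm (hXN k1 n1 x1 q1).symm (hXN k2 n1 x2 q1).symm hL.n13 zk1 zk2
          (hXN z n3 xz q3) hL.k12 (hXN k1 n3 x1 q3) (hXN k2 n3 x2 q3)] at h1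
      omega
    rcases mem_union_Nb k3W e34 with hh | hh
    · exact six k4 ⟨k4W, n4, hh, e44.symm⟩ (hXN k4 n1 x4 q1) zk4.symm hL.k14.symm hL.k24.symm
        (hXN k4 n3 x4 q3)
    · exact six n4 hh hL.n14.symm (hXN z n4 xz q4).symm (hXN k1 n4 x1 q4).symm
        (hXN k2 n4 x2 q4).symm hL.n34.symm

end Pool.Agent.Helper51.GX
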