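import Pool.Agent.Helper51.GX.Exits
import Pool.Agent.Helper51.TDC.Small

/-!
# The global part: balanced four-sets with two or three elements
-/

set_option autoImplicit false

namespace Pool.Agent.Helper51.GX

open SimpleGraph Pool.Agent.Helper57.TOK Pool.Agent.Helper57.TD

variable {V : Type*}

/-- The local facts on a balanced set which are used below. -/
private structure Loc (Z : SimpleGraph V) (κ : V → ZMod 2) (S : Set V) : Prop where
  bal : Bal Z κ S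
  deg3 : ∀ y ∈ S, 3 ≤ (Z.neighborSet y).ncard
  T3 : ∀ c d, d ∈ S → c ≠ d → (Z.neighborSet d).ncard = 3 →
    ¬ Z.neighborSet d ⊆ Z.neighborSet c

private lemma GCore.loc {G : SimpleGraph V} {U : Set V} (h : GCore G U) {A : Set V}
    {κ : V → ZMod 2} (hA : A ⊆ U) (bA : Bal G κ A) : Loc G κ A where
  bal := bA
  deg3 := fun y hy => h.deg3 y (hA hy)
  T3 := fun c d hd => h.T3 c d (hA hd)

private lemma small_col {a b c : ZMod 2} (h1 : a ≠ c) (h2 : b ≠ c) : a = b :=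
  eq_of_ne_of_ne h1 h2

private lemma small_ins {s : Set V} {x p q : V} (hx : x ∈ s) (h : s \ {x} = {p, q}) :
    s = {x, p, q} := by
  rw [← h]
  exact (Set.insert_sdiff_self_of_mem hx).symm

/-- The singleton. -/
private lemma small_f1 [Finite V] (Z : SimpleGraph V) (x : V) :
    fden Z {x} = ((Z.neighborSet x).ncard : ℤ) - 2 := by
  have h := fden_insert Z (Set.notMem_empty x)
  rw [LawfulSingleton.insert_empty_eq, fden_empty, Set.sdiff_empty] at h
  rw [h]; ring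

section core

variable [Finite V] {Z : SimpleGraph V} {κ : V → ZMod 2} {S : Set V}

/-- Two adjacent vertices. -/
private lemma small_adj (h : Loc Z κ S) {x1 x2 : V} (hx1 : x1 ∈ S) (hx2 : x2 ∈ S) (hadj : Z.Adj x1 x2) :
    Nb Z {x1, x2} = (Z.neighborSet x1 \ {x2}) ∪ (Z.neighborSet x2 \ {x1}) ∧
    (∀ p ∈ Z.neighborSet x1 \ {x2}, κ p = κ x2) ∧ (∀ p ∈ Z.neighborSet x2 \ {x1}, κ p = κ x1) ∧
    ((Z.neighborSet x1 \ {x2}).ncard : ℤ) = ((Z.neighborSet x1).ncard : ℤ) - 1 ∧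
    ((Z.neighborSet x2 \ {x1}).ncard : ℤ) = ((Z.neighborSet x2).ncard : ℤ) - 1 ∧
    ((Nb Z {x1, x2}).ncard : ℤ) = ((Z.neighborSet x1).ncard : ℤ) + (Z.neighborSet x2).ncard - 2 ∧
    fden Z {x1, x2} = ((Z.neighborSet x1).ncard : ℤ) + (Z.neighborSet x2).ncard - 5 := by
  have hk : κ x1 ≠ κ x2 := h.bal _ _ hx1 hadj
  have e1 : Nb Z {x1, x2} = (Z.neighborSet x1 \ {x2}) ∪ (Z.neighborSet x2 \ {x1}) := by
    ext v
    rw [mem_Nb]
    simp only [Set.mem_union, Set.mem_sdiff, SimpleGraph.mem_neighborSet, Set.mem_singleton_iff,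
      Set.mem_insert_iff, exists_eq_or_imp, exists_eq_left, not_or]
    constructor
    · rintro ⟨⟨h1, h2⟩, h3 | h3⟩
      · exact Or.inl ⟨h3, h2⟩
      · exact Or.inr ⟨h3, h1⟩
    · rintro (⟨h1, h2⟩ | ⟨h1, h2⟩)
      · exact ⟨⟨h1.ne', h2⟩, Or.inl h1⟩
      · exact ⟨⟨h2, h1.ne'⟩, Or.inr h1⟩
  have c1 : ∀ p ∈ Z.neighborSet x1 \ {x2}, κ p = κ x2 := fun p hp => h.bal.eq hx1 hp.1 hadj
  have c2 : ∀ p ∈ Z.neighborSet x2 \ {x1}, κ p = κ x1 := fun p hp => h.bal.eq hx2 hp.1 hadj.symm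
  have n1 : (Z.neighborSet x1 \ {x2}).ncard + 1 = (Z.neighborSet x1).ncard :=
    Set.ncard_sdiff_singleton_add_one hadj (Set.toFinite _)
  have n2 : (Z.neighborSet x2 \ {x1}).ncard + 1 = (Z.neighborSet x2).ncard :=
    Set.ncard_sdiff_singleton_add_one hadj.symm (Set.toFinite _)
  have n1' : ((Z.neighborSet x1 \ {x2}).ncard : ℤ) = ((Z.neighborSet x1).ncard : ℤ) - 1 := by
    rw [← n1]; push_cast; ring
  have n2' : ((Z.neighborSet x2 \ {x1}).ncard : ℤ) = ((Z.neighborSet x2).ncard : ℤ) - 1 := by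
    rw [← n2]; push_cast; ring
  refine ⟨e1, c1, c2, n1', n2', ?_, ?_⟩
  · rw [e1, Set.ncard_union_eq _ (Set.toFinite _) (Set.toFinite _)]
    · push_cast
      rw [n1', n2']; ring
    · rw [Set.disjoint_left]
      intro p hp hp'
      exact hk ((c2 p hp').symm.trans (c1 p hp))
  · have h3 := fden_insert Z (y := x1) (Y := {x2})
      (fun hh => hadj.ne (Set.mem_singleton_iff.1 hh))
    rw [h3, small_f1, n1']
    ring

/-- Two vertices of different colours which are not adjacent. -/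
private lemma small_diff (h : Loc Z κ S) {x1 x2 : V} (hx1 : x1 ∈ S) (hx2 : x2 ∈ S)
    (hk : κ x1 ≠ κ x2) (hadj : ¬ Z.Adj x1 x2) : 6 ≤ (Nb Z {x1, x2}).ncard := by
  have e1 : Nb Z {x1, x2} = Z.neighborSet x1 ∪ Z.neighborSet x2 := by
    ext v
    rw [mem_Nb]
    simp only [Set.mem_union, SimpleGraph.mem_neighborSet, Set.mem_singleton_iff,
      Set.mem_insert_iff, exists_eq_or_imp, exists_eq_left, not_or]
    constructor
    · rintro ⟨-, h3⟩
      exact h3
    · rintro (h1 | h1)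
      · exact ⟨⟨h1.ne', fun hh => hadj (hh ▸ h1)⟩, Or.inl h1⟩
      · exact ⟨⟨fun hh => hadj (hh ▸ h1.symm), h1.ne'⟩, Or.inr h1⟩
  rw [e1, Set.ncard_union_eq _ (Set.toFinite _) (Set.toFinite _)]
  · have := h.deg3 x1 hx1
    have := h.deg3 x2 hx2
    omega
  · rw [Set.disjoint_left]
    intro p hp hp'
    have h1 := h.bal _ _ hx1 hp
    have h2 := h.bal _ _ hx2 hp'
    exact hk (small_col h1 h2)

/-- Two vertices of one colour. -/
private lemma small_same (h : Loc Z κ S) {x1 x2 : V} (hx1 : x1 ∈ S) (hx2 : x2 ∈ S) (hne : x1 ≠ x2) (hk : κ x1 = κ x2) :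
    Nb Z {x1, x2} = Z.neighborSet x1 ∪ Z.neighborSet x2 ∧ Mono κ (Nb Z {x1, x2}) ∧
    fden Z {x1, x2} = ((Z.neighborSet x1).ncard : ℤ) + (Z.neighborSet x2).ncard - 4 := by
  have hadj : ¬ Z.Adj x1 x2 := fun hh => h.bal _ _ hx1 hh hk
  have e1 : Nb Z {x1, x2} = Z.neighborSet x1 ∪ Z.neighborSet x2 := by
    ext v
    rw [mem_Nb]
    simp only [Set.mem_union, SimpleGraph.mem_neighborSet, Set.mem_singleton_iff,
      Set.mem_insert_iff, exists_eq_or_imp, exists_eq_left, not_or]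
    constructor
    · rintro ⟨-, h3⟩
      exact h3
    · rintro (h1 | h1)
      · exact ⟨⟨h1.ne', fun hh => hadj (hh ▸ h1)⟩, Or.inl h1⟩
      · exact ⟨⟨fun hh => hadj (hh ▸ h1.symm), h1.ne'⟩, Or.inr h1⟩
  refine ⟨e1, ?_, ?_⟩
  · have hc : ∀ v ∈ Nb Z {x1, x2}, κ v ≠ κ x1 := by
      intro v hv
      rw [e1] at hv
      rcases hv with hv | hv
      · exact (h.bal _ _ hx1 hv).symm
      · rw [hk]; exact (h.bal _ _ hx2 hv).symm
    intro a ha b hb
    exact small_col (hc a ha) (hc b hb)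
  · have h3 := fden_insert Z (y := x1) (Y := {x2}) (fun hh => hne (Set.mem_singleton_iff.1 hh))
    have h4 : Z.neighborSet x1 \ {x2} = Z.neighborSet x1 := by
      ext v
      simp only [Set.mem_sdiff, SimpleGraph.mem_neighborSet, Set.mem_singleton_iff]
      exact ⟨fun hh => hh.1, fun hh => ⟨hh, fun h5 => hadj (h5 ▸ hh)⟩⟩
    rw [h3, small_f1, h4]
    ring

/-- Three vertices of one colour. -/
private lemma small_same3 (h : Loc Z κ S) {a b c : V} (ha0 : a ∈ S) (hb0 : b ∈ S) (hc0 : c ∈ S) (hab : a ≠ b) (hac : a ≠ c)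
    (hbc : b ≠ c) (h1 : κ a = κ c) (h2 : κ b = κ c) :
    Nb Z {a, b, c} = Z.neighborSet a ∪ (Z.neighborSet b ∪ Z.neighborSet c) ∧
    Mono κ (Nb Z {a, b, c}) ∧
    fden Z {a, b, c} = ((Z.neighborSet a).ncard : ℤ) + (Z.neighborSet b).ncard +
      (Z.neighborSet c).ncard - 6 := by
  have nab : ¬ Z.Adj a b := fun hh => h.bal _ _ ha0 hh (h1.trans h2.symm)
  have nac : ¬ Z.Adj a c := fun hh => h.bal _ _ ha0 hh h1
  have nbc : ¬ Z.Adj b c := fun hh => h.bal _ _ hb0 hh h2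
  have e1 : Nb Z {a, b, c} = Z.neighborSet a ∪ (Z.neighborSet b ∪ Z.neighborSet c) := by
    ext v
    rw [mem_Nb]
    simp only [Set.mem_union, SimpleGraph.mem_neighborSet, Set.mem_singleton_iff,
      Set.mem_insert_iff, exists_eq_or_imp, exists_eq_left, not_or]
    constructor
    · rintro ⟨-, h3⟩
      exact h3
    · rintro (h1 | h1 | h1)
      · exact ⟨⟨h1.ne', fun hh => nab (hh ▸ h1), fun hh => nac (hh ▸ h1)⟩, Or.inl h1⟩
      · exact ⟨⟨fun hh => nab (hh ▸ h1.symm), h1.ne', fun hh => nbc (hh ▸ h1)⟩,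
          Or.inr (Or.inl h1)⟩
      · exact ⟨⟨fun hh => nac (hh ▸ h1.symm), fun hh => nbc (hh ▸ h1.symm), h1.ne'⟩,
          Or.inr (Or.inr h1)⟩
  refine ⟨e1, ?_, ?_⟩
  · have hc : ∀ v ∈ Nb Z {a, b, c}, κ v ≠ κ c := by
      intro v hv
      rw [e1] at hv
      rcases hv with hv | hv | hv
      · rw [← h1]; exact (h.bal _ _ ha0 hv).symm
      · rw [← h2]; exact (h.bal _ _ hb0 hv).symm
      · exact (h.bal _ _ hc0 hv).symm
    intro x hx y hy
    exact small_col (hc x hx) (hc y hy)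
  · have h3 := fden_insert Z (y := a) (Y := {b, c}) (by simp [hab, hac])
    have h4 : Z.neighborSet a \ {b, c} = Z.neighborSet a := by
      ext v
      simp only [Set.mem_sdiff, SimpleGraph.mem_neighborSet, Set.mem_singleton_iff,
        Set.mem_insert_iff, not_or]
      exact ⟨fun hh => hh.1, fun hh => ⟨hh, fun h5 => nab (h5 ▸ hh), fun h5 => nac (h5 ▸ hh)⟩⟩
    rw [h3, (small_same h hb0 hc0 hbc h2).2.2, h4]
    ring

/-- Three vertices of two colours. -/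
private lemma small_mixed (h : Loc Z κ S) {w y1 y2 : V} (hw : w ∈ S) (hy1 : y1 ∈ S)
    (hy2 : y2 ∈ S) (hyy : y1 ≠ y2) (hk : κ y1 = κ y2) (hk' : κ w ≠ κ y1)
    (h4 : (Nb Z {w, y1, y2}).ncard = 4) :
    Z.Adj w y1 ∧ Z.Adj w y2 ∧
    Nb Z {w, y1, y2} = (Z.neighborSet w \ {y1, y2}) ∪
      ((Z.neighborSet y1 ∪ Z.neighborSet y2) \ {w}) ∧
    (∀ p ∈ Z.neighborSet w \ {y1, y2}, κ p = κ y1) ∧
    (∀ p ∈ (Z.neighborSet y1 ∪ Z.neighborSet y2) \ {w}, κ p = κ w) ∧
    (Z.neighborSet w \ {y1, y2}).ncard + 2 = (Z.neighborSet w).ncard ∧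
    (Z.neighborSet w \ {y1, y2}).ncard +
      ((Z.neighborSet y1 ∪ Z.neighborSet y2) \ {w}).ncard = 4 ∧
    fden Z {w, y1, y2} = ((Z.neighborSet w \ {y1, y2}).ncard : ℤ) + (Z.neighborSet y1).ncard +
      (Z.neighborSet y2).ncard - 6 ∧ ¬ Mono κ (Nb Z {w, y1, y2}) := by
  have nyy : ¬ Z.Adj y1 y2 := fun hh => h.bal _ _ hy1 hh hk
  have hwy1 : w ≠ y1 := fun hh => hk' (hh ▸ rfl)
  have hwy2 : w ≠ y2 := fun hh => hk' (hk ▸ hh ▸ rfl)
  have e1 : Nb Z {w, y1, y2} = (Z.neighborSet w \ {y1, y2}) ∪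
      ((Z.neighborSet y1 ∪ Z.neighborSet y2) \ {w}) := by
    ext v
    rw [mem_Nb]
    simp only [Set.mem_union, Set.mem_sdiff, SimpleGraph.mem_neighborSet, Set.mem_singleton_iff,
      Set.mem_insert_iff, exists_eq_or_imp, exists_eq_left, not_or]
    constructor
    · rintro ⟨⟨h1, h2, h3⟩, h5 | h5 | h5⟩
      · exact Or.inl ⟨h5, h2, h3⟩
      · exact Or.inr ⟨Or.inl h5, h1⟩
      · exact Or.inr ⟨Or.inr h5, h1⟩
    · rintro (⟨h1, h2, h3⟩ | ⟨h1 | h1, h2⟩)
      · exact ⟨⟨h1.ne', h2, h3⟩, Or.inl h1⟩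
      · exact ⟨⟨h2, h1.ne', fun hh => nyy (hh ▸ h1)⟩, Or.inr (Or.inl h1)⟩
      · exact ⟨⟨h2, fun hh => nyy (hh ▸ h1.symm), h1.ne'⟩, Or.inr (Or.inr h1)⟩
  have c1 : ∀ p ∈ Z.neighborSet w \ {y1, y2}, κ p = κ y1 := fun p hp =>
    small_col (h.bal _ _ hw hp.1).symm hk'.symm
  have c2 : ∀ p ∈ (Z.neighborSet y1 ∪ Z.neighborSet y2) \ {w}, κ p = κ w := by
    rintro p ⟨hp | hp, -⟩
    · exact small_col (h.bal _ _ hy1 hp).symm hk'
    · exact small_col (h.bal _ _ hy2 hp).symm (hk ▸ hk')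
  have hdis : Disjoint (Z.neighborSet w \ {y1, y2})
      ((Z.neighborSet y1 ∪ Z.neighborSet y2) \ {w}) := by
    rw [Set.disjoint_left]
    intro p hp hp'
    exact hk' ((c2 p hp').symm.trans (c1 p hp))
  have h5 : (Z.neighborSet w \ {y1, y2}).ncard +
      ((Z.neighborSet y1 ∪ Z.neighborSet y2) \ {w}).ncard = 4 := by
    rw [← h4, e1, Set.ncard_union_eq hdis (Set.toFinite _) (Set.toFinite _)]
  have d0 := h.deg3 w hw
  have d1 := h.deg3 y1 hy1
  have d2 := h.deg3 y2 hy2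
  have hU1 : Z.neighborSet y1 \ {w} ⊆ (Z.neighborSet y1 ∪ Z.neighborSet y2) \ {w} :=
    fun v hv => ⟨Or.inl hv.1, hv.2⟩
  have hU2 : Z.neighborSet y2 \ {w} ⊆ (Z.neighborSet y1 ∪ Z.neighborSet y2) \ {w} :=
    fun v hv => ⟨Or.inr hv.1, hv.2⟩
  have hU1' := Set.ncard_le_ncard hU1 (Set.toFinite _)
  have hU2' := Set.ncard_le_ncard hU2 (Set.toFinite _)
  have hP1 : ∀ a b : V, ¬ Z.Adj w b → (Z.neighborSet w).ncard ≤
      (Z.neighborSet w \ {a, b}).ncard + 1 := by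
    intro a b hb
    have : Z.neighborSet w \ {a, b} = Z.neighborSet w \ {a} := by
      ext v
      simp only [Set.mem_sdiff, SimpleGraph.mem_neighborSet, Set.mem_singleton_iff,
        Set.mem_insert_iff, not_or]
      exact ⟨fun hh => ⟨hh.1, hh.2.1⟩, fun hh => ⟨hh.1, hh.2, fun h6 => hb (h6 ▸ hh.1)⟩⟩
    rw [this]
    have := Set.pred_ncard_le_ncard_sdiff_singleton (Z.neighborSet w) a
    omega
  have hQ : ∀ y : V, ¬ Z.Adj w y → (Z.neighborSet y \ {w}).ncard = (Z.neighborSet y).ncard := by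
    intro y hy
    rw [Set.sdiff_singleton_eq_self]
    exact fun hh => hy (SimpleGraph.mem_neighborSet _ _ _ |>.1 hh).symm
  have hw1 : Z.Adj w y1 := by
    by_contra hn
    have h6 := hQ y1 hn
    have h7 := hP1 y2 y1 hn
    rw [Set.pair_comm] at h7
    omega
  have hw2 : Z.Adj w y2 := by
    by_contra hn
    have h6 := hQ y2 hn
    have h7 := hP1 y1 y2 hn
    omega
  have hP2 : (Z.neighborSet w \ {y1, y2}).ncard + 2 = (Z.neighborSet w).ncard := by
    have hsub : ({y1, y2} : Set V) ⊆ Z.neighborSet w := by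
      rintro v (rfl | hv)
      · exact hw1
      · rw [Set.mem_singleton_iff] at hv
        rw [hv]; exact hw2
    have := Set.ncard_sdiff_add_ncard_of_subset hsub (Set.toFinite _)
    rw [Set.ncard_pair hyy] at this
    exact this
  have hpos : 0 < (Z.neighborSet w \ {y1, y2}).ncard := by omega
  have hUpos : 0 < ((Z.neighborSet y1 ∪ Z.neighborSet y2) \ {w}).ncard := by
    have := Set.ncard_sdiff_singleton_add_one (s := Z.neighborSet y1) (a := w) hw1.symm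
      (Set.toFinite _)
    omega
  refine ⟨hw1, hw2, e1, c1, c2, hP2, h5, ?_, ?_⟩
  · have h3 := fden_insert Z (y := w) (Y := {y1, y2}) (by simp [hwy1, hwy2])
    rw [h3, (small_same h hy1 hy2 hyy hk).2.2]
    ring
  · intro hm
    obtain ⟨p, hp⟩ := (Set.ncard_pos (Set.toFinite _)).1 hpos
    obtain ⟨u, hu⟩ := (Set.ncard_pos (Set.toFinite _)).1 hUpos
    have h6 := hm p (by rw [e1]; exact Or.inl hp) u (by rw [e1]; exact Or.inr hu)
    rw [c1 p hp, c2 u hu] at h6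
    exact hk' h6.symm

end core

/-! ### The classification -/

private lemma small_one [Finite V] {s t : Set V} {e g : V} (hs : s.ncard = 3)
    (hI : s ∩ t = {e, g}) (heg : e ≠ g) : ∃ a, s = {a, e, g} ∧ a ≠ e ∧ a ≠ g ∧ a ∉ t := by
  have h1 := Set.ncard_inter_add_ncard_sdiff_eq_ncard s t (Set.toFinite _)
  rw [hI, Set.ncard_pair heg, hs] at h1
  obtain ⟨a, ha⟩ := Set.ncard_eq_one.1 (by omega : (s \ t).ncard = 1)
  have hat : a ∈ s \ t := by rw [ha]; rfl
  have het : e ∈ s ∩ t := by rw [hI]; simp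
  have hgt : g ∈ s ∩ t := by rw [hI]; simp
  refine ⟨a, ?_, fun hh => hat.2 (hh ▸ het.2), fun hh => hat.2 (hh ▸ hgt.2), hat.2⟩
  rw [← Set.inter_union_sdiff s t, hI, ha]
  ext v
  simp only [Set.mem_union, Set.mem_insert_iff, Set.mem_singleton_iff]
  tauto
private lemma small_H [Finite V] {Z : SimpleGraph V} {κ : V → ZMod 2} {S : Set V}
    (h : Loc Z κ S) {x1 x2 : V} (hx1 : x1 ∈ S) (hx2 : x2 ∈ S) (hadj : Z.Adj x1 x2)
    (h4 : (Nb Z {x1, x2}).ncard = 4) : ∃ p q r s, IsH Z {x1, x2} x1 x2 p q r s := by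
  obtain ⟨e1, c1, c2, n1, n2, n3, -⟩ := small_adj h hx1 hx2 hadj
  have d1 := h.deg3 x1 hx1
  have d2 := h.deg3 x2 hx2
  rw [h4] at n3
  push_cast at n3
  obtain ⟨p, q, hpq, hP⟩ := Set.ncard_eq_two.1
    (by omega : (Z.neighborSet x1 \ {x2}).ncard = 2)
  obtain ⟨r, s, hrs, hR⟩ := Set.ncard_eq_two.1
    (by omega : (Z.neighborSet x2 \ {x1}).ncard = 2)
  have hp : p ∈ Z.neighborSet x1 \ {x2} := by rw [hP]; simp
  have hq : q ∈ Z.neighborSet x1 \ {x2} := by rw [hP]; simp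
  have hr : r ∈ Z.neighborSet x2 \ {x1} := by rw [hR]; simp
  have hs : s ∈ Z.neighborSet x2 \ {x1} := by rw [hR]; simp
  exact ⟨p, q, r, s,
    { eq := rfl
      n1 := small_ins hadj hP
      n2 := small_ins hadj.symm hR
      pq := hpq
      px := fun hh => hp.2 (Set.mem_singleton_iff.2 hh)
      qx := fun hh => hq.2 (Set.mem_singleton_iff.2 hh)
      rs := hrs
      rx := fun hh => hr.2 (Set.mem_singleton_iff.2 hh)
      sx := fun hh => hs.2 (Set.mem_singleton_iff.2 hh) }⟩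
/-- Four-sets with two elements. -/
theorem two_class [Finite V] {G : SimpleGraph V} {U : Set V} (hG : GCore G U) {A : Set V}
    {κ : V → ZMod 2} (hA : A ⊆ U) (bA : Bal G κ A) (h2 : A.ncard = 2)
    (h4 : (Nb G A).ncard = 4) :
    (∃ w1 w2 a b e g, IsL1 G A w1 w2 a b e g) ∨ (∃ x1 x2 p q r s, IsH G A x1 x2 p q r s) := by
  have hP2 := hG.P2 A hA κ bA h4
  obtain ⟨x1, x2, hne, rfl⟩ := Set.ncard_eq_two.1 h2
  have h := hG.loc hA bA
  have hx1 : x1 ∈ ({x1, x2} : Set V) := by simp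
  have hx2 : x2 ∈ ({x1, x2} : Set V) := by simp
  have d1 := h.deg3 x1 hx1
  have d2 := h.deg3 x2 hx2
  by_cases hadj : G.Adj x1 x2
  · right
    obtain ⟨p, q, r, s, hH⟩ := small_H h hx1 hx2 hadj h4
    exact ⟨x1, x2, p, q, r, s, hH⟩
  · by_cases hk : κ x1 = κ x2
    · left
      obtain ⟨e1, hm, hf⟩ := small_same h hx1 hx2 hne hk
      rw [beta_of_mono hm, h4, hf] at hP2
      push_cast at hP2
      rw [e1] at h4
      have s1 : G.neighborSet x1 ⊆ G.neighborSet x1 ∪ G.neighborSet x2 := Set.subset_union_left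
      have s2 : G.neighborSet x2 ⊆ G.neighborSet x1 ∪ G.neighborSet x2 := Set.subset_union_right
      rcases (by omega : ((G.neighborSet x1).ncard = 3 ∧ (G.neighborSet x2).ncard = 3) ∨
        ((G.neighborSet x1).ncard = 3 ∧ (G.neighborSet x2).ncard = 4) ∨
        ((G.neighborSet x1).ncard = 4 ∧ (G.neighborSet x2).ncard = 3)) with
        ⟨e3, e4⟩ | ⟨h6, h7⟩ | ⟨h6, h7⟩
      · have h5 := Set.ncard_union_add_ncard_inter (G.neighborSet x1) (G.neighborSet x2)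
        obtain ⟨e, g, heg, hI⟩ := Set.ncard_eq_two.1
          (by omega : (G.neighborSet x1 ∩ G.neighborSet x2).ncard = 2)
        obtain ⟨a, ha, ha1, ha2, ha3⟩ := small_one e3 hI heg
        obtain ⟨b, hb, hb1, hb2, hb3⟩ := small_one e4 (by rw [Set.inter_comm]; exact hI) heg
        refine ⟨x1, x2, a, b, e, g,
          { eq := rfl
            ne := hne
            n1 := ha
            n2 := hb
            ab := fun hh => ha3 ?_
            ae := ha1
            ag := ha2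
            be := hb1
            bg := hb2
            eg := heg }⟩
        rw [hb, hh]; simp
      · have e := Set.eq_of_subset_of_ncard_le s2 (by omega) (Set.toFinite _)
        exact absurd (by rw [e]; exact s1) (h.T3 x2 x1 hx1 hne.symm h6)
      · have e := Set.eq_of_subset_of_ncard_le s1 (by omega) (Set.toFinite _)
        exact absurd (by rw [e]; exact s2) (h.T3 x1 x2 hx2 hne h7)
    · have := small_diff h hx1 hx2 hk hadj
      omega
private lemma small_X3 [Finite V] {Z : SimpleGraph V} {κ : V → ZMod 2} {S : Set V}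
    (h : Loc Z κ S) {w y1 y2 : V} (hw : w ∈ S) (hy1 : y1 ∈ S)
    (hy2 : y2 ∈ S) (hyy : y1 ≠ y2) (hk : κ y1 = κ y2) (hk' : κ w ≠ κ y1)
    (h4 : (Nb Z {w, y1, y2}).ncard = 4) (hf : fden Z {w, y1, y2} ≤ 1) :
    ∃ n1 n2 n3 n4, IsX3 Z {w, y1, y2} w y1 y2 n1 n2 n3 n4 := by
  obtain ⟨a1, a2, e1, c1, c2, n1, n2, n3, -⟩ := small_mixed h hw hy1 hy2 hyy hk hk' h4
  have d0 := h.deg3 w hw
  have d1 := h.deg3 y1 hy1
  have d2 := h.deg3 y2 hy2
  rw [n3] at hf
  have m1 := Set.ncard_sdiff_singleton_add_one (s := Z.neighborSet y1) (a := w) a1.symm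
    (Set.toFinite _)
  have m2 := Set.ncard_sdiff_singleton_add_one (s := Z.neighborSet y2) (a := w) a2.symm
    (Set.toFinite _)
  obtain ⟨n4, hP⟩ := Set.ncard_eq_one.1
    (by omega : (Z.neighborSet w \ {y1, y2}).ncard = 1)
  have hU : (Z.neighborSet y1 ∪ Z.neighborSet y2) \ {w} =
      (Z.neighborSet y1 \ {w}) ∪ (Z.neighborSet y2 \ {w}) := Set.union_sdiff_distrib
  have m3 := Set.ncard_union_add_ncard_inter (Z.neighborSet y1 \ {w}) (Z.neighborSet y2 \ {w})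
  rw [← hU] at m3
  obtain ⟨z, hz⟩ := Set.ncard_eq_one.1
    (by omega : ((Z.neighborSet y1 \ {w}) ∩ (Z.neighborSet y2 \ {w})).ncard = 1)
  have hzI : z ∈ (Z.neighborSet y1 \ {w}) ∩ (Z.neighborSet y2 \ {w}) := by rw [hz]; rfl
  have hq : ∀ s : Set V, s.ncard = 2 → z ∈ s → ∃ a, s = {a, z} ∧ a ≠ z := by
    intro s hs hzs
    obtain ⟨a, b, hab, rfl⟩ := Set.ncard_eq_two.1 hs
    rcases hzs with rfl | hzs
    · exact ⟨b, Set.pair_comm _ _, hab.symm⟩
    · rw [Set.mem_singleton_iff] at hzs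
      subst hzs
      exact ⟨a, rfl, hab⟩
  obtain ⟨u1, hu1, hu1z⟩ := hq _ (by omega) hzI.1
  obtain ⟨u2, hu2, hu2z⟩ := hq _ (by omega) hzI.2
  have k1 : u1 ∈ Z.neighborSet y1 \ {w} := by rw [hu1]; simp
  have k2 : u2 ∈ Z.neighborSet y2 \ {w} := by rw [hu2]; simp
  have k4 : n4 ∈ Z.neighborSet w \ {y1, y2} := by rw [hP]; rfl
  have k4' := k4.2
  simp only [Set.mem_insert_iff, Set.mem_singleton_iff, not_or] at k4'
  refine ⟨u1, u2, z, n4,
    { eq := rfl
      nw := ?_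
      ny1 := small_ins a1.symm hu1
      ny2 := small_ins a2.symm hu2
      yy := hyy
      y1n := fun hh => k4'.1 hh.symm
      y2n := fun hh => k4'.2 hh.symm
      wn1 := fun hh => k1.2 (Set.mem_singleton_iff.2 hh.symm)
      wn2 := fun hh => k2.2 (Set.mem_singleton_iff.2 hh.symm)
      wn3 := fun hh => hzI.1.2 (Set.mem_singleton_iff.2 hh.symm)
      n12 := ?_
      n13 := hu1z
      n23 := hu2z }⟩
  · ext v
    have hv : v ∈ Z.neighborSet w \ {y1, y2} ↔ v = n4 := by rw [hP]; rfl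
    simp only [Set.mem_sdiff, Set.mem_insert_iff, Set.mem_singleton_iff, not_or] at hv
    simp only [Set.mem_insert_iff, Set.mem_singleton_iff]
    constructor
    · intro hvw
      by_cases h1 : v = y1
      · exact Or.inl h1
      · by_cases h2 : v = y2
        · exact Or.inr (Or.inl h2)
        · exact Or.inr (Or.inr (hv.1 ⟨hvw, h1, h2⟩))
    · rintro (rfl | rfl | hv')
      · exact a1
      · exact a2
      · exact (hv.2 hv').1
  · intro hh
    have : u1 ∈ (Z.neighborSet y1 \ {w}) ∩ (Z.neighborSet y2 \ {w}) := ⟨k1, hh ▸ k2⟩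
    rw [hz, Set.mem_singleton_iff] at this
    exact hu1z this
/-- The three elements of a set with three elements: one colour, or a vertex `w` and two vertices
of the other colour. -/
private lemma small_split [Finite V] {A : Set V} (κ : V → ZMod 2) (h3 : A.ncard = 3) :
    (∃ a b c, A = {a, b, c} ∧ a ≠ b ∧ a ≠ c ∧ b ≠ c ∧ κ a = κ c ∧ κ b = κ c) ∨
    (∃ w y1 y2, A = {w, y1, y2} ∧ y1 ≠ y2 ∧ κ y1 = κ y2 ∧ κ w ≠ κ y1) := by
  obtain ⟨a, b, c, hab, hac, hbc, rfl⟩ := Set.ncard_eq_three.1 h3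
  by_cases h1 : κ a = κ c
  · by_cases h2 : κ b = κ c
    · exact Or.inl ⟨a, b, c, rfl, hab, hac, hbc, h1, h2⟩
    · exact Or.inr ⟨b, a, c, Set.insert_comm _ _ _, hac, h1, h1 ▸ h2⟩
  · by_cases h2 : κ b = κ c
    · exact Or.inr ⟨a, b, c, rfl, hbc, h2, h2 ▸ h1⟩
    · refine Or.inr ⟨c, a, b, ?_, hab, small_col h1 h2, fun hh => h1 hh.symm⟩
      ext v
      simp only [Set.mem_insert_iff, Set.mem_singleton_iff]
      tauto

/-- Mixed triples with `f ≤ 2` are X3. -/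
private lemma small_mixed2 [Finite V] {Z : SimpleGraph V} {κ : V → ZMod 2} {S : Set V}
    (h : Loc Z κ S) {w y1 y2 : V} (hw : w ∈ S) (hy1 : y1 ∈ S)
    (hy2 : y2 ∈ S) (hyy : y1 ≠ y2) (hk : κ y1 = κ y2) (hk' : κ w ≠ κ y1)
    (h4 : (Nb Z {w, y1, y2}).ncard = 4) (hf : fden Z {w, y1, y2} ≤ 2) :
    fden Z {w, y1, y2} ≤ 1 := by
  by_contra hgt
  obtain ⟨a1, a2, e1, c1, c2, n1, n2, n3, hm⟩ := small_mixed h hw hy1 hy2 hyy hk hk' h4
  rw [n3] at hf hgt
  have d0 := h.deg3 w hw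
  have d1 := h.deg3 y1 hy1
  have d2 := h.deg3 y2 hy2
  have m1 := Set.ncard_sdiff_singleton_add_one (s := Z.neighborSet y1) (a := w) a1.symm
    (Set.toFinite _)
  have m2 := Set.ncard_sdiff_singleton_add_one (s := Z.neighborSet y2) (a := w) a2.symm
    (Set.toFinite _)
  have hsub : ∀ y : V, Z.neighborSet y \ {w} ⊆ (Z.neighborSet y1 ∪ Z.neighborSet y2) \ {w} →
      ((Z.neighborSet y1 ∪ Z.neighborSet y2) \ {w}).ncard ≤ (Z.neighborSet y \ {w}).ncard →
      Z.Adj y w → ∀ z, (z = y1 ∨ z = y2) → Z.neighborSet z ⊆ Z.neighborSet y := by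
    intro y hy hle hyw z hz v hv
    have e := Set.eq_of_subset_of_ncard_le hy hle (Set.toFinite _)
    by_cases hvw : v = w
    · rw [hvw]; exact hyw
    · have : v ∈ (Z.neighborSet y1 ∪ Z.neighborSet y2) \ {w} := by
        refine ⟨?_, hvw⟩
        rcases hz with rfl | rfl
        · exact Or.inl hv
        · exact Or.inr hv
      rw [← e] at this
      exact this.1
  have s1 : Z.neighborSet y1 \ {w} ⊆ (Z.neighborSet y1 ∪ Z.neighborSet y2) \ {w} :=
    fun v hv => ⟨Or.inl hv.1, hv.2⟩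
  have s2 : Z.neighborSet y2 \ {w} ⊆ (Z.neighborSet y1 ∪ Z.neighborSet y2) \ {w} :=
    fun v hv => ⟨Or.inr hv.1, hv.2⟩
  by_cases hle : (Z.neighborSet y1).ncard ≤ (Z.neighborSet y2).ncard
  · exact h.T3 y2 y1 hy1 hyy.symm (by omega) (hsub y2 s2 (by omega) a2.symm y1 (Or.inl rfl))
  · exact h.T3 y1 y2 hy2 hyy (by omega) (hsub y1 s1 (by omega) a1.symm y2 (Or.inr rfl))
/-- Four-sets with three elements. -/
theorem three_class [Finite V] {G : SimpleGraph V} {U : Set V} (hG : GCore G U) {A : Set V}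
    {κ : V → ZMod 2} (hA : A ⊆ U) (bA : Bal G κ A) (h3 : A.ncard = 3)
    (h4 : (Nb G A).ncard = 4) :
    ∃ w y1 y2 n1 n2 n3 n4, IsX3 G A w y1 y2 n1 n2 n3 n4 := by
  have hP23 := hG.P2 A hA κ bA h4
  have h := hG.loc hA bA
  rcases small_split κ h3 with ⟨a, b, c, rfl, hab, hac, hbc, h1, h2⟩ |
    ⟨w, y1, y2, rfl, hyy, hk, hk'⟩
  · exfalso
    have ha0 : a ∈ ({a, b, c} : Set V) := by simp
    have hb0 : b ∈ ({a, b, c} : Set V) := by simp
    have hc0 : c ∈ ({a, b, c} : Set V) := by simp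
    obtain ⟨-, hm, hf⟩ := small_same3 h ha0 hb0 hc0 hab hac hbc h1 h2
    rw [beta_of_mono hm, h4, hf] at hP23
    push_cast at hP23
    have d1 := h.deg3 a ha0
    have d2 := h.deg3 b hb0
    have d3 := h.deg3 c hc0
    omega
  · have hw : w ∈ ({w, y1, y2} : Set V) := by simp
    have hy1 : y1 ∈ ({w, y1, y2} : Set V) := by simp
    have hy2 : y2 ∈ ({w, y1, y2} : Set V) := by simp
    have hm := (small_mixed h hw hy1 hy2 hyy hk hk' h4).2.2.2.2.2.2.2.2
    rw [beta_of_not_mono hm, h4] at hP23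
    push_cast at hP23
    have hf := small_mixed2 h hw hy1 hy2 hyy hk hk' h4 (by linarith)
    obtain ⟨n1, n2, n3, n4, hX⟩ := small_X3 h hw hy1 hy2 hyy hk hk' h4 hf
    exact ⟨w, y1, y2, n1, n2, n3, n4, hX⟩

/-- A balanced four-set which is not in the list contains a minimal one. -/
theorem exists_minX [Finite V] {G : SimpleGraph V} {U : Set V} (h : GCore G U) {A : Set V}
    {κ : V → ZMod 2} (hA : A ⊆ U) (bA : Bal G κ A) (h4 : (Nb G A).ncard = 4)
    (hn : ¬ IsLL G A) : ∃ X, X ⊆ A ∧ GMinX G U κ X := by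
  obtain ⟨X, ⟨hX1, hX2, hX3⟩, hmin⟩ := Set.exists_min_image
    {X : Set V | X ⊆ A ∧ (Nb G X).ncard = 4 ∧ ¬ IsLL G X} Set.ncard (Set.toFinite _)
    ⟨A, subset_rfl, h4, hn⟩
  refine ⟨X, hX1, hX1.trans hA, bA.mono hX1, hX2, hX3, ?_, ?_⟩
  · by_contra hlt
    rcases (by omega : X.ncard = 0 ∨ X.ncard = 1 ∨ X.ncard = 2 ∨ X.ncard = 3) with
      h0 | h0 | h0 | h0
    · rw [Set.ncard_eq_zero (Set.toFinite _)] at h0
      rw [h0, Nb_empty, Set.ncard_empty] at hX2
      omega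
    · exact hX3 (Or.inl (Set.ncard_eq_one.1 h0))
    · rcases two_class h (hX1.trans hA) (bA.mono hX1) h0 hX2 with h5 | h5
      · exact hX3 (Or.inr (Or.inl h5))
      · exact hX3 (Or.inr (Or.inr (Or.inl h5)))
    · exact hX3 (Or.inr (Or.inr (Or.inr (Or.inl
        (three_class h (hX1.trans hA) (bA.mono hX1) h0 hX2)))))
  · intro B hB hne _ hB4
    by_contra hn'
    have h5 := hmin B ⟨hB.trans hX1, hB4, hn'⟩
    have h6 := Set.ncard_lt_ncard (lt_of_le_of_ne hB hne) (Set.toFinite _)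
    omega

end Pool.Agent.Helper51.GX
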