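import Pool.Agent.Helper51.GX.Star
import Pool.Agent.Helper51.GX.Small
import Pool.Agent.Helper51.GX.Layer

/-!
# The global part: the obstacle `O3` in the endgame
-/

set_option autoImplicit false

namespace Pool.Agent.Helper51.GX

open SimpleGraph Pool.Agent.Helper57.TOK Pool.Agent.Helper57.TD
open Pool.Agent.Helper51.TDC (adj3 ncard3 ncard4 ncard5 two_le_of_mem third_of_ncard3)

variable {V : Type*}

/-- Every balanced four-set is in the list. -/
theorem all_LL [Finite V] {G : SimpleGraph V} {U : Set V} (h : GCore G U) {A : Set V}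
    {κ : V → ZMod 2} (hA : A ⊆ U) (bA : Bal G κ A) (h4 : (Nb G A).ncard = 4) : IsLL G A := by
  by_contra hn
  obtain ⟨X, -, hX⟩ := exists_minX h hA bA h4 hn
  obtain ⟨z, k1, k2, k3, k4, n1, n2, n3, n4, hL⟩ := exists_L5 h hX (star h hX)
  exact L5_false h hX hL

/-- A nonempty balanced set has at least three neighbours. -/
lemma three_le_Nb [Finite V] {G : SimpleGraph V} {U : Set V} (h : GCore G U) {C : Set V}
    {κ : V → ZMod 2} (hC : C ⊆ U) (bC : Bal G κ C) (hne : C.Nonempty) : 3 ≤ (Nb G C).ncard := by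
  rcases Nat.lt_or_ge C.ncard 2 with hlt | hge
  · have hpos := (Set.ncard_pos (Set.toFinite C)).2 hne
    obtain ⟨d, rfl⟩ := Set.ncard_eq_one.1 (by omega : C.ncard = 1)
    rw [Nb_singleton]
    exact h.deg3 d (hC rfl)
  · have := h.P1 C hC hge κ bC
    omega

/-- Neighbours in the intersection, class form. -/
lemma class_adj {G : SimpleGraph V} {A X : Set V} {κA κX : V → ZMod 2} (bA : Bal G κA A)
    (bX : Bal G κX X) {u v : V} (huA : u ∈ A ∨ v ∈ A) (huX : u ∈ X ∨ v ∈ X) (hadj : G.Adj u v) :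
    κA u + κX u = κA v + κX v := by
  have h1 : κA u ≠ κA v := by
    rcases huA with hh | hh
    · exact bA u v hh hadj
    · exact (bA v u hh hadj.symm).symm
  have h2 : κX u ≠ κX v := by
    rcases huX with hh | hh
    · exact bX u v hh hadj
    · exact (bX v u hh hadj.symm).symm
  exact class_same h1 h2

lemma pairO3_third {G : SimpleGraph V} {U : Set V} {κ : V → ZMod 2} {W : Set V} {y p q c : V}
    (hW : O3W G U κ W y p q c) (hyc : G.Adj y c) {s : V} (hcs : G.Adj c s)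
    (hpq : G.Adj p s ∨ G.Adj q s) : s ∈ Nb G W ∧ κ s = κ y := by
  have hs : s ∉ W := fun hh => hW.tri hyc hh hcs hpq
  exact ⟨⟨hs, c, hW.cW, hcs⟩, hW.bal.eq hW.cW hcs hyc.symm⟩

/-- A cubic vertex has two adjacent neighbours. -/
theorem cubic_tri [Finite V] {G : SimpleGraph V} {U : Set V} (h : GCore G U)
    (hO : ∀ y a b c, y ∈ U → a ≠ b → a ≠ c → b ≠ c → ¬ G.Adj a b → G.neighborSet y = {a, b, c} →
      ∃ W κ, O3W G U κ W y a b c) {y a b c : V} (hy : y ∈ U) (hab : a ≠ b) (hac : a ≠ c)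
    (hbc : b ≠ c) (hNy : G.neighborSet y = {a, b, c}) (n1 : ¬ G.Adj a b) (n2 : ¬ G.Adj a c)
    (n3 : ¬ G.Adj b c) : False := by
  classical
  have my := adj3 hNy
  have hya : G.Adj y a := (my a).2 (by tauto)
  have hyb : G.Adj y b := (my b).2 (by tauto)
  have hyc : G.Adj y c := (my c).2 (by tauto)
  have hcub : (G.neighborSet y).ncard = 3 := by rw [hNy]; exact ncard3 hab hac hbc
  obtain ⟨W1, κ1, O1⟩ := hO y a b c hy hab hac hbc n1 hNy
  obtain ⟨W2, κ2, O2⟩ := hO y b c a hy hbc hab.symm hac.symm n3 (by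
    rw [hNy]; ext v; simp only [Set.mem_insert_iff, Set.mem_singleton_iff]; tauto)
  obtain ⟨W3, κ3, O3⟩ := hO y a c b hy hac hab hbc.symm n2 (by
    rw [hNy]; ext v; simp only [Set.mem_insert_iff, Set.mem_singleton_iff]; tauto)
  obtain ⟨sab, sab1, sab2, sab3⟩ := O1.com
  obtain ⟨sbc, sbc1, sbc2, sbc3⟩ := O2.com
  obtain ⟨sac, sac1, sac2, sac3⟩ := O3.com
  have all3 : ∀ v, v ≠ y → G.Adj v a → G.Adj v b → G.Adj v c → False := by
    intro v hv h1 h2 h3
    apply h.T3 v y hy hv hcub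
    rw [hNy]
    rintro w (rfl | rfl | rfl)
    · exact h1
    · exact h2
    · exact h3
  have d1 : sab ≠ sbc := by
    rintro rfl; exact all3 sab sab1 sab2.symm sab3.symm sbc3.symm
  have d2 : sab ≠ sac := by
    rintro rfl; exact all3 sab sab1 sab2.symm sab3.symm sac3.symm
  have d3 : sbc ≠ sac := by
    rintro rfl; exact all3 sbc sbc1 sac2.symm sbc2.symm sac3.symm
  have e1 := pairO3_third O1 hyc sac3 (Or.inl sac2)
  have e2 := pairO3_third O1 hyc sbc3 (Or.inr sbc2)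
  have e3 := pairO3_third O2 hya sac2 (Or.inr sac3)
  have e4 := pairO3_third O2 hya sab2 (Or.inl sab3)
  -- the neighbourhoods
  have na : sab ≠ c := by rintro rfl; exact n2 sab2
  have nb : sbc ≠ a := by rintro rfl; exact n1 sbc2.symm
  have nc : sac ≠ b := by rintro rfl; exact n1 sac2
  have N1 : Nb G W1 = {a, b, y, sac, sbc} := by
    symm
    apply Set.eq_of_subset_of_ncard_le _ _ (Set.toFinite _)
    · rintro v (rfl | rfl | rfl | rfl | rfl)
      · exact O1.pN
      · exact O1.qN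
      · exact O1.yN
      · exact e1.1
      · exact e2.1
    · rw [O1.five, ncard5 hab hya.ne.symm sac2.ne nb.symm hyb.ne.symm nc.symm sbc2.ne sac1.symm
        sbc1.symm d3.symm]
  have N2 : Nb G W2 = {b, c, y, sab, sac} := by
    symm
    apply Set.eq_of_subset_of_ncard_le _ _ (Set.toFinite _)
    · rintro v (rfl | rfl | rfl | rfl | rfl)
      · exact O2.pN
      · exact O2.qN
      · exact O2.yN
      · exact e4.1
      · exact e3.1
    · rw [O2.five, ncard5 hbc hyb.ne.symm sab3.ne nc.symm hyc.ne.symm na.symm sac3.ne sab1.symm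
        sac1.symm d2]
  -- the colours
  have k1 := O1.kpq
  have k2 := O1.kpy
  have k3 := O2.kpq
  have k4 := O2.kpy
  have k5 : κ2 a ≠ κ2 y := O2.bal a y O2.cW hya.symm
  have hne : ∀ v, κ1 v = κ1 y → κ2 v = κ2 y → κ1 v + κ2 v ≠ κ1 a + κ2 a := by
    intro v h1 h2 h3
    rw [h1, h2, k2] at h3
    exact k5 (add_left_cancel h3).symm
  have hQ : Qk G W1 W2 κ1 κ2 (κ1 a + κ2 a) ⊆ {a, c} := by
    rintro v ⟨hv, hk⟩
    have hb := hne b (k1.symm.trans k2) k4
    have hyy := hne y rfl rfl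
    have hsac := hne sac e1.2 e3.2
    have case1 : v ∈ Nb G W1 → v ∈ W2 ∪ Nb G W2 → v ∈ ({a, c} : Set V) := by
      intro h1 h2
      rw [N1] at h1
      rcases h1 with rfl | rfl | rfl | rfl | rfl
      · exact Or.inl rfl
      · exact absurd hk hb
      · exact absurd hk hyy
      · exact absurd hk hsac
      · exfalso
        rcases h2 with h2 | h2
        · exact O2.nocom _ h2 ⟨sbc2.symm, sbc3.symm⟩
        · rw [N2] at h2
          rcases h2 with h2 | h2 | h2 | h2 | h2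
          · exact sbc2.ne h2.symm
          · exact sbc3.ne h2.symm
          · exact sbc1 h2
          · exact d1 h2.symm
          · exact d3 h2
    rcases hv with (hv | hv) | hv
    · exact case1 hv.1 (Or.inl hv.2)
    · have h1 := hv.1
      have h2 := hv.2
      rw [N2] at h1
      rcases h1 with rfl | rfl | rfl | rfl | rfl
      · exact absurd h2 O1.qN.1
      · exact Or.inr rfl
      · exact absurd h2 O1.yN.1
      · exact absurd ⟨sab2.symm, sab3.symm⟩ (O1.nocom _ h2)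
      · exact absurd h2 e1.1.1
    · exact case1 hv.1 (Or.inr hv.2)
  obtain ⟨-, x, hx, hxa⟩ := O1.pN
  have hkx : κ1 x + κ2 x = κ1 a + κ2 a :=
    class_adj O1.bal O2.bal (Or.inl hx) (Or.inr O2.cW) hxa
  have hxC : x ∈ Ck W1 W2 κ1 κ2 (κ1 a + κ2 a) := by
    rcases mem_QQ_or (G := G) (Or.inl hx : x ∈ W1 ∪ Nb G W1)
      (mem_union_Nb O2.cW hxa.symm) with hh | hh
    · exact ⟨hh, hkx⟩
    · exfalso
      rcases hQ ⟨hh, hkx⟩ with rfl | hh'
      · exact G.irrefl hxa
      · rw [Set.mem_singleton_iff] at hh'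
        rw [hh'] at hxa
        exact n2 hxa.symm
  have h3 := three_le_Nb h (C := Ck W1 W2 κ1 κ2 (κ1 a + κ2 a)) (κ := κ1)
    (fun v hv => O1.sub hv.1.1) (O1.bal.mono (fun v hv => hv.1.1)) ⟨x, hxC⟩
  have h4 := Set.ncard_le_ncard ((Nb_Ck O1.bal O2.bal (κ1 a + κ2 a)).trans hQ) (Set.toFinite _)
  have h5 := Set.ncard_insert_le a {c}
  rw [Set.ncard_singleton] at h5
  omega

lemma zaux_ne {p1 p2 p3 : ZMod 2} (h : p3 ≠ p2) : p1 ≠ p2 + (p1 + p3) := by
  revert p1 p2 p3; decide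

/-- The hypothesis of the endgame. -/
def AllO3 (G : SimpleGraph V) (U : Set V) : Prop :=
  ∀ y a b c, y ∈ U → a ≠ b → a ≠ c → b ≠ c → ¬ G.Adj a b → G.neighborSet y = {a, b, c} →
      ∃ W κ, O3W G U κ W y a b c

/-- The fifth element. -/
lemma fifth_of_ncard5 [Finite V] {N : Set V} (hN : N.ncard = 5) {p q r s : V} (hp : p ∈ N)
    (hq : q ∈ N) (hr : r ∈ N) (hs : s ∈ N) (pq : p ≠ q) (pr : p ≠ r) (ps : p ≠ s) (qr : q ≠ r)
    (qs : q ≠ s) (rs : r ≠ s) :
    ∃ m, N = {p, q, r, s, m} ∧ m ≠ p ∧ m ≠ q ∧ m ≠ r ∧ m ≠ s := by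
  have h1 : ({p, q, r, s} : Set V) ⊆ N := by
    rintro x (rfl | rfl | rfl | rfl)
    · exact hp
    · exact hq
    · exact hr
    · exact hs
  have h2 := Set.ncard_sdiff_add_ncard_of_subset h1 (Set.toFinite _)
  rw [hN, ncard4 pq pr ps qr qs rs] at h2
  obtain ⟨m, hm⟩ := Set.ncard_eq_one.1 (by omega : (N \ {p, q, r, s}).ncard = 1)
  have hmem : m ∈ N \ {p, q, r, s} := by rw [hm]; rfl
  refine ⟨m, ?_, ?_, ?_, ?_, ?_⟩
  · ext v
    constructor
    · intro hv
      by_cases hv2 : v ∈ ({p, q, r, s} : Set V)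
      · rcases hv2 with rfl | rfl | rfl | rfl <;> simp
      · have : v ∈ N \ {p, q, r, s} := ⟨hv, hv2⟩
        rw [hm, Set.mem_singleton_iff] at this
        rw [this]; simp
    · rintro (rfl | rfl | rfl | rfl | rfl)
      · exact hp
      · exact hq
      · exact hr
      · exact hs
      · exact hmem.1
  all_goals
    rintro rfl
    exact hmem.2 (by simp)

/-- The situation at a cubic vertex `y` of a triangle `y, a, c`. -/
structure TB (G : SimpleGraph V) (U : Set V) (κ1 κ2 : V → ZMod 2) (W1 W2 : Set V)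
    (y a b c s t : V) : Prop where
  yU : y ∈ U
  Ny : G.neighborSet y = {a, b, c}
  ab : a ≠ b
  ac : a ≠ c
  bc : b ≠ c
  nab : ¬ G.Adj a b
  ncb : ¬ G.Adj c b
  adj : G.Adj a c
  O1 : O3W G U κ1 W1 y a b c
  O2 : O3W G U κ2 W2 y c b a
  sy : s ≠ y
  cs : G.Adj c s
  bs : G.Adj b s
  ty : t ≠ y
  at' : G.Adj a t
  bt : G.Adj b t

section TB

variable {G : SimpleGraph V} {U : Set V} {κ1 κ2 : V → ZMod 2} {W1 W2 : Set V} {y a b c s t : V}

lemma TB.symm (T : TB G U κ1 κ2 W1 W2 y a b c s t) : TB G U κ2 κ1 W2 W1 y c b a t s where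
  yU := T.yU
  Ny := by
    rw [T.Ny]; ext v; simp only [Set.mem_insert_iff, Set.mem_singleton_iff]; tauto
  ab := T.bc.symm
  ac := T.ac.symm
  bc := T.ab.symm
  nab := T.ncb
  ncb := T.nab
  adj := T.adj.symm
  O1 := T.O2
  O2 := T.O1
  sy := T.ty
  cs := T.at'
  bs := T.bt
  ty := T.sy
  at' := T.cs
  bt := T.bs

lemma TB.ya (T : TB G U κ1 κ2 W1 W2 y a b c s t) : G.Adj y a := (adj3 T.Ny a).2 (by tauto)
lemma TB.yb (T : TB G U κ1 κ2 W1 W2 y a b c s t) : G.Adj y b := (adj3 T.Ny b).2 (by tauto)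
lemma TB.yc (T : TB G U κ1 κ2 W1 W2 y a b c s t) : G.Adj y c := (adj3 T.Ny c).2 (by tauto)

lemma TB.st (T : TB G U κ1 κ2 W1 W2 y a b c s t) (h : GCore G U) : s ≠ t := by
  rintro rfl
  apply h.T3 s y T.yU T.sy (by rw [T.Ny]; exact ncard3 T.ab T.ac T.bc)
  rw [T.Ny]
  rintro w (rfl | rfl | rfl)
  · exact T.at'.symm
  · exact T.bs.symm
  · exact T.cs.symm

lemma TB.sN (T : TB G U κ1 κ2 W1 W2 y a b c s t) : s ∈ Nb G W1 ∧ κ1 s = κ1 y :=
  pairO3_third T.O1 T.yc T.cs (Or.inr T.bs)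

lemma TB.tN (T : TB G U κ1 κ2 W1 W2 y a b c s t) : t ∈ Nb G W2 ∧ κ2 t = κ2 y := T.symm.sN

lemma TB.sW2 (T : TB G U κ1 κ2 W1 W2 y a b c s t) : s ∉ W2 := fun hh =>
  T.O2.nocom s hh ⟨T.cs.symm, T.bs.symm⟩

lemma TB.tW1 (T : TB G U κ1 κ2 W1 W2 y a b c s t) : t ∉ W1 := T.symm.sW2

lemma TB.ka (T : TB G U κ1 κ2 W1 W2 y a b c s t) : κ2 a ≠ κ2 y :=
  T.O2.bal a y T.O2.cW T.ya.symm

lemma TB.kc (T : TB G U κ1 κ2 W1 W2 y a b c s t) : κ1 c ≠ κ1 y := T.symm.ka

/-- `a` and `c` are in the same class. -/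
lemma TB.dc (T : TB G U κ1 κ2 W1 W2 y a b c s t) : κ1 c + κ2 c = κ1 a + κ2 a :=
  class_adj T.O1.bal T.O2.bal (Or.inl T.O1.cW) (Or.inr T.O2.cW) T.adj.symm

/-- `y` is in the other class. -/
lemma TB.dy (T : TB G U κ1 κ2 W1 W2 y a b c s t) : κ1 y + κ2 y ≠ κ1 a + κ2 a := by
  intro hh
  rw [T.O1.kpy] at hh
  exact T.ka (add_left_cancel hh).symm

lemma TB.db (T : TB G U κ1 κ2 W1 W2 y a b c s t) : κ1 b + κ2 b ≠ κ1 a + κ2 a := by
  rw [← T.O1.kpq, ← T.O2.kpq, T.O1.kpy, T.O2.kpy, ← T.O1.kpy]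
  rw [T.O1.kpy]
  intro hh
  exact T.ka (add_left_cancel hh).symm

lemma TB.aQ (T : TB G U κ1 κ2 W1 W2 y a b c s t) : a ∈ Qk G W1 W2 κ1 κ2 (κ1 a + κ2 a) :=
  ⟨Or.inl (Or.inl ⟨T.O1.pN, T.O2.cW⟩), rfl⟩

lemma TB.cQ (T : TB G U κ1 κ2 W1 W2 y a b c s t) : c ∈ Qk G W1 W2 κ1 κ2 (κ1 a + κ2 a) :=
  ⟨Or.inl (Or.inr ⟨T.O2.pN, T.O1.cW⟩), T.dc⟩

/-- A class has at most three elements. -/
theorem TB.q3 [Finite V] (h : GCore G U) (T : TB G U κ1 κ2 W1 W2 y a b c s t) :
    (Qk G W1 W2 κ1 κ2 (κ1 a + κ2 a)).ncard ≤ 3 := by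
  classical
  by_contra hlt
  push Not at hlt
  set k := κ1 a + κ2 a with hk
  have hst := T.st h
  have hsum := QQ_sum G W1 W2
  rw [T.O1.five, T.O2.five] at hsum
  have hby : ∀ v ∈ ({b, y} : Set V), v ∈ QQ G W1 W2 ∧ κ1 v + κ2 v ≠ k := by
    rintro v (rfl | rfl)
    · exact ⟨Or.inr ⟨T.O1.qN, T.O2.qN⟩, T.db⟩
    · exact ⟨Or.inr ⟨T.O1.yN, T.O2.yN⟩, T.dy⟩
  have hyb : y ≠ b := T.yb.ne
  have hdis : Disjoint (Qk G W1 W2 κ1 κ2 k) ({b, y} : Set V) := by
    rw [Set.disjoint_left]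
    rintro v ⟨-, h1⟩ h2
    exact (hby v h2).2 h1
  have h6 : (Qk G W1 W2 κ1 κ2 k ∪ {b, y}).ncard ≤ (QQ G W1 W2).ncard := by
    apply Set.ncard_le_ncard _ (Set.toFinite _)
    rintro v (hv | hv)
    · exact hv.1
    · exact (hby v hv).1
  have h6' := Set.ncard_union_eq hdis (Set.toFinite _) (Set.toFinite _)
  rw [Set.ncard_pair hyb.symm] at h6'
  have hB4 : ({b, y, s, t} : Set V) ⊆ Nb G (W1 ∪ W2) := by
    rintro v (rfl | rfl | rfl | rfl)
    · obtain ⟨hn, u, hu, hadj⟩ := T.O1.qN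
      exact ⟨fun hh => hh.elim hn T.O2.qN.1, u, Or.inl hu, hadj⟩
    · obtain ⟨hn, u, hu, hadj⟩ := T.O1.yN
      exact ⟨fun hh => hh.elim hn T.O2.yN.1, u, Or.inl hu, hadj⟩
    · obtain ⟨hn, u, hu, hadj⟩ := T.sN.1
      exact ⟨fun hh => hh.elim hn T.sW2, u, Or.inl hu, hadj⟩
    · obtain ⟨hn, u, hu, hadj⟩ := T.tN.1
      exact ⟨fun hh => hh.elim T.tW1 hn, u, Or.inr hu, hadj⟩
  have hc4 : ({b, y, s, t} : Set V).ncard = 4 :=
    ncard4 hyb.symm T.bs.ne T.bt.ne T.sy.symm T.ty.symm hst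
  have hle4 := Set.ncard_le_ncard hB4 (Set.toFinite _)
  have hB : ({b, y, s, t} : Set V) = Nb G (W1 ∪ W2) :=
    Set.eq_of_subset_of_ncard_le hB4 (by omega) (Set.toFinite _)
  have hQQ : Qk G W1 W2 κ1 κ2 k ∪ {b, y} = QQ G W1 W2 := by
    apply Set.eq_of_subset_of_ncard_le _ (by omega) (Set.toFinite _)
    rintro v (hv | hv)
    · exact hv.1
    · exact (hby v hv).1
  have hQ' : ∀ v ∈ QQ G W1 W2, v ≠ b → v ≠ y → κ1 v + κ2 v = k := by
    intro v hv h1 h2
    rw [← hQQ] at hv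
    rcases hv with hv | hv | hv
    · exact hv.2
    · exact absurd hv h1
    · exact absurd hv h2
  have hC : ∀ v, v ∈ W1 → v ∈ W2 → κ1 v + κ2 v = k := by
    intro v h1 h2
    by_contra hne
    have hne' := ne_class hne
    have hvC : v ∈ Ck W1 W2 κ1 κ2 (k + 1) := ⟨⟨h1, h2⟩, hne'⟩
    have h3 := three_le_Nb h (C := Ck W1 W2 κ1 κ2 (k + 1)) (κ := κ1)
      (fun v hv => T.O1.sub hv.1.1) (T.O1.bal.mono (fun v hv => hv.1.1)) ⟨v, hvC⟩
    have hsub : Qk G W1 W2 κ1 κ2 (k + 1) ⊆ {b, y} := by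
      rintro v ⟨hv, hvk⟩
      by_contra hn
      simp only [Set.mem_insert_iff, Set.mem_singleton_iff, not_or] at hn
      rw [hQ' v hv hn.1 hn.2] at hvk
      exact ne_add_one k hvk
    have h4 := Set.ncard_le_ncard ((Nb_Ck T.O1.bal T.O2.bal (k + 1)).trans hsub) (Set.toFinite _)
    rw [Set.ncard_pair hyb.symm] at h4
    omega
  -- the rest is empty
  have haW2 := T.O2.cW
  have hcW1 := T.O1.cW
  have hI4 : (U \ ((insert y (W1 ∪ W2)) ∪ Nb G (insert y (W1 ∪ W2)))).ncard ≤ 1 := by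
    apply h.I4
    · rintro v (rfl | hv | hv)
      · exact T.yU
      · exact T.O1.sub hv
      · exact T.O2.sub hv
    · exact two_le_of_mem (u := a) (v := c) (Or.inr (Or.inr haW2)) (Or.inr (Or.inl hcW1)) T.ac
    · have hsub : Nb G (insert y (W1 ∪ W2)) ⊆ {b, s, t} := by
        rintro v ⟨hv, u, hu, hadj⟩
        have hvy : v ≠ y := fun hh => hv (Or.inl hh)
        rcases hu with rfl | hu
        · rcases (adj3 T.Ny v).1 hadj with rfl | rfl | rfl
          · exact absurd (Or.inr (Or.inr haW2)) hv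
          · exact Or.inl rfl
          · exact absurd (Or.inr (Or.inl hcW1)) hv
        · have hvB : v ∈ Nb G (W1 ∪ W2) := ⟨fun hh => hv (Or.inr hh), u, hu, hadj⟩
          rw [← hB] at hvB
          rcases hvB with hh | hh | hh | hh
          · exact Or.inl hh
          · exact absurd hh hvy
          · exact Or.inr (Or.inl hh)
          · exact Or.inr (Or.inr hh)
      have := Set.ncard_le_ncard hsub (Set.toFinite _)
      rw [ncard3 T.bs.ne T.bt.ne hst] at this
      exact this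
  have hrest : ∀ x ∈ U, x ∉ W1 → x ∉ W2 → x ∈ ({b, y, s, t} : Set V) := by
    intro x hx hx1 hx2
    by_contra hxB
    have hin : ∀ v, G.Adj x v → v ∈ U → v ∉ W1 ∧ v ∉ W2 := by
      intro v hadj hvU
      constructor
      · intro hh
        apply hxB
        rw [hB]
        exact ⟨fun h' => h'.elim hx1 hx2, v, Or.inl hh, hadj.symm⟩
      · intro hh
        apply hxB
        rw [hB]
        exact ⟨fun h' => h'.elim hx1 hx2, v, Or.inr hh, hadj.symm⟩
    have hxout : ∀ v, v ∈ U → v ∉ W1 → v ∉ W2 → v ∉ ({b, y, s, t} : Set V) →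
        v ∈ U \ ((insert y (W1 ∪ W2)) ∪ Nb G (insert y (W1 ∪ W2))) := by
      intro v hvU hv1 hv2 hvB
      refine ⟨hvU, ?_⟩
      rintro ((rfl | hh | hh) | ⟨hv, u, hu, hadj⟩)
      · exact hvB (by simp)
      · exact hv1 hh
      · exact hv2 hh
      · rcases hu with rfl | hu
        · rcases (adj3 T.Ny v).1 hadj with rfl | rfl | rfl
          · exact hv2 haW2
          · exact hvB (by simp)
          · exact hv1 hcW1
        · apply hvB
          rw [hB]
          exact ⟨fun hh => hv (Or.inr hh), u, hu, hadj⟩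
    have hNx : G.neighborSet x ⊆ {b, s, t} := by
      intro v hadj
      have hadj' : G.Adj x v := hadj
      have hvU : v ∈ U := h.edge_mem v x hadj'.symm
      obtain ⟨hv1, hv2⟩ := hin v hadj' hvU
      by_cases hvB : v ∈ ({b, y, s, t} : Set V)
      · rcases hvB with hh | hh | hh | hh
        · exact Or.inl hh
        · exfalso
          rw [hh] at hadj'
          rcases (adj3 T.Ny x).1 hadj'.symm with rfl | rfl | rfl
          · exact hx2 haW2
          · exact hxB (by simp)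
          · exact hx1 hcW1
        · exact Or.inr (Or.inl hh)
        · exact Or.inr (Or.inr hh)
      · exfalso
        have := (Set.ncard_le_one (Set.toFinite _)).1 hI4 x (hxout x hx hx1 hx2 hxB) v
          (hxout v hvU hv1 hv2 hvB)
        exact hadj'.ne this
    have hd := h.deg3 x hx
    have hEq : G.neighborSet x = {b, s, t} :=
      Set.eq_of_subset_of_ncard_le hNx (by rw [ncard3 T.bs.ne T.bt.ne hst]; exact hd)
        (Set.toFinite _)
    have m := adj3 hEq
    exact h.F1 b x s t ((m b).2 (by tauto)).symm hst T.bs ((m s).2 (by tauto)) T.bt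
      ((m t).2 (by tauto))
  -- the colouring
  let κ : V → ZMod 2 := fun v => if v ∈ W1 ∪ Nb G W1 then κ1 v else κ2 v + k
  have e1 : ∀ v, v ∈ W1 ∪ Nb G W1 → κ v = κ1 v := by
    intro v hv
    exact if_pos hv
  have e2 : ∀ v, v ∈ W2 ∪ Nb G W2 → v ≠ b → v ≠ y → κ v = κ2 v + k := by
    intro v hv h1 h2
    by_cases hv1 : v ∈ W1 ∪ Nb G W1
    · rw [e1 v hv1]
      apply add_left_class
      rcases mem_QQ_or hv1 hv with hh | hh
      · exact hC v hh.1 hh.2
      · exact hQ' v hh h1 h2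
    · exact if_neg hv1
  have side : ∀ u v, u ∉ ({b, y} : Set V) → v ∉ ({b, y} : Set V) → G.Adj u v →
      u ∈ W1 ∪ W2 → κ u ≠ κ v := by
    intro u v hu hv hadj huW
    simp only [Set.mem_insert_iff, Set.mem_singleton_iff, not_or] at hu hv
    rcases huW with h1 | h1
    · rw [e1 u (Or.inl h1), e1 v (mem_union_Nb h1 hadj)]
      exact T.O1.bal u v h1 hadj
    · rw [e2 u (Or.inl h1) hu.1 hu.2, e2 v (mem_union_Nb h1 hadj) hv.1 hv.2]
      exact add_ne_add (T.O2.bal u v h1 hadj)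
  have hks : κ s = κ1 y := by rw [e1 s (Or.inr T.sN.1), T.sN.2]
  have hkt : κ t = κ2 y + k := by rw [e2 t (Or.inr T.tN.1) T.bt.ne.symm T.ty, T.tN.2]
  have hkst : κ s ≠ κ t := by
    rw [hks, hkt, hk, T.O1.kpy]
    exact zaux_ne T.ka
  apply h.ind3 b y κ
  intro u v hu hv hadj
  by_cases huW : u ∈ W1 ∪ W2
  · exact side u v hu hv hadj huW
  by_cases hvW : v ∈ W1 ∪ W2
  · exact (side v u hv hu hadj.symm hvW).symm
  have huR := hrest u (h.edge_mem u v hadj) (fun hh => huW (Or.inl hh)) (fun hh => huW (Or.inr hh))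
  have hvR := hrest v (h.edge_mem v u hadj.symm) (fun hh => hvW (Or.inl hh))
    (fun hh => hvW (Or.inr hh))
  simp only [Set.mem_insert_iff, Set.mem_singleton_iff, not_or] at hu hv huR hvR
  have hu' : u = s ∨ u = t := by tauto
  have hv' : v = s ∨ v = t := by tauto
  rcases hu' with rfl | rfl <;> rcases hv' with rfl | rfl
  · exact absurd hadj (G.irrefl)
  · exact hkst
  · exact hkst.symm
  · exact absurd hadj (G.irrefl)

/-- The intersection has no vertex in the class of `a`. -/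
lemma TB.ck [Finite V] (h : GCore G U) (T : TB G U κ1 κ2 W1 W2 y a b c s t) {x : V}
    (h1 : x ∈ W1) (h2 : x ∈ W2) (hk : κ1 x + κ2 x = κ1 a + κ2 a) : False := by
  classical
  set C := Ck W1 W2 κ1 κ2 (κ1 a + κ2 a) with hC
  have hxC : x ∈ C := ⟨⟨h1, h2⟩, hk⟩
  have hCU : C ⊆ U := fun v hv => T.O1.sub hv.1.1
  have bC : Bal G κ1 C := T.O1.bal.mono (fun v hv => hv.1.1)
  have hsub : Nb G C ⊆ Qk G W1 W2 κ1 κ2 (κ1 a + κ2 a) := Nb_Ck T.O1.bal T.O2.bal _
  have h3 := three_le_Nb h hCU bC ⟨x, hxC⟩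
  have hq := T.q3 h
  have hle := Set.ncard_le_ncard hsub (Set.toFinite _)
  have hEq : Nb G C = Qk G W1 W2 κ1 κ2 (κ1 a + κ2 a) :=
    Set.eq_of_subset_of_ncard_le hsub (by omega) (Set.toFinite _)
  rcases Nat.lt_or_ge C.ncard 2 with hlt | hge
  · have hpos := (Set.ncard_pos (Set.toFinite C)).2 ⟨x, hxC⟩
    obtain ⟨d, hd⟩ := Set.ncard_eq_one.1 (by omega : C.ncard = 1)
    rw [hd, Set.mem_singleton_iff] at hxC
    rw [hd, ← hxC, Nb_singleton] at hEq
    have hxa : G.Adj x a := by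
      rw [← SimpleGraph.mem_neighborSet, hEq]; exact T.aQ
    have hxc : G.Adj x c := by
      rw [← SimpleGraph.mem_neighborSet, hEq]; exact T.cQ
    exact h.F1 a c x y T.adj (fun hh => T.O1.yN.1 (hh ▸ h1)) hxa.symm hxc.symm T.ya.symm
      T.yc.symm
  · have := h.P1 C hCU hge κ1 bC
    omega

/-- Neighbours of `a` in `W1`. -/
lemma TB.nbr_a [Finite V] (h : GCore G U) (T : TB G U κ1 κ2 W1 W2 y a b c s t) {x : V}
    (hx : x ∈ W1) (hadj : G.Adj a x) :
    x ∈ Nb G W2 ∧ x ∈ Qk G W1 W2 κ1 κ2 (κ1 a + κ2 a) := by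
  have hk : κ1 x + κ2 x = κ1 a + κ2 a :=
    class_adj T.O1.bal T.O2.bal (Or.inl hx) (Or.inr T.O2.cW) hadj.symm
  have hx2 := mem_union_Nb T.O2.cW hadj
  rcases hx2 with hx2 | hx2
  · exact (T.ck h hx hx2 hk).elim
  · exact ⟨hx2, Or.inl (Or.inr ⟨hx2, hx⟩), hk⟩

/-- Four elements of the class are too many. -/
lemma TB.four [Finite V] (h : GCore G U) (T : TB G U κ1 κ2 W1 W2 y a b c s t) {u v : V}
    (hu : u ∈ Qk G W1 W2 κ1 κ2 (κ1 a + κ2 a)) (hv : v ∈ Qk G W1 W2 κ1 κ2 (κ1 a + κ2 a))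
    (hua : u ≠ a) (huc : u ≠ c) (hva : v ≠ a) (hvc : v ≠ c) (huv : u ≠ v) : False := by
  have hsub : ({a, c, u, v} : Set V) ⊆ Qk G W1 W2 κ1 κ2 (κ1 a + κ2 a) := by
    rintro w (rfl | rfl | rfl | rfl)
    · exact T.aQ
    · exact T.cQ
    · exact hu
    · exact hv
  have h1 := Set.ncard_le_ncard hsub (Set.toFinite _)
  rw [ncard4 T.ac hua.symm hva.symm huc.symm hvc.symm huv] at h1
  have := T.q3 h
  omega

/-- One of `a`, `c` has only one neighbour on the other side. -/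
lemma TB.only [Finite V] (h : GCore G U) (T : TB G U κ1 κ2 W1 W2 y a b c s t) :
    (∀ x ∈ W1, G.Adj a x → x = c) ∨ (∀ x ∈ W2, G.Adj c x → x = a) := by
  by_contra hn
  push Not at hn
  obtain ⟨⟨x, hx, hax, hxc⟩, ⟨x', hx', hcx', hxa'⟩⟩ := hn
  have e1 := T.nbr_a h hx hax
  have e2 := T.symm.nbr_a h hx' hcx'
  have e3 : x' ∈ Qk G W1 W2 κ1 κ2 (κ1 a + κ2 a) := by
    have h2 := e2.2
    rw [Qk_comm] at h2
    have h3 : κ2 c + κ1 c = κ1 a + κ2 a := by rw [add_comm]; exact T.dc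
    rw [h3] at h2
    exact h2
  refine T.four h e1.2 e3 hax.ne.symm hxc hxa' hcx'.ne.symm ?_
  rintro rfl
  exact e1.1.1 hx'

/-- Two neighbours of a vertex of a balanced set which are adjacent lie outside. -/
lemma tri_out {κ : V → ZMod 2} {W : Set V} (hb : Bal G κ W) {x u v : V} (hx : x ∈ W)
    (hxu : G.Adj x u) (hxv : G.Adj x v) (huv : G.Adj u v) : u ∉ W := by
  intro hu
  exact hb u v hu huv (hb.eq hx hxu hxv)

/-- A cubic vertex of a balanced set has at most one neighbour in the set. -/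
lemma no_two_in [Finite V] (h : GCore G U) (hO : AllO3 G U) {κ : V → ZMod 2} {W : Set V}
    (hW : W ⊆ U) (hb : Bal G κ W) {x u v w : V} (hx : x ∈ W) (hN : G.neighborSet x = {u, v, w})
    (huv : u ≠ v) (huw : u ≠ w) (hvw : v ≠ w) (hu : u ∈ W) (hv : v ∈ W) : False := by
  have mx := adj3 hN
  have xu : G.Adj x u := (mx u).2 (by tauto)
  have xv : G.Adj x v := (mx v).2 (by tauto)
  have xw : G.Adj x w := (mx w).2 (by tauto)
  exact cubic_tri h hO (hW hx) huv huw hvw hN (fun hh => tri_out hb hx xu xv hh hu)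
    (fun hh => tri_out hb hx xu xw hh hu) (fun hh => tri_out hb hx xv xw hh hv)

/-- If `c` has only the neighbour `a` in `W2` then `W2` is a pair. -/
theorem TB.side [Finite V] (h : GCore G U) (hO : AllO3 G U)
    (T : TB G U κ1 κ2 W1 W2 y a b c s t) (hc : ∀ x ∈ W2, G.Adj c x → x = a) :
    ∃ x m, x ∈ W2 ∧ x ≠ a ∧ G.neighborSet x = {b, t, m} ∧ G.neighborSet a = {c, y, t, m} ∧
      m ≠ c ∧ m ≠ b ∧ m ≠ y ∧ m ≠ t ∧ m ∈ Nb G W2 := by
  classical
  have hyb := T.yb.ne
  have hyc := T.yc.ne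
  have htc : t ≠ c := by
    rintro rfl
    exact T.ncb T.bt.symm
  obtain ⟨m, hN2, m1, m2, m3, m4⟩ := fifth_of_ncard5 T.O2.five T.O2.pN T.O2.qN T.O2.yN T.tN.1
    T.bc.symm hyc.symm htc.symm hyb.symm T.bt.ne T.ty.symm
  have hmN : m ∈ Nb G W2 := by rw [hN2]; simp
  have haW := T.O2.cW
  have hDU : W2 \ {a} ⊆ U := fun v hv => T.O2.sub hv.1
  have bD : Bal G κ2 (W2 \ {a}) := T.O2.bal.mono (fun v hv => hv.1)
  have hND : Nb G (W2 \ {a}) ⊆ {b, t, m, a} := by
    rintro v ⟨hv, u, hu, hadj⟩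
    by_cases hva : v = a
    · simp [hva]
    have hvW : v ∉ W2 := fun hh => hv ⟨hh, hva⟩
    have hvN : v ∈ Nb G W2 := ⟨hvW, u, hu.1, hadj⟩
    rw [hN2] at hvN
    rcases hvN with rfl | rfl | rfl | rfl | rfl
    · exact absurd (hc u hu.1 hadj.symm) hu.2
    · simp
    · exfalso
      rcases (adj3 T.Ny u).1 hadj.symm with rfl | rfl | rfl
      · exact hu.2 rfl
      · exact T.O2.qN.1 hu.1
      · exact T.O2.pN.1 hu.1
    · simp
    · simp
  obtain ⟨-, x0, hx0, hx0b⟩ := T.O2.qN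
  have hx0a : x0 ≠ a := by rintro rfl; exact T.nab hx0b
  have hx0D : x0 ∈ W2 \ {a} := ⟨hx0, hx0a⟩
  have hbD : b ∈ Nb G (W2 \ {a}) := ⟨fun hh => T.O2.qN.1 hh.1, x0, hx0D, hx0b⟩
  have kab : κ2 a ≠ κ2 b := by
    rw [← T.O2.kpq, T.O2.kpy]; exact T.ka
  rcases Nat.lt_or_ge (W2 \ {a}).ncard 2 with hlt | hge
  · have hpos := (Set.ncard_pos (Set.toFinite (W2 \ {a}))).2 ⟨x0, hx0D⟩
    obtain ⟨x, hx⟩ := Set.ncard_eq_one.1 (by omega : (W2 \ {a}).ncard = 1)
    rw [hx, Set.mem_singleton_iff] at hx0D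
    subst hx0D
    rw [hx, Nb_singleton] at hND
    have hxa : ¬ G.Adj x0 a := by
      intro hh
      exact T.O2.bal x0 a hx0 hh (eq_of_ne_of_ne (T.O2.bal x0 b hx0 hx0b) kab)
    have hNx : G.neighborSet x0 ⊆ {b, t, m} := by
      intro v hv
      rcases hND hv with hh | hh | hh | hh
      · exact Or.inl hh
      · exact Or.inr (Or.inl hh)
      · exact Or.inr (Or.inr hh)
      · rw [Set.mem_singleton_iff] at hh
        rw [hh] at hv
        exact absurd hv hxa
    have hc3 : ({b, t, m} : Set V).ncard = 3 := ncard3 T.bt.ne m2.symm m4.symm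
    have hNx' : G.neighborSet x0 = {b, t, m} :=
      Set.eq_of_subset_of_ncard_le hNx (by rw [hc3]; exact h.deg3 x0 (T.O2.sub hx0))
        (Set.toFinite _)
    have hW2 : W2 = insert a {x0} := by
      rw [← hx]
      ext v
      simp only [Set.mem_insert_iff, Set.mem_sdiff, Set.mem_singleton_iff]
      constructor
      · intro hv
        by_cases hva : v = a
        · exact Or.inl hva
        · exact Or.inr ⟨hv, hva⟩
      · rintro (rfl | hv)
        · exact haW
        · exact hv.1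
    have hNa : G.neighborSet a ⊆ {c, y, t, m} := by
      intro v hv
      have hv' : G.Adj a v := hv
      rcases mem_union_Nb haW hv' with hh | hh
      · rw [hW2] at hh
        rcases hh with hh | hh
        · exact absurd hh hv'.ne.symm
        · rw [Set.mem_singleton_iff] at hh
          rw [hh] at hv'
          exact absurd hv'.symm hxa
      · rw [hN2] at hh
        rcases hh with hh | hh | hh | hh | hh
        · exact Or.inl hh
        · rw [hh] at hv'; exact absurd hv' T.nab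
        · exact Or.inr (Or.inl hh)
        · exact Or.inr (Or.inr (Or.inl hh))
        · exact Or.inr (Or.inr (Or.inr hh))
    have hfd : fden G W2 = ((G.neighborSet a).ncard : ℤ) - 1 := by
      rw [hW2, fden_insert G (by simpa using hx0a.symm)]
      have e1 : G.neighborSet a \ {x0} = G.neighborSet a := by
        ext v
        constructor
        · exact fun hv => hv.1
        · intro hv
          refine ⟨hv, ?_⟩
          rintro hh
          rw [Set.mem_singleton_iff] at hh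
          rw [hh] at hv
          exact hxa (SimpleGraph.Adj.symm hv)
      rw [e1]
      have e2 : fden G {x0} = 1 := by
        unfold fden
        rw [rho_singleton, hNx', hc3, Set.ncard_singleton]; norm_num
      rw [e2]; ring
    have hmono : beta κ2 (Nb G W2 \ {y}) = 2 := by
      have hset : Nb G W2 \ {y} = {c, b, t, m} := by
        rw [hN2]
        ext v
        simp only [Set.mem_sdiff, Set.mem_insert_iff, Set.mem_singleton_iff]
        constructor
        · rintro ⟨hh | hh | hh | hh | hh, hvy⟩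
          · exact Or.inl hh
          · exact Or.inr (Or.inl hh)
          · exact absurd hh hvy
          · exact Or.inr (Or.inr (Or.inl hh))
          · exact Or.inr (Or.inr (Or.inr hh))
        · rintro (rfl | rfl | rfl | rfl)
          · exact ⟨by simp, hyc.symm⟩
          · exact ⟨by simp, hyb.symm⟩
          · exact ⟨by simp, T.ty⟩
          · exact ⟨by simp, m3⟩
      rw [hset, beta_of_mono, ncard4 T.bc.symm htc.symm m1.symm T.bt.ne m2.symm m4.symm]
      · norm_num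
      · have hk : ∀ v ∈ ({c, b, t, m} : Set V), κ2 v = κ2 y := by
          rintro v (rfl | rfl | rfl | rfl)
          · exact T.O2.kpy
          · rw [← T.O2.kpq]; exact T.O2.kpy
          · exact T.tN.2
          · have hxm : G.Adj x0 v := (adj3 hNx' v).2 (by tauto)
            rw [T.O2.bal.eq hx0 hxm hx0b, ← T.O2.kpq]; exact T.O2.kpy
        intro u hu v hv
        rw [hk u hu, hk v hv]
    have htight := T.O2.tight
    rw [hfd, hmono] at htight
    have ha4 : (G.neighborSet a).ncard = 4 := by omega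
    have hNa' : G.neighborSet a = {c, y, t, m} :=
      Set.eq_of_subset_of_ncard_le hNa (by
        rw [ha4, ncard4 hyc.symm htc.symm m1.symm T.ty.symm m3.symm m4.symm]) (Set.toFinite _)
    exact ⟨x0, m, hx0, hx0a, hNx', hNa', m1, m2, m3, m4, hmN⟩
  · exfalso
    have hP1 := h.P1 _ hDU hge κ2 bD
    have hc4 : ({b, t, m, a} : Set V).ncard = 4 := by
      have hma : m ≠ a := fun hh => hmN.1 (hh ▸ haW)
      exact ncard4 T.bt.ne m2.symm T.ab.symm m4.symm T.at'.ne.symm hma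
    have hEq : Nb G (W2 \ {a}) = {b, t, m, a} :=
      Set.eq_of_subset_of_ncard_le hND (by rw [hc4]; exact hP1) (Set.toFinite _)
    have haD : a ∈ Nb G (W2 \ {a}) := by rw [hEq]; simp
    have hLL := all_LL h hDU bD (by rw [hEq, hc4])
    rcases hLL with ⟨x, hx⟩ | ⟨w1, w2, a', b', e, g, hL⟩ | ⟨x1, x2, p, q, r, s', hL⟩ |
      ⟨w, y1, y2, n1, n2, n3, n4, hL⟩ | ⟨x1, x2, y1, y2, p, q, r, s', hL⟩
    · rw [hx, Set.ncard_singleton] at hge
      omega
    · have hall : ∀ v ∈ Nb G (W2 \ {a}), κ2 v = κ2 e := by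
        rintro v ⟨-, u, hu, hadj⟩
        have hue : G.Adj u e := by
          rw [hL.eq] at hu
          rcases hu with rfl | rfl
          · exact (adj3 hL.n1 e).2 (by tauto)
          · exact (adj3 hL.n2 e).2 (by tauto)
        exact bD.eq hu hadj hue
      exact kab ((hall a haD).trans (hall b hbD).symm)
    · have hx1D : x1 ∈ W2 \ {a} := by rw [hL.eq]; simp
      have hx2D : x2 ∈ W2 \ {a} := by rw [hL.eq]; simp
      obtain ⟨-, u, hu, hadj⟩ := haD
      rw [hL.eq] at hu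
      have hgen : ∀ x z p q, x ∈ W2 \ {a} → z ∈ W2 \ {a} → G.neighborSet x = {z, p, q} → p ≠ q →
          p ≠ z → q ≠ z → G.Adj x a → False := by
        intro x z p q hx hz hN hpq hpz hqz hadj
        rcases (adj3 hN a).1 hadj with hh | hh | hh
        · exact hz.2 hh.symm
        · rw [← hh] at hN hpq hpz
          exact no_two_in h hO T.O2.sub T.O2.bal hx.1 hN hpz.symm hqz.symm hpq hz.1 haW
        · rw [← hh] at hN hpq hqz
          have hN' : G.neighborSet x = {z, a, p} := by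
            rw [hN]; ext v; simp only [Set.mem_insert_iff, Set.mem_singleton_iff]; tauto
          exact no_two_in h hO T.O2.sub T.O2.bal hx.1 hN' hqz.symm hpz.symm hpq.symm hz.1 haW
      rcases hu with rfl | rfl
      · exact hgen _ _ _ _ hx1D hx2D hL.n1 hL.pq hL.px hL.qx hadj
      · exact hgen _ _ _ _ hx2D hx1D hL.n2 hL.rs hL.rx hL.sx hadj
    · have hwD : w ∈ W2 \ {a} := by rw [hL.eq]; simp
      have hy1D : y1 ∈ W2 \ {a} := by rw [hL.eq]; simp
      have hy2D : y2 ∈ W2 \ {a} := by rw [hL.eq]; simp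
      exact no_two_in h hO T.O2.sub T.O2.bal hwD.1 hL.nw hL.yy hL.y1n hL.y2n hy1D.1 hy2D.1
    · have hx1D : x1 ∈ W2 \ {a} := by rw [hL.eq]; simp
      have hy1D : y1 ∈ W2 \ {a} := by rw [hL.eq]; simp
      have hy2D : y2 ∈ W2 \ {a} := by rw [hL.eq]; simp
      exact no_two_in h hO T.O2.sub T.O2.bal hx1D.1 hL.nx1 hL.yy hL.py1.symm hL.py2.symm
        hy1D.1 hy2D.1

/-- Both sides are pairs. -/
theorem TB.both [Finite V] (h : GCore G U) (hO : AllO3 G U)
    (T : TB G U κ1 κ2 W1 W2 y a b c s t) (hc : ∀ x ∈ W2, G.Adj c x → x = a) :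
    (G.neighborSet a).ncard = 4 ∧ (G.neighborSet c).ncard = 4 ∧ 5 ≤ (G.neighborSet b).ncard ∧
      ∃ x u v, x ∈ U ∧ b ≠ u ∧ b ≠ v ∧ u ≠ v ∧ G.neighborSet x = {b, u, v} ∧ G.Adj b u := by
  classical
  have hyb := T.yb.ne
  have hyc := T.yc.ne
  have htc : t ≠ c := by
    rintro rfl
    exact T.ncb T.bt.symm
  have hsa : s ≠ a := by
    rintro rfl
    exact T.nab T.bs.symm
  obtain ⟨x, m, hx, hxa, hNx, hNa, m1, m2, m3, m4, hmN⟩ := T.side h hO hc
  have mx := adj3 hNx
  have hxm : G.Adj x m := (mx m).2 (by tauto)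
  have ham : G.Adj a m := by
    rw [← SimpleGraph.mem_neighborSet, hNa]; simp
  have hmW1 : m ∉ W1 := by
    intro hm
    have e1 := (T.nbr_a h hm ham).2
    have hk : κ1 x + κ2 x = κ1 a + κ2 a :=
      (class_adj T.O1.bal T.O2.bal (Or.inr hm) (Or.inl hx) hxm).trans e1.2
    have hxN : x ∈ W1 ∪ Nb G W1 := mem_union_Nb hm hxm.symm
    rcases hxN with hxN | hxN
    · exact T.ck h hxN hx hk
    · refine T.four h e1 ⟨Or.inl (Or.inl ⟨hxN, hx⟩), hk⟩ ham.ne.symm m1 hxa ?_ hxm.ne.symm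
      rintro rfl
      exact hxN.1 T.O1.cW
  have ha : ∀ z ∈ W1, G.Adj a z → z = c := by
    intro z hz haz
    have hz' : z ∈ G.neighborSet a := haz
    rw [hNa] at hz'
    rcases hz' with hh | hh | hh | hh
    · exact hh
    · exact absurd (hh ▸ hz) T.O1.yN.1
    · exact absurd (hh ▸ hz) T.tW1
    · rw [Set.mem_singleton_iff] at hh
      exact absurd (hh ▸ hz) hmW1
  obtain ⟨x', n, hx', hxc', hNx', hNc, n1, n2, n3, n4, hnN⟩ := T.symm.side h hO ha
  have mx' := adj3 hNx'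
  refine ⟨?_, ?_, ?_, x, t, m, T.O2.sub hx, T.bt.ne, m2.symm, m4.symm, hNx, T.bt⟩
  · rw [hNa, ncard4 hyc.symm htc.symm m1.symm T.ty.symm m3.symm m4.symm]
  · rw [hNc, ncard4 T.ya.ne.symm hsa.symm n1.symm T.sy.symm n3.symm n4.symm]
  · have hst := T.st h
    have hxx : x ≠ x' := by
      rintro rfl
      have hxs : G.Adj x s := (mx' s).2 (by tauto)
      exact h.F1 b x s t ((mx b).2 (by tauto)).symm hst T.bs hxs T.bt ((mx t).2 (by tauto))
    have hsub : ({y, x, x', s, t} : Set V) ⊆ G.neighborSet b := by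
      rintro v (rfl | rfl | rfl | rfl | rfl)
      · exact T.yb.symm
      · exact ((mx b).2 (by tauto)).symm
      · exact ((mx' b).2 (by tauto)).symm
      · exact T.bs
      · exact T.bt
    have hle := Set.ncard_le_ncard hsub (Set.toFinite _)
    have hyx : y ≠ x := by rintro rfl; exact T.O2.yN.1 hx
    have hyx' : y ≠ x' := by rintro rfl; exact T.O1.yN.1 hx'
    rw [ncard5 hyx hyx' T.sy.symm
      T.ty.symm hxx (fun hh => T.sW2 (hh ▸ hx)) (fun hh => T.tN.1.1 (hh ▸ hx))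
      (fun hh => T.sN.1.1 (hh ▸ hx')) (fun hh => T.tW1 (hh ▸ hx')) hst] at hle
    exact hle

end TB

/-- The degrees at a cubic vertex of a triangle. -/
theorem deg_tri [Finite V] {G : SimpleGraph V} {U : Set V} (h : GCore G U) (hO : AllO3 G U)
    {y a b c : V} (hy : y ∈ U) (hab : a ≠ b) (hac : a ≠ c) (hbc : b ≠ c)
    (hNy : G.neighborSet y = {a, b, c}) (hadj : G.Adj a c) :
    (G.neighborSet a).ncard = 4 ∧ (G.neighborSet c).ncard = 4 ∧ 5 ≤ (G.neighborSet b).ncard ∧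
      ∃ x u v, x ∈ U ∧ b ≠ u ∧ b ≠ v ∧ u ≠ v ∧ G.neighborSet x = {b, u, v} ∧ G.Adj b u := by
  have my := adj3 hNy
  have hya : G.Adj y a := (my a).2 (by tauto)
  have hyb : G.Adj y b := (my b).2 (by tauto)
  have hyc : G.Adj y c := (my c).2 (by tauto)
  have nab : ¬ G.Adj a b := fun hh => h.F1 y a c b hya hbc.symm hyc hadj hyb hh
  have ncb : ¬ G.Adj c b := fun hh => h.F1 y c a b hyc hab hya hadj.symm hyb hh
  obtain ⟨W1, κ1, O1⟩ := hO y a b c hy hab hac hbc nab hNy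
  obtain ⟨W2, κ2, O2⟩ := hO y c b a hy hbc.symm hac.symm hab.symm ncb (by
    rw [hNy]; ext v; simp only [Set.mem_insert_iff, Set.mem_singleton_iff]; tauto)
  obtain ⟨t, ty, at', bt⟩ := O1.com
  obtain ⟨s, sy, cs, bs⟩ := O2.com
  have T : TB G U κ1 κ2 W1 W2 y a b c s t :=
    ⟨hy, hNy, hab, hac, hbc, nab, ncb, hadj, O1, O2, sy, cs, bs, ty, at', bt⟩
  rcases T.only h with h1 | h1
  · obtain ⟨e1, e2, e3, e4⟩ := T.symm.both h hO h1
    exact ⟨e2, e1, e3, e4⟩
  · exact T.both h hO h1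

/-- If every pair of nonadjacent neighbours of every cubic vertex has the obstacle `O3`, then there
is no cubic vertex (helper20, o3cross, steps 2 and 3). -/
theorem o3_end [Finite V] {G : SimpleGraph V} {U : Set V} (h : GCore G U)
    (hO : ∀ y a b c, y ∈ U → a ≠ b → a ≠ c → b ≠ c → ¬ G.Adj a b → G.neighborSet y = {a, b, c} →
      ∃ W κ, O3W G U κ W y a b c) {y : V}
    (hy : y ∈ U) : (G.neighborSet y).ncard ≠ 3 := by
  intro h3
  obtain ⟨a, b, c, hab, hac, hbc, hN⟩ := Set.ncard_eq_three.1 h3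
  have key : ∀ a b c, a ≠ b → a ≠ c → b ≠ c → G.neighborSet y = {a, b, c} → ¬ G.Adj a c := by
    intro a b c hab hac hbc hN hadj
    obtain ⟨-, -, h5, x, u, v, hx, hbu, hbv, huv, hNx, hadj'⟩ :=
      deg_tri h hO hy hab hac hbc hN hadj
    have hNx' : G.neighborSet x = {b, v, u} := by
      rw [hNx]; ext w; simp only [Set.mem_insert_iff, Set.mem_singleton_iff]; tauto
    obtain ⟨h4, -⟩ := deg_tri h hO hx hbv hbu huv.symm hNx' hadj'
    omega
  exact cubic_tri h hO hy hab hac hbc hN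
    (key a c b hac hab hbc.symm (by
      rw [hN]; ext w; simp only [Set.mem_insert_iff, Set.mem_singleton_iff]; tauto))
    (key a b c hab hac hbc hN)
    (key b a c hab.symm hbc hac (by
      rw [hN]; ext w; simp only [Set.mem_insert_iff, Set.mem_singleton_iff]; tauto))

end Pool.Agent.Helper51.GX
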