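import Pool.Agent.Helper51.GX.Exits

/-!
# The global part: the obstacle `O3` for a pair inside a minimal non-list set
-/

set_option autoImplicit false

namespace Pool.Agent.Helper51.GX

open SimpleGraph Pool.Agent.Helper57.TOK Pool.Agent.Helper57.TD
open Pool.Agent.Helper51.TDC (adj3 ncard3 ncard4 ncard5 two_le_of_mem)

variable {V : Type*}

/-- The deletion count for a class. -/
lemma cls_del [Finite V] {G : SimpleGraph V} {U : Set V} (h : GCore G U)
    {A X : Set V} {κA κX : V → ZMod 2} (hA : A ⊆ U) (hX : X ⊆ U) (bA : Bal G κA A)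
    (bX : Bal G κX X) (h2 : 2 ≤ (A ∪ X).ncard) (hm3 : (Nb G (A ∪ X)).ncard ≤ 3) (k : ZMod 2) :
    ((Nb G (A ∪ X)).ncard ≤ (Qk G A X κA κX (k + 1) ∩ (Nb G A ∩ Nb G X)).ncard ∧
      3 ≤ (Qk G A X κA κX (k + 1) ∩ X).ncard + (Nb G (A ∪ X)).ncard) ∨
      4 ≤ (Qk G A X κA κX (k + 1) ∩ X).ncard + (Nb G (A ∪ X)).ncard := by
  classical
  have : Nonempty V := by
    have : (A ∪ X).Nonempty := by rw [← Set.ncard_pos (Set.toFinite _)]; omega
    exact ⟨this.some⟩
  set Q' := Qk G A X κA κX (k + 1) with hQ'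
  set B := Nb G (A ∪ X) with hB
  set T' := Q' ∩ (Nb G A ∩ Nb G X) with hT'
  have hR := h.I4 (A ∪ X) (Set.union_subset hA hX) h2 hm3
  rw [← hB] at hR
  have hTB : T' ⊆ B := by
    rintro v ⟨-, hv1, hv2⟩
    obtain ⟨hvA, u, hu, hadj⟩ := hv1
    refine ⟨?_, u, Or.inl hu, hadj⟩
    rintro (hh | hh)
    · exact hvA hh
    · exact hv2.1 hh
  -- `n` is the boundary vertex which is kept (if there is one)
  obtain ⟨Del, n, hD1, hD2, hD3, hDc⟩ : ∃ (Del : Set V) (n : V), Q' ∩ X ⊆ Del ∧ T' ⊆ Del ∧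
      (∀ v ∈ B, v ∉ Del → v = n) ∧ ((B.ncard ≤ T'.ncard ∧ Del.ncard ≤ (Q' ∩ X).ncard + B.ncard) ∨
        Del.ncard + 1 ≤ (Q' ∩ X).ncard + B.ncard) := by
    by_cases hex : ∃ n ∈ B, n ∉ T'
    · obtain ⟨n, hnB, hnT⟩ := hex
      refine ⟨(Q' ∩ X) ∪ (B \ {n}), n, Set.subset_union_left, ?_, ?_, ?_⟩
      · intro v hv
        refine Or.inr ⟨hTB hv, ?_⟩
        rintro hh
        rw [Set.mem_singleton_iff] at hh
        exact hnT (hh ▸ hv)
      · intro v hv hvD
        by_contra hne
        exact hvD (Or.inr ⟨hv, hne⟩)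
      · right
        have h3 := Set.ncard_union_le (Q' ∩ X) (B \ {n})
        have h4 := Set.ncard_sdiff_singleton_add_one hnB (Set.toFinite _)
        omega
    · push Not at hex
      obtain ⟨n⟩ := ‹Nonempty V›
      refine ⟨(Q' ∩ X) ∪ B, n, Set.subset_union_left, hTB.trans Set.subset_union_right,
        fun v hv hvD => absurd (Or.inr hv) hvD, ?_⟩
      left
      exact ⟨Set.ncard_le_ncard (show B ⊆ T' from hex) (Set.toFinite _), Set.ncard_union_le _ _⟩
  -- the colouring
  let κ0 : V → ZMod 2 := fun v => if v ∈ A ∪ Nb G A then κA v else κX v + k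
  let κ : V → ZMod 2 := fun v => if v ∈ A ∪ X ∪ B then κ0 v else κ0 n + 1
  have inAX : ∀ v, v ∈ A ∪ Nb G A → v ∈ A ∪ X ∪ B := by
    rintro v (hv | ⟨hv, u, hu, hadj⟩)
    · exact Or.inl (Or.inl hv)
    · by_cases hvX : v ∈ X
      · exact Or.inl (Or.inr hvX)
      · refine Or.inr ⟨?_, u, Or.inl hu, hadj⟩
        rintro (hh | hh)
        · exact hv hh
        · exact hvX hh
  have inAX' : ∀ v, v ∈ X ∪ Nb G X → v ∈ A ∪ X ∪ B := by
    rintro v (hv | ⟨hv, u, hu, hadj⟩)
    · exact Or.inl (Or.inr hv)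
    · by_cases hvA : v ∈ A
      · exact Or.inl (Or.inl hvA)
      · refine Or.inr ⟨?_, u, Or.inr hu, hadj⟩
        rintro (hh | hh)
        · exact hvA hh
        · exact hv hh
  have kA : ∀ v, v ∈ A ∪ Nb G A → κ v = κA v := by
    intro v hv
    show (if v ∈ A ∪ X ∪ B then κ0 v else κ0 n + 1) = _
    rw [if_pos (inAX v hv)]
    show (if v ∈ A ∪ Nb G A then κA v else κX v + k) = _
    rw [if_pos hv]
  have kX : ∀ v, v ∈ X ∪ Nb G X → v ∉ A → v ∉ Del → κ v = κX v + k := by
    intro v hv hvA hvD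
    by_cases hvN : v ∈ Nb G A
    · rw [kA v (Or.inr hvN)]
      apply add_left_class
      by_contra hne
      have hcl := ne_class hne
      have hvQ : v ∈ QQ G A X := by
        rcases mem_QQ_or (Or.inr hvN) hv with hh | hh
        · exact absurd hh.1 hvA
        · exact hh
      rcases hv with hv | hv
      · exact hvD (hD1 ⟨⟨hvQ, hcl⟩, hv⟩)
      · exact hvD (hD2 ⟨⟨hvQ, hcl⟩, hvN, hv⟩)
    · show (if v ∈ A ∪ X ∪ B then κ0 v else κ0 n + 1) = _
      rw [if_pos (inAX' v hv)]
      show (if v ∈ A ∪ Nb G A then κA v else κX v + k) = _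
      rw [if_neg]
      rintro (hh | hh)
      · exact hvA hh
      · exact hvN hh
  have side : ∀ u v, u ∉ Del → v ∉ Del → G.Adj u v → u ∈ A ∪ X → κ u ≠ κ v := by
    intro u v hu hv hadj huAX
    by_cases huA : u ∈ A
    · rw [kA u (Or.inl huA), kA v (mem_union_Nb huA hadj)]
      exact bA u v huA hadj
    · have huX : u ∈ X := by
        rcases huAX with hh | hh
        · exact absurd hh huA
        · exact hh
      by_cases hvA : v ∈ A
      · rw [kA v (Or.inl hvA), kA u (mem_union_Nb hvA hadj.symm)]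
        exact (bA v u hvA hadj.symm).symm
      · rw [kX u (Or.inl huX) huA hu, kX v (mem_union_Nb huX hadj) hvA hv]
        exact add_ne_add (bX u v huX hadj)
  have h3 := three_le_of_bal h (D := Del) (κ := κ) (by
    intro u v hu hv hadj
    by_cases huAX : u ∈ A ∪ X
    · exact side u v hu hv hadj huAX
    by_cases hvAX : v ∈ A ∪ X
    · exact (side v u hv hu hadj.symm hvAX).symm
    -- both in `B` or the rest
    have huU := h.edge_mem u v hadj
    have hvU := h.edge_mem v u hadj.symm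
    by_cases huB : u ∈ B
    · have hun := hD3 u huB hu
      by_cases hvB : v ∈ B
      · have hvn := hD3 v hvB hv
        exact absurd (hun.trans hvn.symm) hadj.ne
      · have e1 : κ u = κ0 n := by
          show (if u ∈ A ∪ X ∪ B then κ0 u else κ0 n + 1) = _
          rw [if_pos (show u ∈ A ∪ X ∪ B from Or.inr huB), hun]
        have e2 : κ v = κ0 n + 1 := by
          show (if v ∈ A ∪ X ∪ B then κ0 v else κ0 n + 1) = _
          rw [if_neg]
          rintro (hh | hh)
          · exact hvAX hh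
          · exact hvB hh
        rw [e1, e2]
        exact ne_add_one _
    · by_cases hvB : v ∈ B
      · have hvn := hD3 v hvB hv
        have e1 : κ v = κ0 n := by
          show (if v ∈ A ∪ X ∪ B then κ0 v else κ0 n + 1) = _
          rw [if_pos (show v ∈ A ∪ X ∪ B from Or.inr hvB), hvn]
        have e2 : κ u = κ0 n + 1 := by
          show (if u ∈ A ∪ X ∪ B then κ0 u else κ0 n + 1) = _
          rw [if_neg]
          rintro (hh | hh)
          · exact huAX hh
          · exact huB hh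
        rw [e1, e2]
        exact (ne_add_one _).symm
      · exfalso
        have h4 := (Set.ncard_le_one (Set.toFinite _)).1 hR u ⟨huU, fun hh => by
          rcases hh with hh | hh
          · exact huAX hh
          · exact huB hh⟩ v ⟨hvU, fun hh => by
          rcases hh with hh | hh
          · exact hvAX hh
          · exact hvB hh⟩
        exact hadj.ne h4)
  omega


/-- A nonempty class has at least three boundary vertices. -/
lemma Qk_three [Finite V] {G : SimpleGraph V} {U : Set V} (h : GCore G U)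
    {A X : Set V} {κA κX : V → ZMod 2} (hA : A ⊆ U) (bA : Bal G κA A)
    (bX : Bal G κX X) (k : ZMod 2) (hC : (Ck A X κA κX k).Nonempty) :
    3 ≤ (Qk G A X κA κX k).ncard := by
  have hNb := Nb_Ck bA bX k
  have hCA : Ck A X κA κX k ⊆ A := fun v hv => hv.1.1
  by_cases h2 : 2 ≤ (Ck A X κA κX k).ncard
  · have h3 := h.P1 _ (hCA.trans hA) h2 κA (bA.mono hCA)
    have h4 := Set.ncard_le_ncard hNb (Set.toFinite _)
    omega
  · obtain ⟨x, hx⟩ := hC
    have h1 : Ck A X κA κX k = {x} := by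
      have : (Ck A X κA κX k).ncard ≤ 1 := by omega
      rw [Set.ncard_le_one (Set.toFinite _)] at this
      ext z
      constructor
      · intro hz; exact this z hz x hx
      · intro hz; rw [Set.mem_singleton_iff] at hz; rw [hz]; exact hx
    have h3 := h.deg3 x (hA (hCA hx))
    have h4 : G.neighborSet x ⊆ Qk G A X κA κX k := by
      intro z hz
      apply hNb
      rw [h1]
      exact ⟨fun hh => (G.ne_of_adj hz) (Set.mem_singleton_iff.1 hh).symm, x, rfl, hz⟩
    have h5 := Set.ncard_le_ncard h4 (Set.toFinite _)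
    omega

/-- All wrong edges are `y c` or inside a triple. -/
lemma tri_case [Finite V] {G : SimpleGraph V} {U : Set V} (h : GCore G U) {y c n1 n2 n3 : V}
    {K : V → ZMod 2} (y1 : y ≠ n1) (y2 : y ≠ n2) (y3 : y ≠ n3) (c1 : c ≠ n1) (c2 : c ≠ n2)
    (c3 : c ≠ n3)
    (hw : ∀ u v, G.Adj u v → K u = K v → s(u, v) = s(y, c) ∨
      (u ∈ ({n1, n2, n3} : Set V) ∧ v ∈ ({n1, n2, n3} : Set V))) : False := by
  have key : ∀ a b d : V, ({a, b, d} : Set V) = {n1, n2, n3} → G.Adj a b ∧ K a = K b := by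
    intro a b d hset
    have h1 := h.ind3 y d K
    push Not at h1
    obtain ⟨u, v, hu, hv, huv, hk⟩ := h1
    have huy : u ≠ y := fun hh => hu (Or.inl hh)
    have hvy : v ≠ y := fun hh => hv (Or.inl hh)
    have hud : u ≠ d := fun hh => hu (Or.inr hh)
    have hvd : v ≠ d := fun hh => hv (Or.inr hh)
    rcases hw u v huv hk with h2 | ⟨h2, h3⟩
    · exfalso
      rw [Sym2.eq_iff] at h2
      rcases h2 with ⟨h2, -⟩ | ⟨-, h2⟩
      · exact huy h2
      · exact hvy h2
    · rw [← hset] at h2 h3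
      rcases h2 with h2 | h2 | h2
      · rcases h3 with h3 | h3 | h3
        · exact absurd (h2.trans h3.symm) huv.ne
        · rw [← h2, ← h3]; exact ⟨huv, hk⟩
        · exact absurd h3 hvd
      · rcases h3 with h3 | h3 | h3
        · rw [← h2, ← h3]; exact ⟨huv.symm, hk.symm⟩
        · exact absurd (h2.trans h3.symm) huv.ne
        · exact absurd h3 hvd
      · exact absurd h2 hud
  have e12 := key n1 n2 n3 rfl
  have e13 := key n1 n3 n2 (by
    ext x; simp only [Set.mem_insert_iff, Set.mem_singleton_iff]; clear * -; tauto)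
  have e23 := key n2 n3 n1 (by
    ext x; simp only [Set.mem_insert_iff, Set.mem_singleton_iff]; clear * -; tauto)
  exact h.TRI y c n1 n2 n3 K y1 y2 y3 c1 c2 c3 e12.1 e13.1 e23.1 e12.2 e13.2 hw

/-- All wrong edges off `z0` are `y c` or inside `N(z0)`. -/
lemma tri_case0 [Finite V] {G : SimpleGraph V} {U : Set V} (h : GCore G U) {y c z0 n1 n2 n3 : V}
    {K : V → ZMod 2} (y0 : y ≠ z0) (c0 : c ≠ z0) (y1 : y ≠ n1) (y2 : y ≠ n2) (y3 : y ≠ n3)
    (c1 : c ≠ n1) (c2 : c ≠ n2) (c3 : c ≠ n3) (hN : G.neighborSet z0 = {n1, n2, n3})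
    (hw : ∀ u v, u ≠ z0 → v ≠ z0 → G.Adj u v → K u = K v → s(u, v) = s(y, c) ∨
      (u ∈ ({n1, n2, n3} : Set V) ∧ v ∈ ({n1, n2, n3} : Set V))) : False := by
  classical
  have hN' : ∀ v, G.Adj z0 v ↔ v = n1 ∨ v = n2 ∨ v = n3 := fun v => adj3 hN v
  have hz1 : n1 ≠ z0 := fun hh => ((hN' n1).2 (Or.inl rfl)).ne hh.symm
  have hz2 : n2 ≠ z0 := fun hh => ((hN' n2).2 (Or.inr (Or.inl rfl))).ne hh.symm
  have hz3 : n3 ≠ z0 := fun hh => ((hN' n3).2 (Or.inr (Or.inr rfl))).ne hh.symm
  -- two of one colour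
  have two : ∀ m1 m2 m3 : V, ({m1, m2, m3} : Set V) = {n1, n2, n3} → K m1 = K m2 →
      K m1 ≠ K m3 → False := by
    intro m1 m2 m3 hset h12 h13
    have hmem : ∀ v, G.Adj z0 v ↔ v = m1 ∨ v = m2 ∨ v = m3 := fun v => adj3 (hN.trans hset.symm) v
    have hm1 : m1 ≠ z0 := fun hh => ((hmem m1).2 (Or.inl rfl)).ne hh.symm
    have hm2 : m2 ≠ z0 := fun hh => ((hmem m2).2 (Or.inr (Or.inl rfl))).ne hh.symm
    have hm3 : m3 ≠ z0 := fun hh => ((hmem m3).2 (Or.inr (Or.inr rfl))).ne hh.symm
    have hy : y ∉ ({m1, m2, m3} : Set V) := by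
      rw [hset]; rintro (hh | hh | hh)
      · exact y1 hh
      · exact y2 hh
      · exact y3 hh
    have hc : c ∉ ({m1, m2, m3} : Set V) := by
      rw [hset]; rintro (hh | hh | hh)
      · exact c1 hh
      · exact c2 hh
      · exact c3 hh
    let K' : V → ZMod 2 := fun v => if v = z0 then K m1 else K v
    have k0 : K' z0 = K m1 := if_pos rfl
    have k1 : ∀ v, v ≠ z0 → K' v = K v := fun v hv => if_neg hv
    -- wrong edges inside the triple
    have inner : ∀ u v, u ≠ z0 → v ≠ z0 → G.Adj u v → K u = K v → s(u, v) = s(y, c) ∨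
        (u = m1 ∧ v = m2) ∨ (u = m2 ∧ v = m1) := by
      intro u v hu hv huv hk
      rcases hw u v hu hv huv hk with h4 | ⟨h4, h5⟩
      · exact Or.inl h4
      · right
        rw [← hset] at h4 h5
        rcases h4 with h4 | h4 | h4 <;> rcases h5 with h5 | h5 | h5
        · exact absurd (h4.trans h5.symm) huv.ne
        · exact Or.inl ⟨h4, h5⟩
        · exfalso; rw [h4, Set.mem_singleton_iff.1 h5] at hk; exact h13 hk
        · exact Or.inr ⟨h4, h5⟩
        · exact absurd (h4.trans h5.symm) huv.ne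
        · exfalso; rw [h4, Set.mem_singleton_iff.1 h5] at hk; exact h13 (h12.trans hk)
        · exfalso; rw [h5, Set.mem_singleton_iff.1 h4] at hk; exact h13 hk.symm
        · exfalso; rw [h5, Set.mem_singleton_iff.1 h4] at hk; exact h13 (h12.trans hk.symm)
        · exact absurd (h4.trans h5.symm) huv.ne
    have h12' : G.Adj m1 m2 := by
      have h4 := h.ind3 y z0 K
      push Not at h4
      obtain ⟨u, v, hu, hv, huv, hk⟩ := h4
      rcases inner u v (fun hh => hu (Or.inr hh)) (fun hh => hv (Or.inr hh)) huv hk with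
        h5 | ⟨h5, h6⟩ | ⟨h5, h6⟩
      · exfalso
        rw [Sym2.eq_iff] at h5
        rcases h5 with ⟨h5, -⟩ | ⟨-, h5⟩
        · exact hu (Or.inl h5)
        · exact hv (Or.inl h5)
      · rw [← h5, ← h6]; exact huv
      · rw [← h5, ← h6]; exact huv.symm
    refine h.TRI y c z0 m1 m2 K' y0 (fun hh => hy (Or.inl hh)) (fun hh => hy (Or.inr (Or.inl hh)))
      c0 (fun hh => hc (Or.inl hh)) (fun hh => hc (Or.inr (Or.inl hh)))
      ((hmem m1).2 (Or.inl rfl)) ((hmem m2).2 (Or.inr (Or.inl rfl))) h12' ?_ ?_ ?_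
    · rw [k0, k1 m1 hm1]
    · rw [k0, k1 m2 hm2, h12]
    · have zcase : ∀ v, G.Adj z0 v → K' z0 = K' v → v = m1 ∨ v = m2 := by
        intro v hv hk
        rcases (hmem v).1 hv with h4 | h4 | h4
        · exact Or.inl h4
        · exact Or.inr h4
        · exfalso
          subst h4
          rw [k0, k1 v hm3] at hk
          exact h13 hk
      intro u v huv hk
      by_cases hu : u = z0
      · subst hu
        right
        refine ⟨Or.inl rfl, ?_⟩
        rcases zcase v huv hk with h4 | h4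
        · exact Or.inr (Or.inl h4)
        · exact Or.inr (Or.inr h4)
      · by_cases hv : v = z0
        · subst hv
          right
          refine ⟨?_, Or.inl rfl⟩
          rcases zcase u huv.symm hk.symm with h4 | h4
          · exact Or.inr (Or.inl h4)
          · exact Or.inr (Or.inr h4)
        · rw [k1 u hu, k1 v hv] at hk
          rcases inner u v hu hv huv hk with h4 | ⟨h4, h5⟩ | ⟨h4, h5⟩
          · exact Or.inl h4
          · exact Or.inr ⟨Or.inr (Or.inl h4), Or.inr (Or.inr h5)⟩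
          · exact Or.inr ⟨Or.inr (Or.inr h4), Or.inr (Or.inl h5)⟩
  by_cases e12 : K n1 = K n2
  · by_cases e13 : K n1 = K n3
    · -- one colour
      let K' : V → ZMod 2 := fun v => if v = z0 then K n1 + 1 else K v
      have k0 : K' z0 = K n1 + 1 := if_pos rfl
      have k1 : ∀ v, v ≠ z0 → K' v = K v := fun v hv => if_neg hv
      have zcase : ∀ v, G.Adj z0 v → K' z0 ≠ K' v := by
        intro v hv
        rcases (hN' v).1 hv with h4 | h4 | h4
        · subst h4; rw [k0, k1 v hz1]; exact (ne_add_one _).symm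
        · subst h4; rw [k0, k1 v hz2, ← e12]; exact (ne_add_one _).symm
        · subst h4; rw [k0, k1 v hz3, ← e13]; exact (ne_add_one _).symm
      refine tri_case h (K := K') y1 y2 y3 c1 c2 c3 ?_
      intro u v huv hk
      by_cases hu : u = z0
      · subst hu
        exact absurd hk (zcase v huv)
      · by_cases hv : v = z0
        · subst hv
          exact absurd hk.symm (zcase u huv.symm)
        · rw [k1 u hu, k1 v hv] at hk
          exact hw u v hu hv huv hk
    · exact two n1 n2 n3 rfl e12 e13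
  · by_cases e13 : K n1 = K n3
    · exact two n1 n3 n2 (by
        ext x; simp only [Set.mem_insert_iff, Set.mem_singleton_iff]; clear * -; tauto) e13 e12
    · refine two n2 n3 n1 (by
        ext x; simp only [Set.mem_insert_iff, Set.mem_singleton_iff]; clear * -; tauto) ?_ ?_
      · exact eq_of_ne_of_ne (Ne.symm e12) (Ne.symm e13)
      · exact Ne.symm e12

/-- `O3` is impossible for `y, a, b ∈ X`.

Proof (helper20, helper51). `O := (W ∪ Nb W) ∩ (X ∪ Nb X)`, classes by `δ = κ + κX`: `a, b` in the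
class `E`, `y, c` in the other class `F`. `QQ G W X` has `9 - m` elements, `m = |Nb (W ∪ X)|`
(`QQ_sum`); `C_k = Ck W X κ κX k`, `Q_k = Qk G W X κ κX k`, `Nb C_k ⊆ Q_k` (`Nb_Ck`).
`|Q_E| ≥ 4`, `|Q_F| ≥ 2`, so `m ≤ 3`; the deletion counts (`cls_del`) leave `m = 3`,
`Q_F = {y, c}`, `C_F = ∅`. So `κ` on `W ∪ Nb W`, `κX + const` on `X ∪ Nb X` is a colouring whose
only wrong edges are `y c` and edges inside `Nb (W ∪ X) ∪ (rest)`: `tri_case`, `tri_case0`. -/
theorem o3_in [Finite V] {G : SimpleGraph V} {U : Set V} (h : GCore G U) {X : Set V}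
    {κX : V → ZMod 2} (hX : GMinX G U κX X) {a b c y : V} (ha : a ∈ X) (hb : b ∈ X)
    (hy : y ∈ X) (hab : a ≠ b) (hac : a ≠ c) (hbc : b ≠ c) (hNy : G.neighborSet y = {a, b, c})
    {W : Set V} {κ : V → ZMod 2} (hW : O3W G U κ W y a b c) : False := by
  classical
  obtain ⟨hWU, bW, h5, haN, hbN, hyN, hcW, hkab, hkay, hnocom, -, -⟩ := hW
  have bX := hX.bal
  have hXU := hX.sub
  have hya : G.Adj y a := (adj3 hNy a).2 (Or.inl rfl)
  have hyb : G.Adj y b := (adj3 hNy b).2 (Or.inr (Or.inl rfl))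
  have hyc : G.Adj y c := (adj3 hNy c).2 (Or.inr (Or.inr rfl))
  -- the classes
  set E : ZMod 2 := κ a + κX a with hE
  have dA : κ a + κX a = E := rfl
  have dB : κ b + κX b = E := by rw [hE, hkab, bX.eq hy hya hyb]
  have dY : κ y + κX y = E + 1 := by
    have h1 := bX y a hy hya
    rw [hE, hkay]
    generalize κ y = s at *
    generalize κX y = t at *
    generalize κX a = r at *
    clear * - h1
    revert s t r
    decide
  have dC : κ c + κX c = E + 1 := by
    have h1 := bW c y hcW hyc.symm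
    have h3 : κX c = κX a := bX.eq hy hyc hya
    rw [hE, hkay, h3]
    generalize κ y = s at *
    generalize κ c = t at *
    generalize κX a = r at *
    clear * - h1
    revert s t r
    decide
  have hyW : y ∉ W := hyN.1
  have haW : a ∉ W := haN.1
  have hbW : b ∉ W := hbN.1
  have hEF : E ≠ E + 1 := ne_add_one E
  -- edges between `W` and `X` stay in a class
  have same : ∀ u v, u ∈ W → v ∈ X → G.Adj u v → κ u + κX u = κ v + κX v := by
    intro u v hu hv huv
    exact class_same (bW u v hu huv) (bX v u hv huv.symm).symm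
  set QE := Qk G W X κ κX E with hQE
  set QF := Qk G W X κ κX (E + 1) with hQF
  have aQ : a ∈ QE := ⟨Or.inl (Or.inl ⟨haN, ha⟩), dA⟩
  have bQ : b ∈ QE := ⟨Or.inl (Or.inl ⟨hbN, hb⟩), dB⟩
  have yQ : y ∈ QF := ⟨Or.inl (Or.inl ⟨hyN, hy⟩), dY⟩
  -- a neighbour in `W` of a vertex of `X` in class `E`
  have nbE : ∀ v, v ∈ X → v ∈ Nb G W → κ v + κX v = E → ∃ u ∈ W, G.Adj u v ∧
      (u ∈ Ck W X κ κX E ∨ u ∈ QE) := by
    intro v hv hvN hvE
    obtain ⟨-, u, hu, huv⟩ := hvN
    have hk : κ u + κX u = E := (same u v hu hv huv).trans hvE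
    refine ⟨u, hu, huv, ?_⟩
    rcases mem_QQ_or (Or.inl hu) (mem_union_Nb hv huv.symm) with h1 | h1
    · exact Or.inl ⟨h1, hk⟩
    · exact Or.inr ⟨h1, hk⟩
  obtain ⟨u, huW, hua, hu⟩ := nbE a ha haN dA
  obtain ⟨v, hvW, hvb, hv⟩ := nbE b hb hbN dB
  have huv : u ≠ v := fun hh => hnocom u huW ⟨hua, hh ▸ hvb⟩
  have hau : a ≠ u := fun hh => haW (hh ▸ huW)
  have hav : a ≠ v := fun hh => haW (hh ▸ hvW)
  have hbu : b ≠ u := fun hh => hbW (hh ▸ huW)
  have hbv : b ≠ v := fun hh => hbW (hh ▸ hvW)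
  have hCW : ∀ k, Ck W X κ κX k ⊆ W := fun k v hv => hv.1.1
  have hQE4 : 4 ≤ QE.ncard := by
    have hNb : Nb G (Ck W X κ κX E) ⊆ QE := Nb_Ck bW bX E
    by_cases hC2 : 2 ≤ (Ck W X κ κX E).ncard
    · have h3 := h.P1 _ ((hCW E).trans hWU) hC2 κ (bW.mono (hCW E))
      have h4 := Set.ncard_le_ncard hNb (Set.toFinite _)
      omega
    · by_cases hC0 : (Ck W X κ κX E).Nonempty
      · obtain ⟨x, hx⟩ := hC0
        have h1 : Ck W X κ κX E = {x} := by
          have : (Ck W X κ κX E).ncard ≤ 1 := by omega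
          rw [Set.ncard_le_one (Set.toFinite _)] at this
          ext z
          constructor
          · intro hz; exact this z hz x hx
          · intro hz; rw [Set.mem_singleton_iff] at hz; rw [hz]; exact hx
        have hxW : x ∈ W := hCW E hx
        have h3 := h.deg3 x (hWU hxW)
        have h4 : G.neighborSet x ⊆ QE := by
          intro z hz
          apply hNb
          rw [h1]
          exact ⟨fun hh => (G.ne_of_adj hz) (Set.mem_singleton_iff.1 hh).symm, x, rfl, hz⟩
        -- one of `a`, `b` is not adjacent to `x`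
        have h6 : ∃ z ∈ QE, z ∉ G.neighborSet x := by
          by_cases hxa : G.Adj x a
          · exact ⟨b, bQ, fun hh => hnocom x hxW ⟨hxa, hh⟩⟩
          · exact ⟨a, aQ, hxa⟩
        obtain ⟨z, hz, hzx⟩ := h6
        have h7 : insert z (G.neighborSet x) ⊆ QE := Set.insert_subset hz h4
        have h8 := Set.ncard_le_ncard h7 (Set.toFinite _)
        rw [Set.ncard_insert_of_notMem hzx (Set.toFinite _)] at h8
        omega
      · have h1 : ∀ z, z ∈ Ck W X κ κX E → False := fun z hz => hC0 ⟨z, hz⟩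
        have hu' := hu.resolve_left (h1 u)
        have hv' := hv.resolve_left (h1 v)
        have h7 : ({a, b, u, v} : Set V) ⊆ QE := by
          rintro z (rfl | rfl | rfl | hz)
          · exact aQ
          · exact bQ
          · exact hu'
          · rw [Set.mem_singleton_iff] at hz; rw [hz]; exact hv'
        have h8 := Set.ncard_le_ncard h7 (Set.toFinite _)
        rw [ncard4 hab hau hav hbu hbv huv] at h8
        exact h8
  have hcO : c ∈ X ∨ c ∈ Nb G X := mem_union_Nb hy hyc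
  have hQF2 : 2 ≤ QF.ncard := by
    rcases hcO with hc | hc
    · have h3 : 3 ≤ QF.ncard := Qk_three h hWU bW bX (E + 1) ⟨c, ⟨hcW, hc⟩, dC⟩
      omega
    · exact two_le_of_mem yQ (show c ∈ QF from ⟨Or.inl (Or.inr ⟨hc, hcW⟩), dC⟩) hyc.ne
  have hsum := QQ_sum G W X
  have h4X := hX.four
  have c1 : QE.ncard + QF.ncard ≤ (QQ G W X).ncard := by
    rw [← Set.ncard_union_eq _ (Set.toFinite _) (Set.toFinite _)]
    · apply Set.ncard_le_ncard _ (Set.toFinite _)
      rintro v (hv | hv)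
      · exact hv.1
      · exact hv.1
    · rw [Set.disjoint_left]
      rintro v ⟨-, h1⟩ ⟨-, h3⟩
      rw [h1] at h3
      exact hEF h3
  have c2 : (QF ∩ X).ncard + (QF ∩ W).ncard + (QF ∩ (Nb G W ∩ Nb G X)).ncard ≤ QF.ncard := by
    have hAX : ∀ v ∈ QF, v ∈ X → v ∉ W := by
      rintro v ⟨hv, -⟩ hvX hvA
      rcases hv with (hv | hv) | hv
      · exact hv.1.1 hvA
      · exact hv.1.1 hvX
      · exact hv.1.1 hvA
    rw [← Set.ncard_union_eq _ (Set.toFinite _) (Set.toFinite _),
      ← Set.ncard_union_eq _ (Set.toFinite _) (Set.toFinite _)]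
    · apply Set.ncard_le_ncard _ (Set.toFinite _)
      rintro v ((hv | hv) | hv) <;> exact hv.1
    · rw [Set.disjoint_left]
      rintro v (hv | hv) hv'
      · exact hv'.2.2.1 hv.2
      · exact hv'.2.1.1 hv.2
    · rw [Set.disjoint_left]
      rintro v hv hv'
      exact hAX v hv.1 hv.2 hv'.2
  have hm3 : (Nb G (W ∪ X)).ncard ≤ 3 := by omega
  have hWX2 : 2 ≤ (W ∪ X).ncard := two_le_of_mem (Or.inr ha) (Or.inr hb) hab
  have d1 := cls_del h hWU hXU bW bX hWX2 hm3 E
  have d2 := cls_del h hXU hWU bX bW (by rw [Set.union_comm]; exact hWX2)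
    (by rw [Set.union_comm]; exact hm3) E
  rw [Qk_comm G X W, Set.union_comm X W, Set.inter_comm (Nb G X)] at d2
  rw [← hQF] at d1 d2
  have hm : (Nb G (W ∪ X)).ncard = 3 := by omega
  have hQFle : QF.ncard ≤ 2 := by omega
  have hcX : c ∉ X := by
    intro hc
    have h3 : 3 ≤ QF.ncard := Qk_three h hWU bW bX (E + 1) ⟨c, ⟨hcW, hc⟩, dC⟩
    omega
  have hcN : c ∈ Nb G X := hcO.resolve_left hcX
  have cQ : c ∈ QF := ⟨Or.inl (Or.inr ⟨hcN, hcW⟩), dC⟩
  have hQFeq : ∀ z, z ∈ QF → z = y ∨ z = c := by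
    intro z hz
    by_contra hcon
    push Not at hcon
    have h1 : ({y, c, z} : Set V) ⊆ QF := by
      rintro w (rfl | rfl | hw)
      · exact yQ
      · exact cQ
      · rw [Set.mem_singleton_iff] at hw; rw [hw]; exact hz
    have h3 := Set.ncard_le_ncard h1 (Set.toFinite _)
    rw [ncard3 hyc.ne hcon.1.symm hcon.2.symm] at h3
    omega
  have hCF : ∀ z, z ∉ Ck W X κ κX (E + 1) := by
    intro z hz
    have h3 : 3 ≤ QF.ncard := Qk_three h hWU bW bX (E + 1) ⟨z, hz⟩
    omega
  -- classes of the overlap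
  have ovl : ∀ z, (z ∈ W ∨ z ∈ Nb G W) → (z ∈ X ∨ z ∈ Nb G X) → z ≠ y → z ≠ c →
      κ z = κX z + E := by
    intro z h1 h3 hzy hzc
    apply add_left_class
    by_contra hne
    have hcl := ne_class hne
    rcases mem_QQ_or h1 h3 with h4 | h4
    · exact hCF z ⟨h4, hcl⟩
    · rcases hQFeq z ⟨h4, hcl⟩ with e | e
      · exact hzy e
      · exact hzc e
  let K : V → ZMod 2 := fun v => if (v ∈ X ∨ v ∈ Nb G X) ∧ v ≠ c then κX v + E else κ v
  have kX : ∀ v, (v ∈ X ∨ v ∈ Nb G X) → v ≠ c → K v = κX v + E := fun v h1 h3 => if_pos ⟨h1, h3⟩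
  have kW : ∀ v, (v ∈ W ∨ v ∈ Nb G W) → v ≠ y → K v = κ v := by
    intro v h1 h3
    by_cases hc : (v ∈ X ∨ v ∈ Nb G X) ∧ v ≠ c
    · rw [kX v hc.1 hc.2, ovl v h1 hc.1 h3 hc.2]
    · exact if_neg hc
  have xc : ∀ u, u ∈ X → G.Adj u c → u = y := by
    intro u hu huc
    have hk : κ u + κX u = E + 1 := (same c u hcW hu huc.symm).symm.trans dC
    have huW : u ∈ W ∨ u ∈ Nb G W := mem_union_Nb hcW huc.symm
    rcases mem_QQ_or huW (Or.inl hu) with h4 | h4
    · exact absurd ⟨h4, hk⟩ (hCF u)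
    · rcases hQFeq u ⟨h4, hk⟩ with e | e
      · exact e
      · exact absurd (e ▸ hu) hcX
  have side : ∀ u v, u ∈ W ∪ X → G.Adj u v → K u = K v → s(u, v) = s(y, c) := by
    intro u v hu huv hk
    by_cases huX : u ∈ X
    · have huc : u ≠ c := fun hh => hcX (hh ▸ huX)
      by_cases hvc : v = c
      · subst hvc
        rw [xc u huX huv]
      · exfalso
        rw [kX u (Or.inl huX) huc, kX v (mem_union_Nb huX huv) hvc] at hk
        exact bX u v huX huv (add_right_cancel hk)
    · have huW : u ∈ W := hu.resolve_right huX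
      have huy : u ≠ y := fun hh => hyW (hh ▸ huW)
      by_cases hvy : v = y
      · subst hvy
        rcases (adj3 hNy u).1 huv.symm with e | e | e
        · exact absurd (e ▸ huW) haW
        · exact absurd (e ▸ huW) hbW
        · rw [e, Sym2.eq_swap]
      · exfalso
        rw [kW u (Or.inl huW) huy, kW v (mem_union_Nb huW huv) hvy] at hk
        exact bW u v huW huv hk
  obtain ⟨n1, n2, n3, n12, n13, n23, hB⟩ := Set.ncard_eq_three.1 hm
  have hBn : ∀ z, z ∈ ({n1, n2, n3} : Set V) → z ∉ W ∪ X := by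
    intro z hz
    rw [← hB] at hz
    exact hz.1
  have hyWX : y ∈ W ∪ X := Or.inr hy
  have hcWX : c ∈ W ∪ X := Or.inl hcW
  have y1 : y ≠ n1 := fun hh => hBn n1 (Or.inl rfl) (hh ▸ hyWX)
  have y2 : y ≠ n2 := fun hh => hBn n2 (Or.inr (Or.inl rfl)) (hh ▸ hyWX)
  have y3 : y ≠ n3 := fun hh => hBn n3 (Or.inr (Or.inr rfl)) (hh ▸ hyWX)
  have c1' : c ≠ n1 := fun hh => hBn n1 (Or.inl rfl) (hh ▸ hcWX)
  have c2' : c ≠ n2 := fun hh => hBn n2 (Or.inr (Or.inl rfl)) (hh ▸ hcWX)
  have c3' : c ≠ n3 := fun hh => hBn n3 (Or.inr (Or.inr rfl)) (hh ▸ hcWX)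
  have hR := h.I4 (W ∪ X) (Set.union_subset hWU hXU) hWX2 hm3
  by_cases hR0 : (U \ (W ∪ X ∪ Nb G (W ∪ X))).Nonempty
  · obtain ⟨z0, hz0⟩ := hR0
    have hz0WX : z0 ∉ W ∪ X := fun hh => hz0.2 (Or.inl hh)
    have hz0B : z0 ∉ Nb G (W ∪ X) := fun hh => hz0.2 (Or.inr hh)
    have huniq : ∀ z, z ∈ U → z ∉ W ∪ X → z ∉ Nb G (W ∪ X) → z = z0 := by
      intro z h1 h3 h4
      exact (Set.ncard_le_one (Set.toFinite _)).1 hR z ⟨h1, fun hh => hh.elim h3 h4⟩ z0 hz0
    have hN : G.neighborSet z0 = {n1, n2, n3} := by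
      apply Set.eq_of_subset_of_ncard_le _ _ (Set.toFinite _)
      · intro z hz
        rw [← hB]
        have hz' : G.Adj z0 z := hz
        by_contra hzB
        have hzWX : z ∉ W ∪ X := fun hh => hz0B ⟨hz0WX, z, hh, hz'.symm⟩
        exact hz'.ne (huniq z (h.edge_mem z z0 hz'.symm) hzWX hzB).symm
      · rw [ncard3 n12 n13 n23]
        exact h.deg3 z0 hz0.1
    have hyz0 : y ≠ z0 := fun hh => hz0WX (hh ▸ hyWX)
    have hcz0 : c ≠ z0 := fun hh => hz0WX (hh ▸ hcWX)
    refine tri_case0 h (K := K) hyz0 hcz0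
      y1 y2 y3 c1' c2' c3' hN ?_
    intro u v hu hv huv hk
    by_cases huWX : u ∈ W ∪ X
    · exact Or.inl (side u v huWX huv hk)
    by_cases hvWX : v ∈ W ∪ X
    · left
      rw [Sym2.eq_swap]
      exact side v u hvWX huv.symm hk.symm
    · right
      have huB : u ∈ Nb G (W ∪ X) := by
        by_contra hn
        exact hu (huniq u (h.edge_mem u v huv) huWX hn)
      have hvB : v ∈ Nb G (W ∪ X) := by
        by_contra hn
        exact hv (huniq v (h.edge_mem v u huv.symm) hvWX hn)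
      rw [hB] at huB hvB
      exact ⟨huB, hvB⟩
  · refine tri_case h (K := K) y1 y2 y3 c1' c2' c3' ?_
    have hall : ∀ z, z ∈ U → z ∉ W ∪ X → z ∈ Nb G (W ∪ X) := by
      intro z h1 h3
      by_contra hn
      exact hR0 ⟨z, h1, fun hh => hh.elim h3 hn⟩
    intro u v huv hk
    by_cases huWX : u ∈ W ∪ X
    · exact Or.inl (side u v huWX huv hk)
    by_cases hvWX : v ∈ W ∪ X
    · left
      rw [Sym2.eq_swap]
      exact side v u hvWX huv.symm hk.symm
    · right
      have huB := hall u (h.edge_mem u v huv) huWX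
      have hvB := hall v (h.edge_mem v u huv.symm) hvWX
      rw [hB] at huB hvB
      exact ⟨huB, hvB⟩

end Pool.Agent.Helper51.GX
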