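import Pool.Agent.Helper51.GX.Exits
import Pool.Agent.Helper51.TDC.Omega

/-!
# The global part: the `Omega` situation is impossible
-/

set_option autoImplicit false

namespace Pool.Agent.Helper51.GX

open SimpleGraph Pool.Agent.Helper57.TOK Pool.Agent.Helper57.TD
open Pool.Agent.Helper51.TDC (adj3 ncard3 ncard4 ncard5 two_le_of_mem Omega perm3' eq_of_three
  ncard_pair_le_om)

variable {V : Type*}

/-- The fan `FAN3`. -/
lemma fan3_false [Finite V] {G : SimpleGraph V} {U : Set V} (h : GCore G U)
    {y a b c p q r s : V} (hyU : y ∈ U)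
    (hab : a ≠ b) (hac : a ≠ c) (hbc : b ≠ c) (hnac : ¬ G.Adj a c) (hry : r ≠ y) (hps : p ≠ s)
    (hrs : r ≠ s)
    (hy : G.neighborSet y = {a, b, c}) (ha : G.neighborSet a = {y, p, r})
    (hb : G.neighborSet b = {y, q, s}) (hc : G.neighborSet c = {y, r, s}) : False := by
  have hN : G.neighborSet y = {a, c, b} := by
    rw [hy]; ext x; simp only [Set.mem_insert_iff, Set.mem_singleton_iff]; clear * -; tauto
  have hra : G.Adj a r := (adj3 ha r).2 (Or.inr (Or.inr rfl))
  have hrc : G.Adj c r := (adj3 hc r).2 (Or.inr (Or.inl rfl))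
  have hsc : G.Adj c s := (adj3 hc s).2 (Or.inr (Or.inr rfl))
  have hbs : G.Adj b s := (adj3 hb s).2 (Or.inr (Or.inr rfl))
  have hcom : ∀ z, z ≠ y → G.Adj a z → G.Adj c z → z = r := by
    intro z hz h1 h2
    rcases (adj3 ha z).1 h1 with h3 | h3 | h3
    · exact absurd h3 hz
    · rcases (adj3 hc z).1 h2 with h4 | h4 | h4
      · exact absurd h4 hz
      · exact h4
      · exact absurd (h3.symm.trans h4) hps
    · exact h3
  rcases h.FOLD y a c b hyU hac hab hbc.symm hnac hN with
    ⟨z1, z2, hz, hz1, hz2, h1, h2, h3, h4⟩ |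
    ⟨A, hA, κ, hbal, hA4, haA, hcA, hkac, hyA, hbA, hbA', hno⟩ |
    ⟨A, hA, κ, hbal, hA4, haA, hcA, hyA, hbA, hbA', hno⟩ | ⟨W, κ, hW⟩
  · exact hz ((hcom z1 hz1 h1 h2).trans (hcom z2 hz2 h3 h4).symm)
  · obtain ⟨-, u, hu, huc⟩ := hcA
    have hrA : r ∉ A := fun hr => hno r hr ⟨hra.symm, hrc.symm⟩
    rcases (adj3 hc u).1 huc.symm with h3 | h3 | h3
    · exact hyA (h3 ▸ hu)
    · exact hrA (h3 ▸ hu)
    · subst h3
      exact hbA' ⟨hbA, u, hu, hbs.symm⟩ ((hbal.eq hu hbs.symm hsc.symm).trans hkac.symm)
  · exact hno r hry ⟨hra.symm, hrc.symm⟩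
  · obtain ⟨-, u, hu, huc⟩ := hW.qN
    have hrW : r ∉ W := fun hr => hW.nocom r hr ⟨hra.symm, hrc.symm⟩
    rcases (adj3 hc u).1 huc.symm with h3 | h3 | h3
    · exact hW.yN.1 (h3 ▸ hu)
    · exact hrW (h3 ▸ hu)
    · subst h3
      exact hW.tri ((adj3 hy b).2 (by tauto)) hu hbs (Or.inr huc.symm)

/-- The configuration `X5`. -/
lemma x5_false [Finite V] {G : SimpleGraph V} {U : Set V}
    (h : GCore G U) {y1 y2 w n1 n3 n4 p : V} (hyU : y1 ∈ U) (hnwn : ¬ G.Adj w n1)
    (hwn1 : w ≠ n1) (hwn3 : w ≠ n3) (hn13 : n1 ≠ n3) (hn4 : n4 ≠ y1) (hpy2 : p ≠ y2)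
    (hy24 : y2 ≠ n4) (hy : G.neighborSet y1 = {w, n1, n3}) (hw : G.neighborSet w = {y1, y2, n4})
    (hn1 : G.neighborSet n1 = {y1, p, n4}) (hn3 : G.Adj y2 n3) : False := by
  have h4w : G.Adj w n4 := (adj3 hw n4).2 (Or.inr (Or.inr rfl))
  have h2w : G.Adj w y2 := (adj3 hw y2).2 (Or.inr (Or.inl rfl))
  have h4n : G.Adj n1 n4 := (adj3 hn1 n4).2 (Or.inr (Or.inr rfl))
  have hcom : ∀ z, z ≠ y1 → G.Adj w z → G.Adj n1 z → z = n4 := by
    intro z hz h1 h2
    rcases (adj3 hw z).1 h1 with h3 | h3 | h3
    · exact absurd h3 hz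
    · rcases (adj3 hn1 z).1 h2 with h4 | h4 | h4
      · exact absurd h4 hz
      · exact absurd (h4.symm.trans h3) hpy2
      · exact h4
    · exact h3
  rcases h.FOLD y1 w n1 n3 hyU hwn1 hwn3 hn13 hnwn hy with
    ⟨z1, z2, hz, hz1, hz2, h1, h2, h3, h4⟩ |
    ⟨A, hA, κ, hbal, hA4, hwA, hnA, hkwn, hyA, hbA, hbA', hno⟩ |
    ⟨A, hA, κ, hbal, hA4, hwA, hnA, hyA, hbA, hbA', hno⟩ | ⟨W, κ, hW⟩
  · exact hz ((hcom z1 hz1 h1 h2).trans (hcom z2 hz2 h3 h4).symm)
  · obtain ⟨-, u, hu, huw⟩ := hwA
    have h4A : n4 ∉ A := fun hr => hno n4 hr ⟨h4w.symm, h4n.symm⟩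
    rcases (adj3 hw u).1 huw.symm with h3 | h3 | h3
    · exact hyA (h3 ▸ hu)
    · subst h3
      exact hbA' ⟨hbA, u, hu, hn3⟩ (hbal.eq hu hn3 h2w.symm)
    · exact h4A (h3 ▸ hu)
  · exact hno n4 hn4 ⟨h4w.symm, h4n.symm⟩
  · obtain ⟨-, u, hu, huw⟩ := hW.pN
    have h4W : n4 ∉ W := fun hr => hW.nocom n4 hr ⟨h4w.symm, h4n.symm⟩
    rcases (adj3 hw u).1 huw.symm with h3 | h3 | h3
    · exact hW.yN.1 (h3 ▸ hu)
    · subst h3
      exact hW.tri ((adj3 hy n3).2 (by tauto)) hu hn3.symm (Or.inl huw.symm)
    · exact h4W (h3 ▸ hu)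

/-- The configuration `CONE3`. -/
lemma cone3_false [Finite V] {G : SimpleGraph V} {U : Set V}
    (h : GCore G U) {X : Set V} {κX : V → ZMod 2} (hX : X ⊆ U) (bX : Bal G κX X)
    {y a b c p q r s : V}
    (hyX : y ∈ X) (haX : a ∈ X) (hbX : b ∈ X) (hcX : c ∈ X)
    (hab : a ≠ b) (hac : a ≠ c) (hbc : b ≠ c) (hNX : Nb G X = {p, q, r, s})
    (hpadj : ∀ x ∈ X, G.Adj p x ↔ x = a)
    (hy : G.neighborSet y = {a, b, c}) (ha : G.neighborSet a = {y, p, r})
    (hb : G.neighborSet b = {y, q, r}) (hc : G.neighborSet c = {y, r, s}) : False := by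
  have hpX : p ∉ X := by
    have : p ∈ Nb G X := by rw [hNX]; simp
    exact this.1
  have hrX : r ∉ X := by
    have : r ∈ Nb G X := by rw [hNX]; simp
    exact this.1
  have hpy : p ≠ y := fun hh => hpX (hh ▸ hyX)
  have hry : r ≠ y := fun hh => hrX (hh ▸ hyX)
  have hpr : p ≠ r := by
    intro hh
    have h1 := (adj3 hb p).2 (Or.inr (Or.inr hh))
    exact hab ((hpadj b hbX).1 h1.symm).symm
  have hN : G.neighborSet a = {p, y, r} := by rw [ha]; exact perm3' _ _ _ |>.trans rfl
  have hbr : G.Adj b r := (adj3 hb r).2 (Or.inr (Or.inr rfl))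
  have hcr : G.Adj c r := (adj3 hc r).2 (Or.inr (Or.inl rfl))
  have hya : G.Adj y a := (adj3 hy a).2 (Or.inl rfl)
  have hyb : G.Adj y b := (adj3 hy b).2 (Or.inr (Or.inl rfl))
  have hyc : G.Adj y c := (adj3 hy c).2 (Or.inr (Or.inr rfl))
  have hnpy : ¬ G.Adj p y := by
    intro hh
    rcases (adj3 hy p).1 hh.symm with e | e | e
    · exact hpX (e ▸ haX)
    · exact hpX (e ▸ hbX)
    · exact hpX (e ▸ hcX)
  rcases h.FOLD a p y r (hX haX) hpy hpr hry.symm hnpy hN with
    ⟨z1, z2, hz, hz1, hz2, h1, h2, h3, h4⟩ |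
    ⟨A, hA, κ, hbal, hA4, hpA, hyA, hkpy, haA, hrA, hrA', hno⟩ |
    ⟨A, hA, κ, hbal, hA4, hpA, hyA, haA, hrA, hrA', hno⟩ | ⟨W, κ, hW⟩
  · rcases (adj3 hy z1).1 h2 with e | e | e
    · exact hz1 e
    · exact hab ((hpadj b hbX).1 (e ▸ h1)).symm
    · exact hac ((hpadj c hcX).1 (e ▸ h1)).symm
  · obtain ⟨-, u, hu, huy⟩ := hyA
    rcases (adj3 hy u).1 huy.symm with e | e | e
    · exact haA (e ▸ hu)
    · subst e
      exact hrA' ⟨hrA, u, hu, hbr⟩ ((hbal.eq hu hbr hyb.symm).trans hkpy.symm)
    · subst e
      exact hrA' ⟨hrA, u, hu, hcr⟩ ((hbal.eq hu hcr hyc.symm).trans hkpy.symm)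
  · have hbA : b ∉ A := fun hh => hrA' ⟨hrA, b, hh, hbr⟩
    have hcA : c ∉ A := fun hh => hrA' ⟨hrA, c, hh, hcr⟩
    have haN : a ∈ Nb G A := ⟨haA, y, hyA, hya⟩
    have hbN : b ∈ Nb G A := ⟨hbA, y, hyA, hyb⟩
    have hcN : c ∈ Nb G A := ⟨hcA, y, hyA, hyc⟩
    -- the fourth element of the boundary
    obtain ⟨x, hx⟩ : ∃ x, Nb G A = {a, b, c, x} := by
      have hsub : ({a, b, c} : Set V) ⊆ Nb G A := by
        rintro z (rfl | rfl | rfl)
        · exact haN
        · exact hbN
        · exact hcN
      have h1 : (Nb G A \ {a, b, c}).ncard = 1 := by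
        have := Set.ncard_sdiff_add_ncard_of_subset hsub (Set.toFinite _)
        rw [hA4, ncard3 hab hac hbc] at this
        omega
      obtain ⟨x, hx⟩ := Set.ncard_eq_one.1 h1
      refine ⟨x, ?_⟩
      have h2 : Nb G A = (Nb G A \ {a, b, c}) ∪ {a, b, c} := (Set.sdiff_union_of_subset hsub).symm
      rw [h2, hx]
      ext z
      simp only [Set.mem_union, Set.mem_insert_iff, Set.mem_singleton_iff]
      clear * -
      tauto
    have hNA' : Nb G (A \ {y}) ⊆ Nb G A := by
      rintro z ⟨h1, u, ⟨hu, huy⟩, huz⟩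
      refine ⟨?_, u, hu, huz⟩
      intro hzA
      have hzy : z = y := by
        by_contra hne
        exact h1 ⟨hzA, hne⟩
      subst hzy
      rcases (adj3 hy u).1 huz.symm with e | e | e
      · exact haA (e ▸ hu)
      · exact hbA (e ▸ hu)
      · exact hcA (e ▸ hu)
    have hpA' : p ∈ A \ {y} := ⟨hpA, hpy⟩
    by_cases h2 : 2 ≤ (A \ {y}).ncard
    · have h3 := h.P1 (A \ {y}) (Set.sdiff_subset.trans hA) h2 κ (hbal.mono Set.sdiff_subset)
      have h4 : Nb G (A \ {y}) = Nb G A :=
        Set.eq_of_subset_of_ncard_le hNA' (by omega) (Set.toFinite _)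
      have hqA : q ∈ A := by
        have : b ∈ Nb G (A \ {y}) := by rw [h4]; exact hbN
        obtain ⟨-, u, ⟨hu, huy⟩, hub⟩ := this
        rcases (adj3 hb u).1 hub.symm with e | e | e
        · exact absurd e huy
        · exact e ▸ hu
        · exact absurd (e ▸ hu) hrA
      have hsA : s ∈ A := by
        have : c ∈ Nb G (A \ {y}) := by rw [h4]; exact hcN
        obtain ⟨-, u, ⟨hu, huy⟩, hub⟩ := this
        rcases (adj3 hc u).1 hub.symm with e | e | e
        · exact absurd e huy
        · exact absurd (e ▸ hu) hrA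
        · exact e ▸ hu
      have h5 : Nb G (A ∪ X) ⊆ {x, r} := by
        rintro z ⟨h1, u, hu, huz⟩
        have hzA : z ∉ A := fun hh => h1 (Or.inl hh)
        have hzX : z ∉ X := fun hh => h1 (Or.inr hh)
        rcases hu with hu | hu
        · have : z ∈ Nb G A := ⟨hzA, u, hu, huz⟩
          rw [hx] at this
          rcases this with e | e | e | e
          · exact absurd (e ▸ haX) hzX
          · exact absurd (e ▸ hbX) hzX
          · exact absurd (e ▸ hcX) hzX
          · exact Or.inl e
        · have : z ∈ Nb G X := ⟨hzX, u, hu, huz⟩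
          rw [hNX] at this
          rcases this with e | e | e | e
          · exact absurd (e ▸ hpA) hzA
          · exact absurd (e ▸ hqA) hzA
          · exact Or.inr e
          · exact absurd (e ▸ hsA) hzA
      have h6 : 2 ≤ (A ∪ X).ncard := by
        have : (A \ {y}).ncard ≤ (A ∪ X).ncard :=
          Set.ncard_le_ncard (Set.sdiff_subset.trans Set.subset_union_left) (Set.toFinite _)
        omega
      have h8 := Set.ncard_le_ncard h5 (Set.toFinite _)
      have h9 : ({x, r} : Set V).ncard ≤ 2 := ncard_pair_le_om x r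
      -- the whole graph is covered
      have hcov : ∀ z, z ∈ U → z ∈ A ∪ X ∨ z = x ∨ z = r := by
        intro z hz
        by_contra hcon
        push Not at hcon
        obtain ⟨hz1, hz2, hz3⟩ := hcon
        have hzN : z ∉ Nb G (A ∪ X) := by
          intro hh
          rcases h5 hh with e | e
          · exact hz2 e
          · exact hz3 (Set.mem_singleton_iff.1 e)
        have hzc : z ∈ U \ ((A ∪ X) ∪ Nb G (A ∪ X)) := ⟨hz, fun hh => hh.elim hz1 hzN⟩
        have hI := h.I4 (A ∪ X) (Set.union_subset hA hX) h6 (by omega)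
        have hsub : G.neighborSet z ⊆ {x, r} := by
          intro v hv
          have hv' : G.Adj z v := hv
          have hvU : v ∈ U := h.edge_mem v z hv'.symm
          by_cases hvAX : v ∈ A ∪ X
          · exact absurd ⟨hz1, v, hvAX, hv'.symm⟩ hzN
          · by_cases hvN : v ∈ Nb G (A ∪ X)
            · exact h5 hvN
            · have hvc : v ∈ U \ ((A ∪ X) ∪ Nb G (A ∪ X)) := ⟨hvU, fun hh => hh.elim hvAX hvN⟩
              have : z = v := (Set.ncard_le_one_iff (Set.toFinite _)).1 hI hzc hvc
              exact absurd this hv'.ne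
        have h10 := h.deg3 z hz
        have h11 := Set.ncard_le_ncard hsub (Set.toFinite _)
        omega
      -- the colouring
      have hya' : κ p = κ y := eq_of_ne_of_ne (c := κ a)
        (hbal p a hpA ((hpadj a haX).2 rfl)) (hbal y a hyA hya)
      have hbq : G.Adj b q := (adj3 hb q).2 (Or.inr (Or.inl rfl))
      have hcs : G.Adj c s := (adj3 hc s).2 (Or.inr (Or.inr rfl))
      have hap : G.Adj a p := (adj3 ha p).2 (Or.inr (Or.inl rfl))
      have hqb' : κ q = κ y := eq_of_ne_of_ne (c := κ b)
        (hbal q b hqA hbq.symm) (hbal y b hyA hyb)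
      have hsc' : κ s = κ y := eq_of_ne_of_ne (c := κ c)
        (hbal s c hsA hcs.symm) (hbal y c hyA hyc)
      have hpX' : κX p = κX y := bX.eq haX hap hya.symm
      have hqX' : κX q = κX y := bX.eq hbX hbq hyb.symm
      have hsX' : κX s = κX y := bX.eq hcX hcs hyc.symm
      classical
      have hmix : ∀ u v, u ∈ A → v ∈ X → v ∉ A → v ≠ x → u ≠ r → G.Adj u v →
          κ u ≠ κX v + (κX y + κ y) := by
        intro u v huA hvX hvA hvx hur huv
        have hvN : v ∈ Nb G A := ⟨hvA, u, huA, huv⟩
        rw [hx] at hvN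
        have hkey : κ u = κ y ∧ κX v ≠ κX y := by
          rcases hvN with e | e | e | e
          · subst e
            rcases (adj3 ha u).1 huv.symm with e | e | e
            · exact ⟨by rw [e], (bX y v hyX hya).symm⟩
            · exact ⟨by rw [e]; exact hya', (bX y v hyX hya).symm⟩
            · exact absurd e hur
          · subst e
            rcases (adj3 hb u).1 huv.symm with e | e | e
            · exact ⟨by rw [e], (bX y v hyX hyb).symm⟩
            · exact ⟨by rw [e]; exact hqb', (bX y v hyX hyb).symm⟩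
            · exact absurd e hur
          · subst e
            rcases (adj3 hc u).1 huv.symm with e | e | e
            · exact ⟨by rw [e], (bX y v hyX hyc).symm⟩
            · exact absurd e hur
            · exact ⟨by rw [e]; exact hsc', (bX y v hyX hyc).symm⟩
          · exact absurd e hvx
        rw [hkey.1]
        have h12 := hkey.2
        generalize κ y = α at *
        generalize κX y = β at *
        generalize κX v = γ at *
        clear * - h12
        revert α β γ
        decide
      refine h.ind3 x r (fun v => if v ∈ A then κ v else κX v + (κX y + κ y)) ?_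
      intro u v hu hv huv
      have hux : u ≠ x := fun hh => hu (Or.inl hh)
      have hur : u ≠ r := fun hh => hu (Or.inr hh)
      have hvx : v ≠ x := fun hh => hv (Or.inl hh)
      have hvr : v ≠ r := fun hh => hv (Or.inr hh)
      have huU : u ∈ U := h.edge_mem u v huv
      have hvU : v ∈ U := h.edge_mem v u huv.symm
      have huc : u ∈ A ∪ X := by
        rcases hcov u huU with e | e | e
        · exact e
        · exact absurd e hux
        · exact absurd e hur
      have hvc : v ∈ A ∪ X := by
        rcases hcov v hvU with e | e | e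
        · exact e
        · exact absurd e hvx
        · exact absurd e hvr
      by_cases huA : u ∈ A
      · by_cases hvA : v ∈ A
        · simp only [huA, hvA, if_true]
          exact hbal u v huA huv
        · simp only [huA, hvA, if_true, if_false]
          exact hmix u v huA (hvc.resolve_left hvA) hvA hvx hur huv
      · by_cases hvA : v ∈ A
        · simp only [huA, hvA, if_true, if_false]
          exact (hmix v u hvA (huc.resolve_left huA) huA hux hvr huv.symm).symm
        · simp only [huA, hvA, if_false]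
          intro hh
          exact bX u v (huc.resolve_left huA) huv (add_right_cancel hh)
    · have h1 : (A \ {y}).ncard = 1 := by
        have : 0 < (A \ {y}).ncard := (Set.ncard_pos (Set.toFinite _)).2 ⟨p, hpA'⟩
        omega
      obtain ⟨p', hp'⟩ := Set.ncard_eq_one.1 h1
      have hAy : ∀ z, z ∈ A → z = y ∨ z = p := by
        intro z hz
        by_cases hzy : z = y
        · exact Or.inl hzy
        · right
          have h3 : z ∈ ({p'} : Set V) := hp' ▸ (⟨hz, hzy⟩ : z ∈ A \ {y})
          have h4 : p ∈ ({p'} : Set V) := hp' ▸ hpA'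
          rw [Set.mem_singleton_iff] at h3 h4
          rw [h3, h4]
      have h3 := h.deg3 p (hA hpA)
      have h4 : G.neighborSet p ⊆ {a, x} := by
        intro z hz
        have hz' : G.Adj p z := hz
        rcases mem_or_Nb hpA hz' with h5 | h5
        · rcases hAy z h5 with e | e
          · exfalso
            subst e
            rcases (adj3 hy p).1 hz'.symm with e | e | e
            · exact hpX (e ▸ haX)
            · exact hpX (e ▸ hbX)
            · exact hpX (e ▸ hcX)
          · exact absurd e.symm hz'.ne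
        · rw [hx] at h5
          rcases h5 with e | e | e | e
          · exact Or.inl e
          · exact absurd ((hpadj b hbX).1 (e ▸ hz')) hab.symm
          · exact absurd ((hpadj c hcX).1 (e ▸ hz')) hac.symm
          · exact Or.inr e
      have h5 := Set.ncard_le_ncard h4 (Set.toFinite _)
      have h6 : ({a, x} : Set V).ncard ≤ 2 := ncard_pair_le_om a x
      omega
  · obtain ⟨-, u, hu, huy⟩ := hW.qN
    have har : G.Adj a r := (adj3 ha r).2 (Or.inr (Or.inr rfl))
    rcases (adj3 hy u).1 huy.symm with e | e | e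
    · exact hW.yN.1 (e ▸ hu)
    · subst e
      exact hW.tri har hu hbr.symm (Or.inr hyb)
    · subst e
      exact hW.tri har hu hcr.symm (Or.inr hyc)

/-- `Omega` is impossible. -/
theorem omega_false [Finite V] {G : SimpleGraph V} {U : Set V} (h : GCore G U) {X : Set V}
    {κX : V → ZMod 2} (hX : GMinX G U κX X) {y a b c p q r s : V}
    (hO : Omega G X y a b c p q r s) : False := by
  obtain ⟨hyX, haX, hbX, hab, hac, hbc, hNy, hNX, hpq, hpr, hps, hqr, hqs, hrs, hpadj, hqadj,
    hNX1⟩ := hO
  have hXS := hX.sub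
  have hya : G.Adj y a := (adj3 hNy a).2 (Or.inl rfl)
  have hyb : G.Adj y b := (adj3 hNy b).2 (Or.inr (Or.inl rfl))
  have hyc : G.Adj y c := (adj3 hNy c).2 (Or.inr (Or.inr rfl))
  have hnot : ∀ z, z ∈ ({p, q, r, s} : Set V) → z ∉ X := by
    intro z hz
    have : z ∈ Nb G X := by rw [hNX]; exact hz
    exact this.1
  have hpX : p ∉ X := hnot p (by simp)
  have hqX : q ∉ X := hnot q (by simp)
  have hrX : r ∉ X := hnot r (by simp)
  have hsX : s ∉ X := hnot s (by simp)
  have har : a ≠ r := fun hh => hrX (hh ▸ haX)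
  have has : a ≠ s := fun hh => hsX (hh ▸ haX)
  have hbr : b ≠ r := fun hh => hrX (hh ▸ hbX)
  have hbs : b ≠ s := fun hh => hsX (hh ▸ hbX)
  have hyX1 : y ∈ X \ {a, b} := by
    refine ⟨hyX, ?_⟩
    rintro (hh | hh)
    · exact hya.ne hh
    · exact hyb.ne hh
  have hLL : IsLL G (X \ {a, b}) := by
    refine hX.min _ Set.sdiff_subset ?_ ⟨y, hyX1⟩ ?_
    · intro hh
      have : a ∈ X \ {a, b} := by rw [hh]; exact haX
      exact this.2 (Or.inl rfl)
    · rw [hNX1]; exact ncard4 hab har has hbr hbs hrs
  have h2 : 2 ≤ (X \ {a, b}).ncard := by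
    have h1 : ({a, b} : Set V) ⊆ X := by
      rintro z (rfl | rfl)
      · exact haX
      · exact hbX
    have h2 := Set.ncard_sdiff_add_ncard_of_subset h1 (Set.toFinite _)
    rw [Set.ncard_pair hab] at h2
    have := hX.size
    omega
  have hXeq : ∀ z, z ∈ X → z ∈ X \ {a, b} ∨ z = a ∨ z = b := by
    intro z hz
    by_cases hza : z = a
    · exact Or.inr (Or.inl hza)
    · by_cases hzb : z = b
      · exact Or.inr (Or.inr hzb)
      · refine Or.inl ⟨hz, ?_⟩
        rintro (hh | hh)
        · exact hza hh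
        · exact hzb hh
  have hkab : κX a = κX b := hX.bal.eq hyX hya hyb
  have hnab : ¬ G.Adj a b := fun hh => hX.bal a b haX hh hkab
  -- neighbours of a and b
  have hNa : ∀ z, G.Adj a z → z ∈ X \ {a, b} ∨ z = p ∨ z = r ∨ z = s := by
    intro z hz
    rcases mem_or_Nb haX hz with h1 | h1
    · rcases hXeq z h1 with h3 | h3 | h3
      · exact Or.inl h3
      · exact absurd h3.symm hz.ne
      · exact absurd (h3 ▸ hz) hnab
    · rw [hNX] at h1
      rcases h1 with e | e | e | e
      · exact Or.inr (Or.inl e)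
      · exfalso
        subst e
        exact hab ((hqadj a haX).1 hz.symm)
      · exact Or.inr (Or.inr (Or.inl e))
      · exact Or.inr (Or.inr (Or.inr e))
  have hNb : ∀ z, G.Adj b z → z ∈ X \ {a, b} ∨ z = q ∨ z = r ∨ z = s := by
    intro z hz
    rcases mem_or_Nb hbX hz with h1 | h1
    · rcases hXeq z h1 with h3 | h3 | h3
      · exact Or.inl h3
      · exact absurd (h3 ▸ hz.symm) hnab
      · exact absurd h3.symm hz.ne
    · rw [hNX] at h1
      rcases h1 with e | e | e | e
      · exfalso
        subst e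
        exact hab ((hpadj b hbX).1 hz.symm).symm
      · exact Or.inr (Or.inl e)
      · exact Or.inr (Or.inr (Or.inl e))
      · exact Or.inr (Or.inr (Or.inr e))
  have hda := h.deg3 a (hXS haX)
  have hdb := h.deg3 b (hXS hbX)
  rcases hLL with ⟨x, hx⟩ | ⟨w1, w2, a1, b1, e, g, hL⟩ | ⟨x1, x2, p1, q1, r1, s1, hH⟩ |
    ⟨w, y1, y2, n1, n2, n3, n4, hE⟩ | ⟨x1, x2, y1, y2, p1, q1, r1, s1, hQ⟩
  · rw [hx, Set.ncard_singleton] at h2
    omega
  · -- L1
    obtain ⟨heq, hne, hn1, hn2, hab1, hae, hag, hbe, hbg, heg⟩ := hL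
    have hw1 : w1 ∈ X \ {a, b} := by rw [heq]; simp
    have hw2 : w2 ∈ X \ {a, b} := by rw [heq]; simp
    have hk12 : κX w1 = κX w2 := eq_of_ne_of_ne (c := κX e)
      (hX.bal w1 e hw1.1 ((adj3 hn1 e).2 (Or.inr (Or.inl rfl))))
      (hX.bal w2 e hw2.1 ((adj3 hn2 e).2 (Or.inr (Or.inl rfl))))
    have hky : κX y = κX w1 := by
      have : y ∈ ({w1, w2} : Set V) := heq ▸ hyX1
      rcases this with e | e
      · rw [e]
      · have e' : y = w2 := e
        rw [e', hk12]
    have hkr : κX r = κX a := by
      have : r ∈ Nb G (X \ {a, b}) := by rw [hNX1]; simp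
      obtain ⟨-, u, hu, hur⟩ := this
      have huX : u ∈ X := hu.1
      rw [heq] at hu
      have hku : κX u = κX y := by
        rcases hu with e | e
        · rw [e, hky]
        · have e' : u = w2 := e
          rw [e', hky, hk12]
      exact eq_of_ne_of_ne (c := κX y) (by rw [← hku]; exact (hX.bal u _ huX hur).symm)
        (hX.bal y a hyX hya).symm
    have hks : κX s = κX a := by
      have : s ∈ Nb G (X \ {a, b}) := by rw [hNX1]; simp
      obtain ⟨-, u, hu, hur⟩ := this
      have huX : u ∈ X := hu.1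
      rw [heq] at hu
      have hku : κX u = κX y := by
        rcases hu with e | e
        · rw [e, hky]
        · have e' : u = w2 := e
          rw [e', hky, hk12]
      exact eq_of_ne_of_ne (c := κX y) (by rw [← hku]; exact (hX.bal u _ huX hur).symm)
        (hX.bal y a hyX hya).symm
    have hNa' : G.neighborSet a = {w1, w2, p} := by
      apply eq_of_three _ hda
      intro z hz
      rcases hNa z hz with h1 | h1 | h1 | h1
      · rw [heq] at h1
        rcases h1 with e | e
        · exact Or.inl e
        · exact Or.inr (Or.inl e)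
      · exact Or.inr (Or.inr h1)
      · exact absurd (h1 ▸ hkr.symm) (hX.bal a z haX hz)
      · exact absurd (h1 ▸ hks.symm) (hX.bal a z haX hz)
    have hNb' : G.neighborSet b = {w1, w2, q} := by
      apply eq_of_three _ hdb
      intro z hz
      rcases hNb z hz with h1 | h1 | h1 | h1
      · rw [heq] at h1
        rcases h1 with e | e
        · exact Or.inl e
        · exact Or.inr (Or.inl e)
      · exact Or.inr (Or.inr h1)
      · exact absurd (h1 ▸ (hkr.trans hkab).symm) (hX.bal b z hbX hz)
      · exact absurd (h1 ▸ (hks.trans hkab).symm) (hX.bal b z hbX hz)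
    have hmem : ∀ z, G.Adj z w1 → G.Adj z w2 → z = e ∨ z = g := by
      intro z h1 h3
      rcases (adj3 hn1 z).1 h1.symm with h4 | h4 | h4
      · rcases (adj3 hn2 z).1 h3.symm with h5 | h5 | h5
        · exact absurd (h4.symm.trans h5) hab1
        · exact Or.inl h5
        · exact Or.inr h5
      · exact Or.inl h4
      · exact Or.inr h4
    have hae' := hmem a ((adj3 hNa' w1).2 (Or.inl rfl)) ((adj3 hNa' w2).2 (Or.inr (Or.inl rfl)))
    have hbe' := hmem b ((adj3 hNb' w1).2 (Or.inl rfl)) ((adj3 hNb' w2).2 (Or.inr (Or.inl rfl)))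
    have hXX : X = {w1, w2, a, b} := by
      ext z
      constructor
      · intro hz
        rcases hXeq z hz with h1 | h1 | h1
        · rw [heq] at h1
          rcases h1 with e | e
          · exact Or.inl e
          · exact Or.inr (Or.inl e)
        · exact Or.inr (Or.inr (Or.inl h1))
        · exact Or.inr (Or.inr (Or.inr h1))
      · rintro (rfl | rfl | rfl | rfl)
        · exact hw1.1
        · exact hw2.1
        · exact haX
        · exact hbX
    have haux : ∀ (a' b' : V), (a' = e ∧ b' = g) ∨ (a' = g ∧ b' = e) →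
        G.neighborSet w1 = {a', b', a1} ∧ G.neighborSet w2 = {a', b', b1} ∧ a1 ≠ a' ∧ a1 ≠ b' ∧
          b1 ≠ a' ∧ b1 ≠ b' := by
      rintro a' b' (⟨rfl, rfl⟩ | ⟨rfl, rfl⟩)
      · refine ⟨?_, ?_, hae, hag, hbe, hbg⟩
        · rw [hn1]; ext x; simp only [Set.mem_insert_iff, Set.mem_singleton_iff]; clear * -; tauto
        · rw [hn2]; ext x; simp only [Set.mem_insert_iff, Set.mem_singleton_iff]; clear * -; tauto
      · refine ⟨?_, ?_, hag, hae, hbg, hbe⟩
        · rw [hn1]; ext x; simp only [Set.mem_insert_iff, Set.mem_singleton_iff]; clear * -; tauto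
        · rw [hn2]; ext x; simp only [Set.mem_insert_iff, Set.mem_singleton_iff]; clear * -; tauto
    have hcase : (a = e ∧ b = g) ∨ (a = g ∧ b = e) := by
      rcases hae' with h1 | h1 <;> rcases hbe' with h3 | h3
      · exact absurd (h1.trans h3.symm) hab
      · exact Or.inl ⟨h1, h3⟩
      · exact Or.inr ⟨h1, h3⟩
      · exact absurd (h1.trans h3.symm) hab
    obtain ⟨g1, g2, g3, g4, g5, g6⟩ := haux a b hcase
    refine hX.notLL (Or.inr (Or.inr (Or.inr (Or.inr ⟨w1, w2, a, b, a1, b1, p, q, ?_⟩))))
    exact ⟨hXX, g1, g2, hNa', hNb', hne, hab, hab1, hpq, g3, g4, g5, g6,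
      fun hh => hpX (hh ▸ hw1.1), fun hh => hpX (hh ▸ hw2.1),
      fun hh => hqX (hh ▸ hw1.1), fun hh => hqX (hh ▸ hw2.1)⟩
  · -- H
    obtain ⟨heq, hn1, hn2, hpq1, hpx, hqx, hrs1, hrx, hsx⟩ := hH
    -- reduce to y = x1
    have key : ∀ (x1 x2 p1 q1 r1 s1 : V), X \ {a, b} = {x1, x2} →
        G.neighborSet x1 = {x2, p1, q1} → G.neighborSet x2 = {x1, r1, s1} → y = x1 → r1 ≠ s1 →
        False := by
      intro x1 x2 p1 q1 r1 s1 heq hn1 hn2 hyx hrs1
      subst hyx
      have hx2 : x2 ∈ X \ {a, b} := by rw [heq]; simp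
      have hx2a : x2 ≠ a := fun hh => hx2.2 (Or.inl hh)
      have hx2b : x2 ≠ b := fun hh => hx2.2 (Or.inr hh)
      have hcx2 : c = x2 := by
        have h1 : G.Adj y x2 := (adj3 hn1 x2).2 (Or.inl rfl)
        rcases (adj3 hNy x2).1 h1 with e | e | e
        · exact absurd e hx2a
        · exact absurd e hx2b
        · exact e.symm
      subst hcx2
      -- r1, s1 in {r, s}
      have hr1 : ∀ z, (z = r1 ∨ z = s1) → z = r ∨ z = s := by
        intro z hz
        have hadj : G.Adj c z := (adj3 hn2 z).2 (Or.inr hz)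
        have hcX := hx2.1
        have hkz : κX z = κX y := hX.bal.eq hcX hadj hyc.symm
        have hzy : z ≠ y := by
          intro hh
          have h3 := h.deg3 c (hXS hcX)
          rw [hn2] at h3
          have h4 : ({y, r1, s1} : Set V).ncard ≤ 2 := by
            rcases hz with e | e
            · have : ({y, r1, s1} : Set V) = {y, s1} := by
                rw [← e, hh]; simp
              rw [this]; exact ncard_pair_le_om _ _
            · have : ({y, r1, s1} : Set V) = {y, r1} := by
                rw [← e, hh]; ext x; simp; clear * -; tauto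
              rw [this]; exact ncard_pair_le_om _ _
          omega
        have hzN : z ∈ Nb G (X \ {a, b}) := by
          refine ⟨?_, c, hx2, hadj⟩
          rw [heq]
          rintro (e | e)
          · exact hzy e
          · exact hadj.ne (Set.mem_singleton_iff.1 e).symm
        rw [hNX1] at hzN
        rcases hzN with e | e | e | e
        · exact absurd (e ▸ hkz.symm) (hX.bal y a hyX hya)
        · exact absurd (e ▸ hkz.symm) (hX.bal y b hyX hyb)
        · exact Or.inl e
        · exact Or.inr e
      have hNc : G.neighborSet c = {y, r, s} := by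
        rw [hn2]
        rcases hr1 r1 (Or.inl rfl) with e1 | e1 <;> rcases hr1 s1 (Or.inr rfl) with e2 | e2
        · exact absurd (e1.trans e2.symm) hrs1
        · rw [e1, e2]
        · rw [e1, e2]; ext x; simp only [Set.mem_insert_iff, Set.mem_singleton_iff]; clear * -; tauto
        · exact absurd (e1.trans e2.symm) hrs1
      have hcX := hx2.1
      have hc3 : (G.neighborSet c).ncard = 3 := by
        rw [hNc]
        exact ncard3 (fun hh => hrX (hh ▸ hyX)) (fun hh => hsX (hh ▸ hyX)) hrs
      have hnac : ¬ G.Adj a c := fun hh => hX.bal a c haX hh (hX.bal.eq hyX hya hyc)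
      have hnbc : ¬ G.Adj b c := fun hh => hX.bal b c hbX hh (hX.bal.eq hyX hyb hyc)
      have hTa : ¬ (G.Adj a r ∧ G.Adj a s) := by
        rintro ⟨h1, h3⟩
        apply h.T3 a c (hXS hcX) hac hc3
        rw [hNc]
        rintro z (rfl | rfl | rfl)
        · exact hya.symm
        · exact h1
        · exact h3
      have hTb : ¬ (G.Adj b r ∧ G.Adj b s) := by
        rintro ⟨h1, h3⟩
        apply h.T3 b c (hXS hcX) hbc hc3
        rw [hNc]
        rintro z (rfl | rfl | rfl)
        · exact hyb.symm
        · exact h1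
        · exact h3
      have hNa2 : ∀ z, G.Adj a z → z = y ∨ z = p ∨ z = r ∨ z = s := by
        intro z hz
        rcases hNa z hz with h1 | h1
        · rw [heq] at h1
          rcases h1 with e | e
          · exact Or.inl e
          · exact absurd (Set.mem_singleton_iff.1 e ▸ hz) hnac
        · exact Or.inr h1
      have hNb2 : ∀ z, G.Adj b z → z = y ∨ z = q ∨ z = r ∨ z = s := by
        intro z hz
        rcases hNb z hz with h1 | h1
        · rw [heq] at h1
          rcases h1 with e | e
          · exact Or.inl e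
          · exact absurd (Set.mem_singleton_iff.1 e ▸ hz) hnbc
        · exact Or.inr h1
      have hA1 : G.neighborSet a = {y, p, r} ∨ G.neighborSet a = {y, p, s} := by
        by_cases har' : G.Adj a r
        · left
          apply eq_of_three _ hda
          intro z hz
          rcases hNa2 z hz with e | e | e | e
          · exact Or.inl e
          · exact Or.inr (Or.inl e)
          · exact Or.inr (Or.inr e)
          · exact absurd ⟨har', e ▸ hz⟩ hTa
        · right
          apply eq_of_three _ hda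
          intro z hz
          rcases hNa2 z hz with e | e | e | e
          · exact Or.inl e
          · exact Or.inr (Or.inl e)
          · exact absurd (e ▸ hz) har'
          · exact Or.inr (Or.inr e)
      have hB1 : G.neighborSet b = {y, q, r} ∨ G.neighborSet b = {y, q, s} := by
        by_cases har' : G.Adj b r
        · left
          apply eq_of_three _ hdb
          intro z hz
          rcases hNb2 z hz with e | e | e | e
          · exact Or.inl e
          · exact Or.inr (Or.inl e)
          · exact Or.inr (Or.inr e)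
          · exact absurd ⟨har', e ▸ hz⟩ hTb
        · right
          apply eq_of_three _ hdb
          intro z hz
          rcases hNb2 z hz with e | e | e | e
          · exact Or.inl e
          · exact Or.inr (Or.inl e)
          · exact absurd (e ▸ hz) har'
          · exact Or.inr (Or.inr e)
      have hNc' : G.neighborSet c = {y, s, r} := by
        rw [hNc]; ext x; simp only [Set.mem_insert_iff, Set.mem_singleton_iff]; clear * -; tauto
      have hNX' : Nb G X = {p, q, s, r} := by
        rw [hNX]; ext x; simp only [Set.mem_insert_iff, Set.mem_singleton_iff]; clear * -; tauto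
      have hry : r ≠ y := fun hh => hrX (hh ▸ hyX)
      have hsy : s ≠ y := fun hh => hsX (hh ▸ hyX)
      rcases hA1 with hA1 | hA1 <;> rcases hB1 with hB1 | hB1
      · exact cone3_false h hXS hX.bal hyX haX hbX hcX hab hac hbc hNX hpadj hNy hA1 hB1 hNc
      · exact fan3_false h (hXS hyX) hab hac hbc hnac hry hps hrs hNy hA1 hB1 hNc
      · exact fan3_false h (hXS hyX) hab hac hbc hnac hsy hpr hrs.symm hNy hA1
          hB1 hNc'
      · exact cone3_false h hXS hX.bal hyX haX hbX hcX hab hac hbc hNX' hpadj hNy hA1 hB1 hNc'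
    have hy12 : y ∈ ({x1, x2} : Set V) := heq ▸ hyX1
    rcases hy12 with e | e
    · exact key x1 x2 p1 q1 r1 s1 heq hn1 hn2 e hrs1
    · have e' : y = x2 := e
      exact key x2 x1 r1 s1 p1 q1 (heq.trans (Set.pair_comm _ _)) hn2 hn1 e' hpq1
  · -- X3
    obtain ⟨heq, hnw, hny1, hny2, hyy, hy1n, hy2n, hwn1, hwn2, hwn3, hn12, hn13, hn23⟩ := hE
    have key : ∀ (y1 y2 n1 n2 : V), X \ {a, b} = {w, y1, y2} →
        G.neighborSet w = {y1, y2, n4} → G.neighborSet y1 = {w, n1, n3} →
        G.neighborSet y2 = {w, n2, n3} → y = y1 → y1 ≠ n4 → y2 ≠ n4 → w ≠ n1 → n1 ≠ n2 →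
        n1 ≠ n3 → y1 ≠ y2 → False := by
      intro y1 y2 n1 n2 heq hnw hny1 hny2 hyy1 hy1n hy2n hwn1 hn12 hn13 hyy
      subst hyy1
      have hw : w ∈ X \ {a, b} := by rw [heq]; simp
      have hy2 : y2 ∈ X \ {a, b} := by rw [heq]; simp
      have hwa : w ≠ a := fun hh => hw.2 (Or.inl hh)
      have hwb : w ≠ b := fun hh => hw.2 (Or.inr hh)
      have ha' : a = n1 ∨ a = n3 := by
        rcases (adj3 hny1 a).1 hya with e | e | e
        · exact absurd e.symm hwa
        · exact Or.inl e
        · exact Or.inr e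
      have hb' : b = n1 ∨ b = n3 := by
        rcases (adj3 hny1 b).1 hyb with e | e | e
        · exact absurd e.symm hwb
        · exact Or.inl e
        · exact Or.inr e
      have hkw : κX w = κX a := hX.bal.eq hyX ((adj3 hny1 w).2 (Or.inl rfl)) hya
      have hyw : G.Adj y w := (adj3 hny1 w).2 (Or.inl rfl)
      have hy2n2 : G.Adj y2 n2 := (adj3 hny2 n2).2 (Or.inr (Or.inl rfl))
      have hy2n3 : G.Adj y2 n3 := (adj3 hny2 n3).2 (Or.inr (Or.inr rfl))
      have hy2w : G.Adj y2 w := (adj3 hny2 w).2 (Or.inl rfl)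
      have hwn4 : G.Adj w n4 := (adj3 hnw n4).2 (Or.inr (Or.inr rfl))
      have hkn2 : κX n2 = κX a := (hX.bal.eq hy2.1 hy2n2 hy2w).trans hkw
      have hw3 : (G.neighborSet w).ncard = 3 := by
        rw [hnw]; exact ncard3 hyy hy1n hy2n
      -- the outside neighbours r, s are n2, n4
      have hrs' : ∀ z, z = r ∨ z = s → z = n2 ∨ z = n4 := by
        intro z hz
        have hzN : z ∈ Nb G (X \ {a, b}) := by
          rw [hNX1]
          rcases hz with rfl | rfl <;> simp
        have hza : z ≠ a := by
          rcases hz with rfl | rfl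
          · exact har.symm
          · exact has.symm
        have hzb : z ≠ b := by
          rcases hz with rfl | rfl
          · exact hbr.symm
          · exact hbs.symm
        have hzX : z ∉ X := by
          rcases hz with rfl | rfl
          · exact hrX
          · exact hsX
        have hz13 : z ≠ n1 ∧ z ≠ n3 := by
          rcases ha' with e1 | e1 <;> rcases hb' with e2 | e2
          · exact absurd (e1.trans e2.symm) hab
          · exact ⟨e1 ▸ hza, e2 ▸ hzb⟩
          · exact ⟨e2 ▸ hzb, e1 ▸ hza⟩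
          · exact absurd (e1.trans e2.symm) hab
        obtain ⟨-, u, hu, huz⟩ := hzN
        rw [heq] at hu
        rcases hu with e | e | e
        · subst e
          rcases (adj3 hnw z).1 huz with e | e | e
          · exact absurd (e ▸ hyX) hzX
          · exact absurd (e ▸ hy2.1) hzX
          · exact Or.inr e
        · subst e
          rcases (adj3 hny1 z).1 huz with e | e | e
          · exact absurd (e ▸ hw.1) hzX
          · exact absurd e hz13.1
          · exact absurd e hz13.2
        · have e' : u = y2 := e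
          subst e'
          rcases (adj3 hny2 z).1 huz with e | e | e
          · exact absurd (e ▸ hw.1) hzX
          · exact Or.inl e
          · exact absurd e hz13.2
      -- N(n1) where n1 is a or b with private neighbour p'
      have hfin : ∀ (a' p' : V), a' = n1 → a' ∈ X → κX a' = κX a → G.Adj y a' →
          (∀ z, G.Adj a' z → z ∈ X \ {a, b} ∨ z = p' ∨ z = r ∨ z = s) → p' ∉ X → False := by
        intro a' p' e ha'X hka' hya' hN' hp'X
        subst e
        have hd := h.deg3 a' (hXS ha'X)
        have hN1 : G.neighborSet a' = {y, p', n4} := by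
          apply eq_of_three _ hd
          intro z hz
          rcases hN' z hz with h1 | h1 | h1
          · rw [heq] at h1
            rcases h1 with e | e | e
            · exfalso
              subst e
              exact hX.bal _ _ ha'X hz (hka'.trans hkw.symm)
            · exact Or.inl e
            · exfalso
              have e' : z = y2 := e
              subst e'
              have h3 : G.Adj z a' := hz.symm
              rcases (adj3 hny2 a').1 h3 with e | e | e
              · exact hwn1 e.symm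
              · exact hn12 e
              · exact hn13 e
          · exact Or.inr (Or.inl h1)
          · rcases hrs' z h1 with e | e
            · exfalso
              subst e
              exact hX.bal _ _ ha'X hz (hka'.trans hkn2.symm)
            · exact Or.inr (Or.inr e)
        exact x5_false h (hXS hyX) (fun hh => hX.bal _ _ hw.1 hh (hkw.trans hka'.symm)) hwn1 hwn3 hn13 hy1n.symm
          (fun hh : p' = y2 => hp'X (by rw [hh]; exact hy2.1)) hy2n hny1 hnw hN1 hy2n3
      rcases ha' with e1 | e1
      · exact hfin a p e1 haX rfl hya hNa hpX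
      · rcases hb' with e2 | e2
        · exact hfin b q e2 hbX hkab.symm hyb hNb hqX
        · exact hab (e1.trans e2.symm)
    have hy12 : y ∈ ({w, y1, y2} : Set V) := heq ▸ hyX1
    rcases hy12 with e | e | e
    · -- y = w has only one neighbour outside
      have hy1 : y1 ∈ X \ {a, b} := by rw [heq]; simp
      have hy2 : y2 ∈ X \ {a, b} := by rw [heq]; simp
      subst e
      have h1 : ∀ z, G.Adj y z → z ∉ X \ {a, b} → z = n4 := by
        intro z hz hzn
        rcases (adj3 hnw z).1 hz with e | e | e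
        · exact absurd (e ▸ hy1) hzn
        · exact absurd (e ▸ hy2) hzn
        · exact e
      exact hab ((h1 a hya (fun hh => hh.2 (Or.inl rfl))).trans
        (h1 b hyb (fun hh => hh.2 (Or.inr rfl))).symm)
    · exact key y1 y2 n1 n2 heq hnw hny1 hny2 e hy1n hy2n hwn1 hn12 hn13 hyy
    · have e' : y = y2 := e
      refine key y2 y1 n2 n1 ?_ ?_ hny2 hny1 e' hy2n hy1n hwn2 hn12.symm hn23 hyy.symm
      · rw [heq]; ext x; simp only [Set.mem_insert_iff, Set.mem_singleton_iff]; clear * -; tauto
      · rw [hnw]; ext x; simp only [Set.mem_insert_iff, Set.mem_singleton_iff]; clear * -; tauto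
  · -- Sq
    obtain ⟨heq, hnx1, hnx2, hny1, hny2, -⟩ := hQ
    have m1 : x1 ∈ X \ {a, b} := by rw [heq]; simp
    have m2 : x2 ∈ X \ {a, b} := by rw [heq]; simp
    have m3 : y1 ∈ X \ {a, b} := by rw [heq]; simp
    have m4 : y2 ∈ X \ {a, b} := by rw [heq]; simp
    have key : ∀ (u1 u2 o : V), u1 ∈ X \ {a, b} → u2 ∈ X \ {a, b} →
        G.neighborSet y = {u1, u2, o} → False := by
      intro u1 u2 o hu1 hu2 hN
      have h1 : ∀ z, G.Adj y z → z ∉ X \ {a, b} → z = o := by
        intro z hz hzn
        rcases (adj3 hN z).1 hz with e | e | e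
        · exact absurd (e ▸ hu1) hzn
        · exact absurd (e ▸ hu2) hzn
        · exact e
      exact hab ((h1 a hya (fun hh => hh.2 (Or.inl rfl))).trans
        (h1 b hyb (fun hh => hh.2 (Or.inr rfl))).symm)
    have hy12 : y ∈ ({x1, x2, y1, y2} : Set V) := heq ▸ hyX1
    rcases hy12 with e | e | e | e
    · exact key y1 y2 p1 m3 m4 (e ▸ hnx1)
    · exact key y1 y2 q1 m3 m4 (e ▸ hnx2)
    · exact key x1 x2 r1 m1 m2 (e ▸ hny1)
    · have e' : y = y2 := e
      exact key x1 x2 s1 m1 m2 (e' ▸ hny2)

end Pool.Agent.Helper51.GX
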