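import Pool.Agent.Helper51.GX.Omega
import Pool.Agent.Helper51.GX.O3X
import Pool.Agent.Helper51.TDC.Star

/-!
# The global part: a cubic vertex of a minimal non-list set has at most one neighbour in it
-/

set_option autoImplicit false

namespace Pool.Agent.Helper51.GX

open SimpleGraph Pool.Agent.Helper57.TOK Pool.Agent.Helper57.TD
open Pool.Agent.Helper51.TDC (adj3 ncard3 ncard4 ncard5 two_le_of_mem third_of_ncard3)

variable {V : Type*}

theorem star [Finite V] {G : SimpleGraph V} {U : Set V} (h : GCore G U) {X : Set V}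
    {κX : V → ZMod 2} (hX : GMinX G U κX X) : Pool.Agent.Helper51.TDC.Star G X := by
  intro y hy hdeg u hu v hv hyu hyv
  by_contra huv
  obtain ⟨c, hNy, huc, hvc⟩ := third_of_ncard3 hdeg hyu hyv huv
  have hk : κX u = κX v := hX.bal.eq hy hyu hyv
  have hnadj : ¬ G.Adj u v := fun hh => hX.bal u v hu hh hk
  rcases h.FOLD y u v c (hX.sub hy) huv huc hvc hnadj hNy with
    ⟨z1, z2, hz, h1, h2, h3, h4, h5, h6⟩ | ⟨A, hA, κA, bA, hA4, h1, h2, kA, h3, h4, h5, h6⟩ |
    ⟨A, hA, κA, bA, hA4, h1, h2, h3, h4, h5, h6⟩ | ⟨W, κ, hW⟩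
  · exact no_type1 h hX hu (Or.inl hv) hk huv h1.symm h2.symm hz hyu.symm h3 h5 hyv.symm h4 h6
  · rcases Nat.lt_or_ge (Ck A X κA κX (κA u + κX u)).ncard 2 with hlt | hge
    · rcases Nat.lt_or_ge (Ck A X κA κX (κA u + κX u)).ncard 1 with hlt' | hge'
      · have h0 : Ck A X κA κX (κA u + κX u) = ∅ := by
          rw [← Set.ncard_eq_zero (Set.toFinite _)]; omega
        obtain ⟨p, q, r, s, hO⟩ :=
          alpha_zero h hX hu hv hy huv huc hvc hNy hA bA hA4 h1 h2 kA h6 h0
        exact omega_false h hX hO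
      · exact no_alpha_one h hX hu hv huv hk hA bA hA4 h1 h2 kA h6 (by omega)
    · exact no_alpha_big h hX (Or.inl hu) hv hy huv huc hvc hNy hA bA hA4 h1 h2 kA h3 h4 h5 h6 hge
  · exact no_gamma h hX hu hv hy huv hyu hyv hA bA hA4 h1 h2 h3 h6
  · exact o3_in h hX hu hv hy huv huc hvc hNy hW

end Pool.Agent.Helper51.GX
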